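import Mathlib

/-!
# Ana: the real analysis of the proof

`qs η n = (n+1)^(-(1+η)) / 2`.
PROOF. `qs_sum`: `∑ (n+1)^(-(1+η))` converges (`Real.summable_one_div_nat_add_rpow`, or shift
`Real.summable_nat_rpow`); every finite partial sum is at most the total sum.
`tail`: `q_n² / (C (n+1)^(-α)) = (n+1)^(α-2-2η) / (4C) = (n+1)^κ / (4C)`, `κ = α - 2 - 2η = (α-2)/2 > 0` for
`η = (α-2)/4`. `exp (-y) ≤ k! / y^k` for `y > 0` (`Real.pow_div_factorial_le_exp`); with `k κ ≥ 2`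
and `(n+1)^2 ≤ (n+1)^(κ k)`: `exp (-(n+1)^κ/(4C)) ≤ M / (n+1)² ≤ 2 M / ((n+1)(n+2))`. Telescoping:
`∑_{n=r}^{r+m-1} 1/((n+1)(n+2)) = 1/(r+1) - 1/(r+m+1) ≤ 1/(r+1)` (induction on `m`).
`final_bound`: let `r = ⌈2 C2 / δ⌉₊`; `C2/(r+1) ≤ δ/2`, `δ r ≤ 2 C2 + δ ≤ 2 C2 + 1`. So for every `t`
`δ/2 ≤ exp (K1 + a δ r - a m t) ≤ exp (K1 + a (2 C2 + 1) - a m t)`, take logarithms:
`a m t ≤ K1 + a (2 C2 + 1) + log (2/δ)`.
-/

open Finset

namespace Pool.Agent.Lib.PkQ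

/-- The deviations. -/
noncomputable def qs (η : ℝ) (n : ℕ) : ℝ := ((n : ℝ) + 1) ^ (-(1 + η)) / 2

theorem qs_nonneg (η : ℝ) (n : ℕ) : 0 ≤ qs η n := by
  unfold qs
  positivity

theorem qs_le {η : ℝ} (hη : 0 < η) (n : ℕ) : qs η n ≤ 1 / 2 := by
  unfold qs
  have h : ((n : ℝ) + 1) ^ (-(1 + η)) ≤ 1 :=
    Real.rpow_le_one_of_one_le_of_nonpos (by linarith [(Nat.cast_nonneg n : (0 : ℝ) ≤ n)])
      (by linarith)
  linarith

theorem qs_sum {η : ℝ} (hη : 0 < η) : ∃ Q : ℝ, 0 ≤ Q ∧ ∀ S : Finset ℕ, ∑ n ∈ S, qs η n ≤ Q := by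
  have h1 : Summable fun n : ℕ => ((n : ℝ)) ^ (-(1 + η)) :=
    Real.summable_nat_rpow.2 (by linarith)
  have h2 : Summable fun n : ℕ => (((n + 1 : ℕ) : ℝ)) ^ (-(1 + η)) :=
    (summable_nat_add_iff (f := fun n : ℕ => ((n : ℝ)) ^ (-(1 + η))) 1).2 h1
  have h3 : Summable fun n : ℕ => qs η n := by
    have h4 := h2.div_const 2
    refine h4.congr fun n => ?_
    unfold qs
    push_cast
    rfl
  exact ⟨∑' n, qs η n, tsum_nonneg (qs_nonneg η), fun S =>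
    h3.sum_le_tsum S fun n _ => qs_nonneg η n⟩

private theorem Ana_tele (r m : ℕ) : ∑ i ∈ range m,
    1 / ((((r + i : ℕ) : ℝ) + 1) * (((r + i : ℕ) : ℝ) + 2)) =
      1 / ((r : ℝ) + 1) - 1 / ((r : ℝ) + m + 1) := by
  induction m with
  | zero => simp
  | succ m ih =>
    rw [sum_range_succ, ih]
    push_cast
    have h1 : (r : ℝ) + 1 ≠ 0 := by positivity
    have h2 : (r : ℝ) + m + 1 ≠ 0 := by positivity
    have h3 : (r : ℝ) + m + 2 ≠ 0 := by positivity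
    have h4 : (r : ℝ) + (m + 1) + 1 ≠ 0 := by positivity
    field_simp
    ring

private theorem Ana_exp {y : ℝ} (hy : 0 < y) (k : ℕ) :
    Real.exp (-y) ≤ (k.factorial : ℝ) / y ^ k := by
  have h1 := Real.pow_div_factorial_le_exp y hy.le k
  have hk : (0 : ℝ) < k.factorial := by exact_mod_cast k.factorial_pos
  have hyk : 0 < y ^ k := pow_pos hy k
  rw [Real.exp_neg, inv_eq_one_div, div_le_div_iff₀ (Real.exp_pos y) hyk]
  rw [div_le_iff₀ hk] at h1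
  linarith

theorem tail {α C : ℝ} (hα : 2 < α) (hC : 1 ≤ C) :
    ∃ C2 : ℝ, 0 ≤ C2 ∧ ∀ r m : ℕ, ∑ i ∈ range m,
      Real.exp (-((qs ((α - 2) / 4) (r + i)) ^ 2 / (C * (((r + i : ℕ) : ℝ) + 1) ^ (-α)))) ≤
        C2 / (r + 1) := by
  set κ : ℝ := (α - 2) / 2 with hκ
  have hκ0 : 0 < κ := by rw [hκ]; linarith
  obtain ⟨k, hk⟩ := exists_nat_ge (2 / κ)
  have hk2 : 2 ≤ κ * k := by
    rw [div_le_iff₀ hκ0] at hk
    linarith
  have hC0 : 0 < C := by linarith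
  have hM0 : 0 ≤ (k.factorial : ℝ) * (4 * C) ^ k := by positivity
  have key : ∀ n : ℕ, Real.exp (-((qs ((α - 2) / 4) n) ^ 2 / (C * ((n : ℝ) + 1) ^ (-α)))) ≤
      2 * ((k.factorial : ℝ) * (4 * C) ^ k) * (1 / (((n : ℝ) + 1) * ((n : ℝ) + 2))) := by
    intro n
    have hn : (0 : ℝ) < (n : ℝ) + 1 := by positivity
    have hn1 : (1 : ℝ) ≤ (n : ℝ) + 1 := by linarith [(Nat.cast_nonneg n : (0 : ℝ) ≤ n)]
    have e1 : (qs ((α - 2) / 4) n) ^ 2 / (C * ((n : ℝ) + 1) ^ (-α)) =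
        ((n : ℝ) + 1) ^ κ / (4 * C) := by
      unfold qs
      have e2 : (((n : ℝ) + 1) ^ (-(1 + (α - 2) / 4)) / 2) ^ 2 =
          (((n : ℝ) + 1) ^ κ * ((n : ℝ) + 1) ^ (-α)) / 4 := by
        rw [← Real.rpow_add hn, div_pow, ← Real.rpow_natCast (((n : ℝ) + 1) ^ _) 2,
          ← Real.rpow_mul hn.le]
        norm_num
        congr 1
        rw [hκ]
        ring
      rw [e2]
      have e3 : ((n : ℝ) + 1) ^ (-α) ≠ 0 := (Real.rpow_pos_of_pos hn _).ne'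
      field_simp
    rw [e1]
    have hy : 0 < ((n : ℝ) + 1) ^ κ / (4 * C) := by positivity
    refine (Ana_exp hy k).trans ?_
    have e4 : (((n : ℝ) + 1) ^ κ / (4 * C)) ^ k = ((n : ℝ) + 1) ^ (κ * k) / (4 * C) ^ k := by
      rw [div_pow, ← Real.rpow_natCast (((n : ℝ) + 1) ^ κ) k, ← Real.rpow_mul hn.le]
    rw [e4]
    have e5 : ((n : ℝ) + 1) ^ 2 ≤ ((n : ℝ) + 1) ^ (κ * k) := by
      rw [← Real.rpow_natCast ((n : ℝ) + 1) 2]
      exact Real.rpow_le_rpow_of_exponent_le hn1 (by exact_mod_cast hk2)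
    have e6 : (k.factorial : ℝ) / (((n : ℝ) + 1) ^ (κ * k) / (4 * C) ^ k) =
        ((k.factorial : ℝ) * (4 * C) ^ k) / ((n : ℝ) + 1) ^ (κ * k) := by
      rw [div_div_eq_mul_div]
    rw [e6]
    refine (div_le_div_of_nonneg_left hM0 (by positivity) e5).trans ?_
    have e7 : 2 * ((k.factorial : ℝ) * (4 * C) ^ k) * (1 / (((n : ℝ) + 1) * ((n : ℝ) + 2))) =
        ((k.factorial : ℝ) * (4 * C) ^ k) * (2 / (((n : ℝ) + 1) * ((n : ℝ) + 2))) := by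
      ring
    rw [e7, div_eq_mul_one_div]
    refine mul_le_mul_of_nonneg_left ?_ hM0
    rw [div_le_div_iff₀ (by positivity) (by positivity)]
    nlinarith [(Nat.cast_nonneg n : (0 : ℝ) ≤ n)]
  refine ⟨2 * ((k.factorial : ℝ) * (4 * C) ^ k), by positivity, fun r m => ?_⟩
  calc ∑ i ∈ range m,
      Real.exp (-((qs ((α - 2) / 4) (r + i)) ^ 2 / (C * (((r + i : ℕ) : ℝ) + 1) ^ (-α))))
      ≤ ∑ i ∈ range m, 2 * ((k.factorial : ℝ) * (4 * C) ^ k) *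
        (1 / ((((r + i : ℕ) : ℝ) + 1) * (((r + i : ℕ) : ℝ) + 2))) :=
        sum_le_sum fun i _ => key (r + i)
    _ = 2 * ((k.factorial : ℝ) * (4 * C) ^ k) * (1 / ((r : ℝ) + 1) - 1 / ((r : ℝ) + m + 1)) := by
        rw [← mul_sum, Ana_tele]
    _ ≤ 2 * ((k.factorial : ℝ) * (4 * C) ^ k) * (1 / ((r : ℝ) + 1)) := by
        refine mul_le_mul_of_nonneg_left ?_ (by positivity)
        have : (0 : ℝ) ≤ 1 / ((r : ℝ) + m + 1) := by positivity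
        linarith
    _ = 2 * ((k.factorial : ℝ) * (4 * C) ^ k) / ((r : ℝ) + 1) := by ring

theorem final_bound {a K1 C2 : ℝ} (ha : 0 < a) (hC2 : 0 ≤ C2) {δ : ℝ} (hδ : 0 < δ) (hδ1 : δ ≤ 1)
    {m : ℕ → ℝ} (h : ∀ t r : ℕ, δ ≤ Real.exp (K1 + a * δ * r - a * m t) + C2 / (r + 1)) (t : ℕ) :
    m t ≤ (K1 + a * (2 * C2 + 1) + Real.log (2 / δ)) / a := by
  have h1 := Nat.le_ceil (2 * C2 / δ)
  have h2 := (Nat.ceil_lt_add_one (show 0 ≤ 2 * C2 / δ by positivity)).le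
  set r : ℕ := ⌈2 * C2 / δ⌉₊ with hr
  have h3 : 2 * C2 ≤ δ * r := by
    rw [div_le_iff₀ hδ] at h1
    linarith
  have h4 : δ * r ≤ 2 * C2 + 1 := by
    have h5 : δ * r ≤ δ * (2 * C2 / δ + 1) := mul_le_mul_of_nonneg_left h2 hδ.le
    have h6 : δ * (2 * C2 / δ + 1) = 2 * C2 + δ := by
      field_simp
    linarith
  have hr0 : (0 : ℝ) < (r : ℝ) + 1 := by positivity
  have h5 : C2 / ((r : ℝ) + 1) ≤ δ / 2 := by
    rw [div_le_div_iff₀ hr0 two_pos]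
    nlinarith
  have h6 : δ / 2 ≤ Real.exp (K1 + a * δ * r - a * m t) := by
    have := h t r
    linarith
  have h7 : Real.log (δ / 2) ≤ K1 + a * δ * r - a * m t := by
    rw [← Real.log_exp (K1 + a * δ * r - a * m t)]
    exact Real.log_le_log (by positivity) h6
  have h8 : Real.log (2 / δ) = -Real.log (δ / 2) := by
    rw [← Real.log_inv, inv_div]
  rw [le_div_iff₀ ha, h8]
  have h9 : a * δ * r ≤ a * (2 * C2 + 1) := by
    rw [mul_assoc]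
    exact mul_le_mul_of_nonneg_left h4 ha.le
  nlinarith

end Pool.Agent.Lib.PkQ
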