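import Pool.Agent.Lib.PkQ.Defs

/-!
# Mono: the probability that a car is unparked increases with the density

PROOF. `Disc s s'` gives `s.cars ⊆ s'.cars` (`disc_cars_subset`). Let `F ω = - (indicator of v ∈ (istate G e ω t).cars)`
(values in `{-1, 0}`). `Good F` (Decouple.lean): measurable (`measurable_istate`), bounded by 1, `spot` by
`istate_spot_congr`, `car_ge` trivial (`F ≥ -1`, `F ≤ 0`), `car_le`: as in `cnt_car_spot` (Internal.lean):
`disc_spot`, `disc_car`, `neutral_update`, `ievo_neutral_congr`: the cars of the input with a spot at `i` are a subset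
of the cars of the input with a car at `i`. `DependsOn F J` for a finite `J`: `istate_FD T.locallyFinite e t`.
`e : V → ℕ` injective: `T.countable`, `Countable.exists_injective_nat`.
If `p = p0` nothing to do. Else `p < p0`; choose `l = min (1/2) ((p0 - p) / 2)`: `0 < l ≤ 1/2` and
`p (1 + 2 l) ≤ p + 2 l ≤ p0`. `decouple` gives `E_p exp (-(l F)) ≤ exp (-(l E_{p0} F))`, Jensen
(`ConvexOn.map_integral_le`, `convexOn_exp`) gives `exp (-(l E_p F)) ≤ E_p exp (-(l F))`. So `E_{p0} F ≤ E_p F`.
`∫ F = - (law K p).real {v ∈ (istate G e ω t).cars}` (`integral_indicator_one`), and the law does not see the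
difference between `istate` and `state` (`nice_ae`, `istate_eq`, `measureReal_congr`).
-/

open MeasureTheory Set Function
open scoped ENNReal unitInterval

namespace Pool.Agent.Lib.PkQ

open Pool.Agent.Lib.MP_971c94_pr

theorem disc_cars_subset {V : Type*} {s s' : State V} (h : Disc s s') : s.cars ⊆ s'.cars := by
  rcases h with ⟨c, -, rfl⟩ | ⟨w, -, rfl⟩
  · exact subset_insert _ _
  · exact subset_rfl

variable {V : Type*} [MeasurableSpace V] [DiscreteMeasurableSpace V] {G : SimpleGraph V}
  {K : V → PMF V} {Γ : Subgroup (G ≃g G)}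

open Classical in
/-- Minus the indicator that the car of `v` is unparked. -/
private noncomputable def monoF (G : SimpleGraph V) (e : V → ℕ) (v : V) (t : ℕ)
    (ω : V → Site V) : ℝ := if v ∈ (istate G e ω t).cars then -1 else 0

omit [MeasurableSpace V] [DiscreteMeasurableSpace V] in
private theorem mono_car_spot [DecidableEq V] (hG : ∀ v, (G.neighborSet v).Finite) {e : V → ℕ}
    (he : Injective e) (t : ℕ) (ω : V → Site V) (i : V)
    (d d' : (ℕ × V → V) × (ℕ → I)) :
    (istate G e (update ω i (false, d)) t).cars ⊆ (istate G e (update ω i (true, d')) t).cars := by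
  have h1 : Disc (istate G e (update ω i (false, d)) t)
      (ievo G e (update ω i (false, d)) (neutral (update ω i (false, d)) i) t) :=
    (disc_spot (ω := update ω i (false, d)) (i := i) (by rw [update_self])).evo
      (lexBeats_total he _) (ievo_finite hG _) t
  have h2 : Disc (ievo G e (update ω i (true, d')) (neutral (update ω i (true, d')) i) t)
      (istate G e (update ω i (true, d')) t) :=
    (disc_car (ω := update ω i (true, d')) (i := i) (by rw [update_self])).evo
      (lexBeats_total he _) (ievo_finite hG _) t
  rw [neutral_update] at h1 h2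
  rw [ievo_neutral_congr ω i (false, d) (true, d')] at h1
  exact (disc_cars_subset h1).trans (disc_cars_subset h2)

omit [MeasurableSpace V] [DiscreteMeasurableSpace V] in
private theorem monoF_bdd (e : V → ℕ) (v : V) (t : ℕ) (ω : V → Site V) :
    -1 ≤ monoF G e v t ω ∧ monoF G e v t ω ≤ 0 := by
  unfold monoF
  split_ifs <;> norm_num

private theorem mono_good [Countable V] [DecidableEq V] (hG : ∀ v, (G.neighborSet v).Finite)
    {e : V → ℕ} (he : Injective e) (v : V) (t : ℕ) : Good (monoF G e v t) where
  meas := by
    classical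
    have hC : MeasurableSet {ω : V → Site V | v ∈ (istate G e ω t).cars} :=
      measurableSet_setOfPred.mpr ((measurable_istate G e t).1 v)
    exact Measurable.ite hC measurable_const measurable_const
  bdd := ⟨1, fun ω => by
    have := monoF_bdd (G := G) e v t ω
    rw [abs_le]
    constructor <;> linarith⟩
  spot := by
    intro ω i d d'
    unfold monoF
    rw [istate_spot_congr ω i d d' t]
  car_ge := by
    intro ω i d d'
    have h1 := monoF_bdd (G := G) e v t (update ω i (false, d))
    have h2 := monoF_bdd (G := G) e v t (update ω i (true, d'))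
    linarith
  car_le := by
    intro ω i d d'
    have h := mono_car_spot (G := G) hG he t ω i d d'
    by_cases hv : v ∈ (istate G e (update ω i (false, d)) t).cars
    · have hv' := h hv
      unfold monoF
      rw [if_pos hv, if_pos hv']
    · have h2 := (monoF_bdd (G := G) e v t (update ω i (true, d'))).2
      refine h2.trans_eq ?_
      unfold monoF
      rw [if_neg hv]

omit [MeasurableSpace V] [DiscreteMeasurableSpace V] in
private theorem mono_dep (hG : ∀ v, (G.neighborSet v).Finite) (e : V → ℕ) (v : V) (t : ℕ) :
    ∃ J : Finset V, DependsOn (monoF G e v t) (J : Set V) := by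
  obtain ⟨J, hJ⟩ := (istate_FD hG e t).1 v
  refine ⟨J, fun x y hxy => ?_⟩
  have h : (v ∈ (istate G e x t).cars) = (v ∈ (istate G e y t).cars) := hJ hxy
  unfold monoF
  by_cases hv : v ∈ (istate G e x t).cars
  · have hv' : v ∈ (istate G e y t).cars := by rw [← h]; exact hv
    rw [if_pos hv, if_pos hv']
  · have hv' : v ∉ (istate G e y t).cars := by rw [← h]; exact hv
    rw [if_neg hv, if_neg hv']

private theorem mono_integral [Countable V] (T : IsTriple G K Γ) (e : V → ℕ) (p : I) (v : V)
    (t : ℕ) : ∫ ω, monoF G e v t ω ∂(law K p) = -ucar K p v t := by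
  classical
  have hC : MeasurableSet {ω : V → Site V | v ∈ (istate G e ω t).cars} :=
    measurableSet_setOfPred.mpr ((measurable_istate G e t).1 v)
  have h1 : (fun ω => monoF G e v t ω) =
      fun ω => -({ω : V → Site V | v ∈ (istate G e ω t).cars}.indicator 1 ω : ℝ) := by
    funext ω
    unfold monoF
    by_cases hv : v ∈ (istate G e ω t).cars
    · rw [if_pos hv, indicator_of_mem (by exact hv)]
      rfl
    · rw [if_neg hv, indicator_of_notMem (by exact hv), neg_zero]
  rw [h1, integral_neg, integral_indicator_one hC]
  unfold ucar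
  congr 1
  refine measureReal_congr ?_
  filter_upwards [nice_ae T.supported p] with ω hω
  have h2 : istate G e ω t = state ω t := istate_eq e hω t
  change (v ∈ (istate G e ω t).cars) = (v ∈ (state ω t).cars)
  rw [h2]

theorem ucar_mono (T : IsTriple G K Γ) {p p0 : I} (h : p ≤ p0) (v : V) (t : ℕ) :
    ucar K p v t ≤ ucar K p0 v t := by
  classical
  have : Countable V := T.countable
  obtain ⟨e, he⟩ := Countable.exists_injective_nat V
  rcases h.eq_or_lt with rfl | hlt
  · exact le_rfl
  have hlt' : (p : ℝ) < p0 := hlt
  have hp1 : (p : ℝ) ≤ 1 := p.2.2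
  have hp0 : (0 : ℝ) ≤ p := p.2.1
  set l : ℝ := min (1 / 2) (((p0 : ℝ) - p) / 2) with hl
  have hl0 : 0 < l := lt_min (by norm_num) (by linarith)
  have hl1 : l ≤ 1 / 2 := min_le_left _ _
  have hl2 : l ≤ ((p0 : ℝ) - p) / 2 := min_le_right _ _
  have hp : (p : ℝ) * (1 + 2 * l) ≤ p0 := by nlinarith
  have hF := mono_good (G := G) T.locallyFinite he v t
  obtain ⟨J, hJ⟩ := mono_dep (G := G) T.locallyFinite e v t
  have h1 : ∫ ω, Real.exp (-(l * monoF G e v t ω)) ∂(law K p) ≤
      Real.exp (-(l * ∫ ω, monoF G e v t ω ∂(law K p0))) :=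
    decouple ((walkLaw K).prod (Measure.infinitePi fun _ : ℕ => (volume : Measure I)))
      hl0.le hl1 hp J (monoF G e v t) hF hJ
  have hint : Integrable (fun ω => monoF G e v t ω) (law K p) :=
    Integrable.of_bound hF.meas.aestronglyMeasurable 1 (ae_of_all _ fun ω => by
      have := monoF_bdd (G := G) e v t ω
      rw [Real.norm_eq_abs, abs_le]
      constructor <;> linarith)
  have hint2 : Integrable (fun ω => -(l * monoF G e v t ω)) (law K p) :=
    (hint.const_mul l).neg
  have hexp : Integrable (fun ω => Real.exp (-(l * monoF G e v t ω))) (law K p) :=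
    Integrable.of_bound (Real.measurable_exp.comp (hF.meas.const_mul l).neg).aestronglyMeasurable
      (Real.exp l) (ae_of_all _ fun ω => by
        have := monoF_bdd (G := G) e v t ω
        rw [Real.norm_eq_abs, abs_of_pos (Real.exp_pos _)]
        refine Real.exp_le_exp.mpr ?_
        nlinarith)
  have h2 : Real.exp (-(l * ∫ ω, monoF G e v t ω ∂(law K p))) ≤
      ∫ ω, Real.exp (-(l * monoF G e v t ω)) ∂(law K p) := by
    have h3 := convexOn_exp.map_integral_le (μ := law K p)
      (f := fun ω => -(l * monoF G e v t ω)) Real.continuous_exp.continuousOn isClosed_univ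
      (ae_of_all _ fun _ => mem_univ _) hint2 hexp
    rw [integral_neg, integral_const_mul] at h3
    exact h3
  have h4 := Real.exp_le_exp.mp (h2.trans h1)
  rw [mono_integral T e p v t, mono_integral T e p0 v t] at h4
  nlinarith

end Pool.Agent.Lib.PkQ
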