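import Pool.Agent.Lib.PkQ.Mass
import Pool.Agent.Lib.PkQ.Mono

/-!
# Conc: the weighted number of free spots is concentrated from below

PROOF (compare `prob_no_spot_le`, Internal.lean). `e : V → ℕ` injective. Let
`F ω = ∑ z ∈ S, (if z ∈ (istate G e ω t).spots then w z / W else 0)`; `0 ≤ w z / W ≤ 1` on `S`.
`wsum_disc`: if `Disc s s'` then `∑ w 1_{s'.spots} ≤ ∑ w 1_{s.spots} ≤ ∑ w 1_{s'.spots} + W` (`s'.spots ⊆ s.spots`,
and the difference is at most one point). `Good F`: as `good_cnt` / `cnt_car_spot` (two `Disc` steps, so a spot turned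
into a car lowers `F` by at most 2), `spot` by `istate_spot_congr`, measurable by `measurable_istate`, bounded by
`∑ w z / W`; `DependsOn` as in `cnt_dependsOn`.
Let `p0 = p + q ≤ 1`, `l = q ≤ 1/2`: `p (1 + 2 q) ≤ p + q = p0` as `p ≤ 1/2`. `decouple`:
`E_p exp (-(q F)) ≤ exp (-(q E_{p0} F))`, and `E_{p0} F = ∑ (w z / W) P_{p0}(z ∈ spots_t) ≥
(∑ w / W) (1 - 2 p0 + ucar K p0 o t) ≥ (∑ w / W) (1 - 2p - 2q + ucar K p o t)` (`prob_spots_ge'`, `ucar_eq`,
`ucar_mono`, `istate = state` a.s.). Markov: on the event `F ≤ (∑ w / W) (1 - 2p + ucar - 3q) =: x`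
(`istate = state` a.s.) we have `1 ≤ exp (q x) exp (-(q F))`, so
`P ≤ exp (q x) exp (-(q E_{p0} F)) ≤ exp (-(q² ∑ w / W))`.
-/

open MeasureTheory Set Function
open scoped ENNReal unitInterval

namespace Pool.Agent.Lib.PkQ

open Pool.Agent.Lib.MP_971c94_pr

open Classical in
theorem wsum_disc {V : Type*} {s s' : State V} (h : Disc s s') (S : Finset V) {w : V → ℝ}
    (hw : ∀ z, 0 ≤ w z) {W : ℝ} (hW : ∀ z ∈ S, w z ≤ W) (hW0 : 0 ≤ W) :
    (∑ z ∈ S, if z ∈ s'.spots then w z else 0) ≤ (∑ z ∈ S, if z ∈ s.spots then w z else 0) ∧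
    (∑ z ∈ S, if z ∈ s.spots then w z else 0) ≤
      (∑ z ∈ S, if z ∈ s'.spots then w z else 0) + W := by
  refine ⟨Finset.sum_le_sum fun z _ => ?_, ?_⟩
  · by_cases h' : z ∈ s'.spots
    · rw [if_pos h', if_pos (h.spots_subset h')]
    · rw [if_neg h']
      split_ifs
      · exact hw z
      · exact le_rfl
  · rcases h with ⟨c, hc, rfl⟩ | ⟨v, hv, rfl⟩
    · exact le_add_of_nonneg_right hW0
    · have h1 : ∀ z ∈ S, (if z ∈ s.spots then w z else 0) ≤
          (if z ∈ (⟨s.cars, s.spots \ {v}⟩ : State V).spots then w z else 0) +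
            (if z = v then W else 0) := by
        intro z hz
        by_cases hzv : z = v
        · rw [if_pos hzv]
          have h2 : (if z ∈ s.spots then w z else 0) ≤ W := by
            split_ifs
            · exact hW z hz
            · exact hW0
          have h3 : 0 ≤ (if z ∈ (⟨s.cars, s.spots \ {v}⟩ : State V).spots then w z else 0) := by
            split_ifs
            · exact hw z
            · exact le_rfl
          linarith
        · rw [if_neg hzv, add_zero]
          by_cases hzs : z ∈ s.spots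
          · rw [if_pos hzs, if_pos (show z ∈ s.spots \ {v} from ⟨hzs, hzv⟩)]
          · rw [if_neg hzs]
            split_ifs
            · exact hw z
            · exact le_rfl
      refine (Finset.sum_le_sum h1).trans ?_
      rw [Finset.sum_add_distrib, Finset.sum_ite_eq']
      refine add_le_add (le_of_eq (Finset.sum_congr rfl fun z _ => by congr)) ?_
      split_ifs
      · exact le_rfl
      · exact hW0

section Aux

variable {V : Type*}

open Classical in
/-- the weighted number of free spots of the internal process -/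
private noncomputable def Conc_F (G : SimpleGraph V) (e : V → ℕ) (S : Finset V) (w : V → ℝ)
    (t : ℕ) (ω : V → Site V) : ℝ :=
  ∑ z ∈ S, if z ∈ (istate G e ω t).spots then w z else 0

private theorem Conc_nonneg (G : SimpleGraph V) (e : V → ℕ) (S : Finset V) {w : V → ℝ}
    (hw : ∀ z, 0 ≤ w z) (t : ℕ) (ω : V → Site V) : 0 ≤ Conc_F G e S w t ω := by
  refine Finset.sum_nonneg fun z _ => ?_
  split_ifs
  · exact hw z
  · exact le_rfl

private theorem Conc_le (G : SimpleGraph V) (e : V → ℕ) (S : Finset V) {w : V → ℝ}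
    (hw : ∀ z, 0 ≤ w z) (t : ℕ) (ω : V → Site V) :
    Conc_F G e S w t ω ≤ ∑ z ∈ S, w z := by
  refine Finset.sum_le_sum fun z _ => ?_
  split_ifs
  · exact le_rfl
  · exact hw z

private theorem Conc_car_spot [DecidableEq V] {G : SimpleGraph V}
    (hG : ∀ v, (G.neighborSet v).Finite) {e : V → ℕ}
    (he : Injective e) (S : Finset V) {w : V → ℝ} (hw : ∀ z, 0 ≤ w z)
    (hw1 : ∀ z ∈ S, w z ≤ 1) (t : ℕ) (ω : V → Site V) (i : V)
    (d d' : (ℕ × V → V) × (ℕ → I)) :
    Conc_F G e S w t (update ω i (true, d')) ≤ Conc_F G e S w t (update ω i (false, d)) ∧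
    Conc_F G e S w t (update ω i (false, d)) - 2 ≤ Conc_F G e S w t (update ω i (true, d')) := by
  classical
  have h1 : Disc (istate G e (update ω i (false, d)) t)
      (ievo G e (update ω i (false, d)) (neutral (update ω i (false, d)) i) t) :=
    (disc_spot (ω := update ω i (false, d)) (i := i) (by rw [update_self])).evo
      (lexBeats_total he _) (ievo_finite hG _) t
  have h2 : Disc (ievo G e (update ω i (true, d')) (neutral (update ω i (true, d')) i) t)
      (istate G e (update ω i (true, d')) t) :=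
    (disc_car (ω := update ω i (true, d')) (i := i) (by rw [update_self])).evo
      (lexBeats_total he _) (ievo_finite hG _) t
  rw [neutral_update] at h1 h2
  rw [ievo_neutral_congr ω i (false, d) (true, d')] at h1
  obtain ⟨a1, b1⟩ := wsum_disc h1 S hw hw1 zero_le_one
  obtain ⟨a2, b2⟩ := wsum_disc h2 S hw hw1 zero_le_one
  unfold Conc_F
  constructor
  · exact a2.trans a1
  · linarith

private theorem Conc_dependsOn {G : SimpleGraph V} (hG : ∀ v, (G.neighborSet v).Finite)
    (e : V → ℕ) (S : Finset V) (w : V → ℝ) (t : ℕ) :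
    ∃ J : Finset V, DependsOn (Conc_F G e S w t) (J : Set V) := by
  classical
  have h := (istate_FD hG e t).2
  choose J hJ using h
  refine ⟨S.biUnion J, fun x y hxy => ?_⟩
  unfold Conc_F
  refine Finset.sum_congr rfl fun v hv => ?_
  have := hJ v (x := x) (y := y) fun j hj => hxy j (by
    rw [Finset.mem_coe, Finset.mem_biUnion]
    exact ⟨v, hv, hj⟩)
  simp only [eq_iff_iff] at this
  by_cases h1 : v ∈ (istate G e x t).spots
  · rw [if_pos h1, if_pos (this.1 h1)]
  · rw [if_neg h1, if_neg (fun h2 => h1 (this.2 h2))]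

variable [MeasurableSpace V] [DiscreteMeasurableSpace V]

private theorem Conc_meas [Countable V] (G : SimpleGraph V) (e : V → ℕ) (S : Finset V)
    (w : V → ℝ) (t : ℕ) : Measurable (Conc_F G e S w t) := by
  classical
  unfold Conc_F
  refine Finset.measurable_sum _ fun v _ => ?_
  exact Measurable.ite (measurableSet_setOfPred.mpr ((measurable_istate G e t).2 v))
    measurable_const measurable_const

private theorem Conc_good [Countable V] [DecidableEq V] {G : SimpleGraph V}
    (hG : ∀ v, (G.neighborSet v).Finite) {e : V → ℕ} (he : Injective e) (S : Finset V)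
    {w : V → ℝ} (hw : ∀ z, 0 ≤ w z) (hw1 : ∀ z ∈ S, w z ≤ 1) (t : ℕ) :
    Good (Conc_F G e S w t) where
  meas := Conc_meas G e S w t
  bdd := ⟨∑ z ∈ S, w z, fun ω => by
    rw [abs_of_nonneg (Conc_nonneg G e S hw t ω)]; exact Conc_le G e S hw t ω⟩
  spot ω i d d' := by
    unfold Conc_F
    rw [istate_spot_congr ω i d d' t]
  car_ge ω i d d' := (Conc_car_spot hG he S hw hw1 t ω i d d').2
  car_le ω i d d' := (Conc_car_spot hG he S hw hw1 t ω i d d').1

end Aux

variable {V : Type*} [MeasurableSpace V] [DiscreteMeasurableSpace V] {G : SimpleGraph V}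
  {K : V → PMF V} {Γ : Subgroup (G ≃g G)}

private theorem Conc_int [Countable V] (T : IsTriple G K Γ) (p : I) (e : V → ℕ) (t : ℕ)
    (S : Finset V) (w : V → ℝ) :
    ∫ ω, Conc_F G e S w t ω ∂(law K p) =
      ∑ z ∈ S, w z * (law K p).real {ω | z ∈ (state ω t).spots} := by
  classical
  have hms : ∀ v, MeasurableSet {ω' : V → Site V | v ∈ (istate G e ω' t).spots} := fun v =>
    measurableSet_setOfPred.mpr ((measurable_istate G e t).2 v)
  have hF : ∀ ω, Conc_F G e S w t ω = ∑ v ∈ S,
      w v * {ω' : V → Site V | v ∈ (istate G e ω' t).spots}.indicator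
        (1 : (V → Site V) → ℝ) ω := by
    intro ω
    unfold Conc_F
    refine Finset.sum_congr rfl fun v _ => ?_
    by_cases h : v ∈ (istate G e ω t).spots
    · rw [if_pos h, indicator_of_mem (by exact h), Pi.one_apply, mul_one]
    · rw [if_neg h, indicator_of_notMem (by exact h), mul_zero]
  simp_rw [hF]
  have hint : ∀ v, Integrable (fun ω => w v *
      {ω' : V → Site V | v ∈ (istate G e ω' t).spots}.indicator
      (1 : (V → Site V) → ℝ) ω) (law K p) := fun v =>
    ((integrable_const (1 : ℝ)).indicator (hms v)).const_mul _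
  rw [integral_finsetSum _ fun v _ => hint v]
  refine Finset.sum_congr rfl fun v _ => ?_
  rw [integral_const_mul, integral_indicator_one (hms v)]
  congr 1
  refine measureReal_congr ?_
  filter_upwards [nice_ae T.supported p] with ω hω
  simp only [eq_iff_iff]
  change v ∈ (istate G e ω t).spots ↔ v ∈ (state ω t).spots
  rw [istate_eq e hω t]

open Classical in
theorem conc (T : IsTriple G K Γ) {p : I} (hp : (p : ℝ) ≤ 1 / 2) (t : ℕ) (S : Finset V)
    (w : V → ℝ) (hw : ∀ z, 0 ≤ w z) {W : ℝ} (hW : 0 < W) (hwW : ∀ z ∈ S, w z ≤ W)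
    {q : ℝ} (hq : 0 ≤ q) (hq2 : q ≤ 1 / 2) (o : V) :
    (law K p).real {ω | (∑ z ∈ S, if z ∈ (state ω t).spots then w z else 0) ≤
        (∑ z ∈ S, w z) * (1 - 2 * (p : ℝ) + ucar K p o t - 3 * q)} ≤
      Real.exp (-(q ^ 2 * (∑ z ∈ S, w z) / W)) := by
  have : Countable V := T.countable
  obtain ⟨e, he⟩ := exists_injective_nat V
  set w' : V → ℝ := fun z => w z / W with hw'def
  have hw' : ∀ z, 0 ≤ w' z := fun z => div_nonneg (hw z) hW.le
  have hw1 : ∀ z ∈ S, w' z ≤ 1 := fun z hz => (div_le_one hW).2 (hwW z hz)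
  have hp0 : 0 ≤ (p : ℝ) := p.2.1
  set p0 : I := ⟨(p : ℝ) + q, by constructor <;> linarith⟩ with hp0def
  have hp0val : (p0 : ℝ) = (p : ℝ) + q := rfl
  have hpp : (p : ℝ) * (1 + 2 * q) ≤ p0 := by
    rw [hp0val]; nlinarith
  have hle : p ≤ p0 := by
    rw [← Subtype.coe_le_coe, hp0val]; linarith
  obtain ⟨J, hJ⟩ := Conc_dependsOn T.locallyFinite e S w' t
  have hgood := Conc_good T.locallyFinite he S hw' hw1 t
  have hdec : ∫ ω, Real.exp (-(q * Conc_F G e S w' t ω)) ∂(law K p) ≤
      Real.exp (-(q * ∫ ω, Conc_F G e S w' t ω ∂(law K p0))) :=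
    decouple _ hq hq2 hpp J (Conc_F G e S w' t) hgood hJ
  set A : ℝ := ∑ z ∈ S, w' z with hA
  have hA' : A = (∑ z ∈ S, w z) / W := by
    rw [hA, Finset.sum_div]
  set u : ℝ := ucar K p o t with hu
  have hmean : A * (1 - 2 * (p : ℝ) - 2 * q + u) ≤
      ∫ ω, Conc_F G e S w' t ω ∂(law K p0) := by
    rw [Conc_int T p0 e t S w', hA, Finset.sum_mul]
    refine Finset.sum_le_sum fun z _ => mul_le_mul_of_nonneg_left ?_ (hw' z)
    have h1 := prob_spots_ge' T p0 z t
    have h2 := ucar_mono T hle z t
    have h3 := ucar_eq T p z o t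
    rw [hp0val] at h1
    rw [h3] at h2
    linarith
  set x : ℝ := A * (1 - 2 * (p : ℝ) + u - 3 * q) with hx
  have hev : (law K p).real {ω | (∑ z ∈ S, if z ∈ (state ω t).spots then w z else 0) ≤
        (∑ z ∈ S, w z) * (1 - 2 * (p : ℝ) + u - 3 * q)} =
      (law K p).real {ω | Conc_F G e S w' t ω ≤ x} := by
    refine measureReal_congr ?_
    filter_upwards [nice_ae T.supported p] with ω hω
    simp only [eq_iff_iff]
    change ((∑ z ∈ S, if z ∈ (state ω t).spots then w z else 0) ≤
        (∑ z ∈ S, w z) * (1 - 2 * (p : ℝ) + u - 3 * q)) ↔ Conc_F G e S w' t ω ≤ x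
    have h1 : Conc_F G e S w' t ω =
        (∑ z ∈ S, if z ∈ (state ω t).spots then w z else 0) / W := by
      unfold Conc_F
      rw [istate_eq e hω t, Finset.sum_div]
      refine Finset.sum_congr rfl fun z _ => ?_
      split_ifs
      · rfl
      · rw [zero_div]
    rw [h1, hx, hA', div_mul_eq_mul_div]
    exact (div_le_div_iff_of_pos_right hW).symm
  rw [hev]
  have hms : MeasurableSet {ω : V → Site V | Conc_F G e S w' t ω ≤ x} :=
    measurableSet_le (Conc_meas G e S w' t) measurable_const
  have hexpint : Integrable (fun ω => Real.exp (-(q * Conc_F G e S w' t ω))) (law K p) := by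
    refine Integrable.of_bound (C := 1) ?_ (ae_of_all _ fun ω => ?_)
    · exact (Real.measurable_exp.comp
        ((Conc_meas G e S w' t).const_mul q).neg).aestronglyMeasurable
    · rw [Real.norm_eq_abs, abs_of_pos (Real.exp_pos _), Real.exp_le_one_iff]
      have := mul_nonneg hq (Conc_nonneg G e S hw' t ω)
      linarith
  calc (law K p).real {ω | Conc_F G e S w' t ω ≤ x}
      = ∫ ω, {ω | Conc_F G e S w' t ω ≤ x}.indicator
          (1 : (V → Site V) → ℝ) ω ∂(law K p) := (integral_indicator_one hms).symm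
    _ ≤ ∫ ω, Real.exp (q * x) * Real.exp (-(q * Conc_F G e S w' t ω)) ∂(law K p) := by
        refine integral_mono ((integrable_const (1 : ℝ)).indicator hms)
          (hexpint.const_mul _) fun ω => ?_
        by_cases h : ω ∈ {ω : V → Site V | Conc_F G e S w' t ω ≤ x}
        · rw [indicator_of_mem h, Pi.one_apply, ← Real.exp_add]
          refine Real.one_le_exp ?_
          have h1 : Conc_F G e S w' t ω ≤ x := h
          have := mul_le_mul_of_nonneg_left h1 hq
          linarith
        · rw [indicator_of_notMem h]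
          positivity
    _ = Real.exp (q * x) * ∫ ω, Real.exp (-(q * Conc_F G e S w' t ω)) ∂(law K p) :=
        integral_const_mul _ _
    _ ≤ Real.exp (q * x) * Real.exp (-(q * ∫ ω, Conc_F G e S w' t ω ∂(law K p0))) := by
        gcongr
    _ ≤ Real.exp (-(q ^ 2 * (∑ z ∈ S, w z) / W)) := by
        rw [← Real.exp_add]
        refine Real.exp_le_exp.mpr ?_
        have h3 := mul_le_mul_of_nonneg_left hmean hq
        have h4 : q ^ 2 * (∑ z ∈ S, w z) / W = q ^ 2 * A := by rw [hA', mul_div_assoc]
        rw [h4, hx]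
        nlinarith

end Pool.Agent.Lib.PkQ
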