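import Pool.Agent.Lib.PkQ.Green

/-!
# Init: the expectation of the supermartingale at time zero

PROOF. `lintegral_prod_coord`: induction on `N`; for `insert x N` use `lintegral_update` (coordinate `x`) on
`F ω = f x (ω x) * ∏ y ∈ N, f y (ω y)`; `update ω x c` does not change the factors of `N`; `lintegral_mul_const`.
(The law is `Measure.infinitePi fun _ => siteLaw K p`.)
`lintegral_Phi_zero`: at `s = 0`: `Quiet v 0 ω` is true, the exponential is `exp 0 = 1`, `(state ω 0) = initial ω`,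
`pos ω c 0 = c`; so `Phi = ∏ x ∈ N, (if (ω x).1 = true then fac T x else (fac T x)⁻¹)` (a vertex is a car or a spot:
`Finset.prod_mul_distrib`), and `∫⁻ c, (if c.1 = true then A else B) ∂(siteLaw K p) = ofReal p * A + ofReal (1-p) * B`
(`siteLaw` is a product, `(mp_car K p).lintegral_comp`, `carLaw`: `lintegral_add_measure`, `lintegral_smul_measure`,
`lintegral_dirac`).
`factor_le`: `b = a * gr K v n x ∈ [0, 1/2]`: `p (1-b) + (1-p)/(1-b) ≤ 1 + (1-2p) b + 2 b² ≤ exp ((1-2p) b + 2 b²)`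
as `1/(1-b) ≤ 1 + b + 2 b²`.
`Phi_zero_le`: multiply over `N`: `∑ b ≤ a T` (`hs1`), `∑ b² ≤ a² S2` (`hs2`), `1 - 2p ≥ 0`.
-/

open MeasureTheory Set Function
open scoped ENNReal unitInterval

namespace Pool.Agent.Lib.PkQ

open Pool.Agent.Lib.MP_971c94_pr

variable {V : Type*} [MeasurableSpace V] [DiscreteMeasurableSpace V] {K : V → PMF V}

theorem lintegral_prod_coord (K : V → PMF V) (p : I) (N : Finset V) (f : V → Site V → ℝ≥0∞)
    (hf : ∀ x, Measurable (f x)) :
    ∫⁻ ω, ∏ x ∈ N, f x (ω x) ∂(law K p) = ∏ x ∈ N, ∫⁻ c, f x c ∂(siteLaw K p) := by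
  classical
  induction N using Finset.induction_on with
  | empty => simp
  | insert x N hx ih =>
    have hm : ∀ M : Finset V, Measurable fun ω : V → Site V => ∏ y ∈ M, f y (ω y) := fun M =>
      Finset.measurable_prod _ fun y _ => (hf y).comp (measurable_pi_apply y)
    rw [Finset.prod_insert hx, ← ih]
    unfold law
    rw [lintegral_update (fun _ : V => siteLaw K p) (hm (insert x N)) x,
      ← lintegral_const_mul _ (hm N)]
    refine lintegral_congr fun ω => ?_
    rw [← lintegral_mul_const _ (hf x)]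
    refine lintegral_congr fun c => ?_
    rw [Finset.prod_insert hx, update_self]
    congr 1
    refine Finset.prod_congr rfl fun y hy => ?_
    have hne : y ≠ x := by
      rintro rfl
      exact hx hy
    rw [update_of_ne hne]

private theorem Init_site (K : V → PMF V) (p : I) (A B : ℝ≥0∞) :
    ∫⁻ c, (if c.1 = true then A else B) ∂(siteLaw K p) =
      ENNReal.ofReal p * A + ENNReal.ofReal (1 - p) * B := by
  have hg : Measurable fun b : Bool => if b = true then A else B := measurable_of_finite _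
  have h := (mp_car K p).lintegral_comp hg
  refine h.trans ?_
  rw [carLaw, lintegral_add_measure, lintegral_smul_measure, lintegral_smul_measure,
    lintegral_dirac' _ hg, lintegral_dirac' _ hg]
  simp

private theorem Init_Phi (K : V → PMF V) (v : V) (a : ℝ) (N : Finset V) (T : ℕ)
    (ω : V → Site V) :
    Phi K v a N T 0 ω = ∏ x ∈ N, (if (ω x).1 = true then fac K v a T x else (fac K v a T x)⁻¹) := by
  classical
  have hq : Quiet v 0 ω := fun r hr => absurd hr (Nat.not_lt_zero r)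
  have hcars : ∀ x, x ∈ (state ω 0).cars ↔ (ω x).1 = true := fun x => Iff.rfl
  have hspots : ∀ x, x ∈ (state ω 0).spots ↔ (ω x).1 = false := fun x => Iff.rfl
  have hpos : ∀ x, pos ω x 0 = x := fun x => rfl
  unfold Phi
  rw [if_pos hq, Finset.range_zero, Finset.sum_empty, mul_zero, Real.exp_zero, ENNReal.ofReal_one,
    one_mul, mul_one, ← Finset.prod_mul_distrib]
  refine Finset.prod_congr rfl fun x _ => ?_
  rw [Nat.sub_zero, hpos]
  by_cases h : (ω x).1 = true
  · have h2 : ¬ (x ∈ (state ω 0).spots) := by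
      rw [hspots, h]
      exact Bool.noConfusion
    rw [if_pos ((hcars x).2 h), if_neg h2, if_pos h, mul_one]
  · have h2 : x ∈ (state ω 0).spots := by
      rw [hspots]
      exact Bool.eq_false_iff.2 h
    rw [if_neg (fun h' => h ((hcars x).1 h')), if_pos h2, if_neg h, one_mul]

theorem lintegral_Phi_zero (K : V → PMF V) (p : I) (v : V) (a : ℝ) (N : Finset V) (T : ℕ) :
    ∫⁻ ω, Phi K v a N T 0 ω ∂(law K p) =
      ∏ x ∈ N, (ENNReal.ofReal p * fac K v a T x + ENNReal.ofReal (1 - p) * (fac K v a T x)⁻¹) := by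
  simp_rw [Init_Phi]
  have hf : ∀ x, Measurable fun c : Site V =>
      if c.1 = true then fac K v a T x else (fac K v a T x)⁻¹ := fun x =>
    (measurable_of_finite (fun b : Bool =>
      if b = true then fac K v a T x else (fac K v a T x)⁻¹)).comp measurable_fst
  rw [lintegral_prod_coord K p N
    (fun x c => if c.1 = true then fac K v a T x else (fac K v a T x)⁻¹) hf]
  exact Finset.prod_congr rfl fun x _ => Init_site K p _ _

private theorem Init_real {p b : ℝ} (hp0 : 0 ≤ p) (hp1 : p ≤ 1) (hb0 : 0 ≤ b) (hb1 : b ≤ 1 / 2) :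
    p * (1 - b) + (1 - p) * (1 - b)⁻¹ ≤ Real.exp ((1 - 2 * p) * b + 2 * b ^ 2) := by
  have h1 : (0 : ℝ) < 1 - b := by linarith
  have h2 : (1 - b)⁻¹ ≤ 1 + b + 2 * b ^ 2 := by
    rw [inv_le_iff_one_le_mul₀ h1]
    nlinarith [mul_nonneg (mul_nonneg hb0 hb0) (by linarith : (0 : ℝ) ≤ 1 - 2 * b)]
  have h3 : (1 - p) * (1 - b)⁻¹ ≤ (1 - p) * (1 + b + 2 * b ^ 2) :=
    mul_le_mul_of_nonneg_left h2 (by linarith)
  have h4 := Real.add_one_le_exp ((1 - 2 * p) * b + 2 * b ^ 2)
  have h5 : 0 ≤ p * b ^ 2 := mul_nonneg hp0 (sq_nonneg b)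
  nlinarith

theorem factor_le {p : I} {v : V} {a : ℝ} (ha : 0 ≤ a)
    (hb : ∀ n x, a * (1 + gr K v n x) ≤ 1 / 2) (n : ℕ) (x : V) :
    ENNReal.ofReal p * fac K v a n x + ENNReal.ofReal (1 - p) * (fac K v a n x)⁻¹ ≤
      ENNReal.ofReal (Real.exp ((1 - 2 * (p : ℝ)) * (a * gr K v n x) + 2 * (a * gr K v n x) ^ 2)) := by
  have hg := gr_nonneg K v n x
  have hb0 : 0 ≤ a * gr K v n x := mul_nonneg ha hg
  have hb1 : a * gr K v n x ≤ 1 / 2 := by
    have := hb n x
    nlinarith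
  have h1 : (0 : ℝ) < 1 - a * gr K v n x := by linarith
  have hp0 : (0 : ℝ) ≤ p := p.2.1
  have hp1 : (p : ℝ) ≤ 1 := p.2.2
  unfold fac
  rw [← ENNReal.ofReal_inv_of_pos h1, ← ENNReal.ofReal_mul hp0,
    ← ENNReal.ofReal_mul (by linarith), ← ENNReal.ofReal_add (mul_nonneg hp0 h1.le)
      (mul_nonneg (by linarith) (inv_nonneg.2 h1.le))]
  exact ENNReal.ofReal_le_ofReal (Init_real hp0 hp1 hb0 hb1)

theorem Phi_zero_le {p : I} (hp : (p : ℝ) ≤ 1 / 2) {v : V} {a : ℝ} (ha : 0 ≤ a)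
    (hb : ∀ n x, a * (1 + gr K v n x) ≤ 1 / 2) (N : Finset V) (T : ℕ) {S2 : ℝ}
    (hs1 : ∑ x ∈ N, gr K v T x ≤ T) (hs2 : ∑ x ∈ N, (gr K v T x) ^ 2 ≤ S2) :
    ∫⁻ ω, Phi K v a N T 0 ω ∂(law K p) ≤
      ENNReal.ofReal (Real.exp ((1 - 2 * (p : ℝ)) * a * T + 2 * a ^ 2 * S2)) := by
  rw [lintegral_Phi_zero]
  refine (Finset.prod_le_prod' fun x _ => factor_le ha hb T x).trans ?_
  rw [← ENNReal.ofReal_prod_of_nonneg (fun x _ => (Real.exp_pos _).le), ← Real.exp_sum]
  refine ENNReal.ofReal_le_ofReal (Real.exp_le_exp.2 ?_)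
  have h1 : ∑ x ∈ N, ((1 - 2 * (p : ℝ)) * (a * gr K v T x) + 2 * (a * gr K v T x) ^ 2) =
      (1 - 2 * (p : ℝ)) * a * ∑ x ∈ N, gr K v T x + 2 * a ^ 2 * ∑ x ∈ N, (gr K v T x) ^ 2 := by
    rw [Finset.sum_add_distrib, Finset.mul_sum, Finset.mul_sum]
    congr 1
    · exact Finset.sum_congr rfl fun x _ => by ring
    · exact Finset.sum_congr rfl fun x _ => by ring
  rw [h1]
  refine add_le_add (mul_le_mul_of_nonneg_left hs1 ?_) (mul_le_mul_of_nonneg_left hs2 ?_)
  · exact mul_nonneg (by linarith) ha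
  · positivity

end Pool.Agent.Lib.PkQ
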