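import Pool.Agent.Lib.PkQ.Kern

/-!
# Cancel: a parking car cancels with its spot

PROOF. Put `C = N.filter (· ∈ (state ω s).cars)`, `C' = N.filter (· ∈ (state ω (s+1)).cars) ⊆ C`, `S`, `S'` similarly for
the spots (`Finset.prod_filter`). `∏ C = ∏ C' * ∏ (C \ C')`, `∏ S = ∏ S' * ∏ (S \ S')` (`Finset.prod_sdiff`). Claim
`∏_{c ∈ C \ C'} φ (pos ω c (s+1)) = ∏_{z ∈ S \ S'} φ z`, by `Finset.prod_bij_ne_one` with `i c = pos ω c (s+1)`:
a car `c` of `C \ C'` has `pos ω c (s+1) ∈ (state ω s).spots` and beats all the cars of that vertex (definition of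
`State.step`); if `φ (pos ω c (s+1)) ≠ 1` the vertex is in `N` (`hN1`) and it is not free any more. Injective: two
winners at one vertex would beat each other. Surjective: if `z ∈ S \ S'`, some unparked car `x` arrives at `z`; the
set of these is finite (`near_finite_left`, `hω.near`), `(hω.total s).exists_winner` gives the winner `c`, and
`c ∈ N` by `hN2` when `φ z ≠ 1` (`hω.near c (s+1)`). Finally `∏ φ z * ∏ (φ z)⁻¹ = 1` over `S \ S'`
(`Finset.prod_mul_distrib`, `ENNReal.mul_inv_cancel`).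
-/

open MeasureTheory Set Function
open scoped ENNReal unitInterval

namespace Pool.Agent.Lib.PkQ

open Pool.Agent.Lib.MP_971c94_pr

variable {V : Type*} {G : SimpleGraph V}

private theorem cancel_mem_cars (ω : V → Site V) (s : ℕ) (c : V) :
    c ∈ (state ω (s + 1)).cars ↔
      c ∈ (state ω s).cars ∧ ¬ ParksAt ω s c (pos ω c (s + 1)) := by
  constructor
  · rintro ⟨h1, h2⟩
    exact ⟨h1, fun h3 => h3.notMem ⟨h1, h2⟩⟩
  · rintro ⟨h1, h2⟩
    refine ⟨h1, fun h3 => h2 ⟨h1, rfl, h3.1, fun y hy hyv hne => h3.2 y hy hyv hne⟩⟩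

private theorem cancel_mem_spots (ω : V → Site V) (s : ℕ) (z : V) :
    z ∈ (state ω (s + 1)).spots ↔
      z ∈ (state ω s).spots ∧ ∀ x ∈ (state ω s).cars, pos ω x (s + 1) ≠ z :=
  Iff.rfl

open Classical in
private theorem cancel_key (hG : ∀ v, (G.neighborSet v).Finite) {ω : V → Site V} (hω : Nice G ω)
    (s : ℕ) (φ : V → ℝ≥0∞) (N : Finset V)
    (hN1 : ∀ z, φ z ≠ 1 → z ∈ N) (hN2 : ∀ x z, Near G (s + 1) x z → φ z ≠ 1 → x ∈ N) :
    ∏ c ∈ (N.filter (· ∈ (state ω s).cars)) \ (N.filter (· ∈ (state ω (s + 1)).cars)),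
        φ (pos ω c (s + 1)) =
      ∏ z ∈ (N.filter (· ∈ (state ω s).spots)) \ (N.filter (· ∈ (state ω (s + 1)).spots)),
        φ z := by
  have hC : ∀ c ∈ (N.filter (· ∈ (state ω s).cars)) \ (N.filter (· ∈ (state ω (s + 1)).cars)),
      ParksAt ω s c (pos ω c (s + 1)) := by
    intro c hc
    rw [Finset.mem_sdiff, Finset.mem_filter, Finset.mem_filter] at hc
    by_contra hcon
    exact hc.2 ⟨hc.1.1, (cancel_mem_cars ω s c).mpr ⟨hc.1.2, hcon⟩⟩
  refine Finset.prod_bij_ne_one (fun c _ _ => pos ω c (s + 1)) ?_ ?_ ?_ ?_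
  · intro c hc hne
    have h := hC c hc
    rw [Finset.mem_sdiff, Finset.mem_filter, Finset.mem_filter]
    refine ⟨⟨hN1 _ hne, h.2.2.1⟩, fun h' => ?_⟩
    exact ((cancel_mem_spots ω s _).mp h'.2).2 c h.1 rfl
  · intro c hc _ d hd _ heq
    have h := hC c hc
    have h' := hC d hd
    by_contra hne
    have h1 := h.2.2.2 d h'.1 heq.symm (Ne.symm hne)
    have h2 := h'.2.2.2 c h.1 heq hne
    exact lt_asymm h1 h2
  · intro z hz hne
    rw [Finset.mem_sdiff, Finset.mem_filter, Finset.mem_filter] at hz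
    have hex : ∃ x ∈ (state ω s).cars, pos ω x (s + 1) = z := by
      by_contra hcon
      push Not at hcon
      exact hz.2 ⟨hz.1.1, (cancel_mem_spots ω s z).mpr ⟨hz.1.2, hcon⟩⟩
    have hfin : {x | x ∈ (state ω s).cars ∧ pos ω x (s + 1) = z}.Finite := by
      refine (near_finite_left hG (s + 1) z).subset fun x hx => ?_
      have := hω.near x (s + 1)
      rw [hx.2] at this
      exact this
    obtain ⟨x, hx, hxz⟩ := hex
    obtain ⟨c, ⟨hc, hcz⟩, hwin⟩ := (hω.total s).exists_winner hfin ⟨x, hx, hxz⟩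
    have hpark : ParksAt ω s c z :=
      ⟨hc, hcz, hz.1.2, fun y hy hyv hyx => hwin y ⟨hy, hyv⟩ hyx⟩
    have hcN : c ∈ N := by
      refine hN2 c z ?_ hne
      have := hω.near c (s + 1)
      rwa [hcz] at this
    refine ⟨c, ?_, ?_, hcz⟩
    · rw [Finset.mem_sdiff, Finset.mem_filter, Finset.mem_filter]
      exact ⟨⟨hcN, hc⟩, fun h => hpark.notMem h.2⟩
    · rw [hcz]
      exact hne
  · intro c _ _
    rfl

open Classical in
theorem cancel (hG : ∀ v, (G.neighborSet v).Finite) {ω : V → Site V} (hω : Nice G ω) (s : ℕ)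
    (φ : V → ℝ≥0∞) (h0 : ∀ z, φ z ≠ 0) (ht : ∀ z, φ z ≠ ⊤) (N : Finset V)
    (hN1 : ∀ z, φ z ≠ 1 → z ∈ N) (hN2 : ∀ x z, Near G (s + 1) x z → φ z ≠ 1 → x ∈ N) :
    (∏ c ∈ N, if c ∈ (state ω (s + 1)).cars then φ (pos ω c (s + 1)) else 1) *
        (∏ z ∈ N, if z ∈ (state ω (s + 1)).spots then (φ z)⁻¹ else 1) =
      (∏ c ∈ N, if c ∈ (state ω s).cars then φ (pos ω c (s + 1)) else 1) *
        (∏ z ∈ N, if z ∈ (state ω s).spots then (φ z)⁻¹ else 1) := by
  have hkey := cancel_key hG hω s φ N hN1 hN2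
  simp only [← Finset.prod_filter]
  have hCsub : N.filter (· ∈ (state ω (s + 1)).cars) ⊆ N.filter (· ∈ (state ω s).cars) := by
    intro c hc
    rw [Finset.mem_filter] at hc ⊢
    exact ⟨hc.1, ((cancel_mem_cars ω s c).mp hc.2).1⟩
  have hSsub : N.filter (· ∈ (state ω (s + 1)).spots) ⊆ N.filter (· ∈ (state ω s).spots) := by
    intro z hz
    rw [Finset.mem_filter] at hz ⊢
    exact ⟨hz.1, ((cancel_mem_spots ω s z).mp hz.2).1⟩
  rw [← Finset.prod_sdiff hCsub, ← Finset.prod_sdiff hSsub, hkey]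
  have hone : (∏ z ∈ (N.filter (· ∈ (state ω s).spots)) \
        (N.filter (· ∈ (state ω (s + 1)).spots)), φ z) *
      (∏ z ∈ (N.filter (· ∈ (state ω s).spots)) \
        (N.filter (· ∈ (state ω (s + 1)).spots)), (φ z)⁻¹) = 1 := by
    rw [← Finset.prod_mul_distrib]
    exact Finset.prod_eq_one fun z _ => ENNReal.mul_inv_cancel (h0 z) (ht z)
  rw [mul_mul_mul_comm, hone, one_mul]

end Pool.Agent.Lib.PkQ
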