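import Pool.Agent.Lib.PkQ.Rep

/-!
# Move: given the past, the cars move independently

PROOF. `lintegral_move_one`: `A ω * h (pos ω c (s+1)) = ∑' u, if pos ω c s = u then A ω * h ((ω c).2.1 (s, u)) else 0`
(`tsum_eq_single`), `lintegral_tsum`; for each `u`, `lintegral_rep` (same `u`); `hfresh`, `pos_rep_of_le` and
`(rep ω c s u y c).2.1 (s, u) = y` turn the integrand into `if pos ω c s = u then A ω * ∑' y, K u y * h y else 0`
(`ENNReal.tsum_mul_left`); sum up again.
`lintegral_move`: induction on `N`, for all `A` (generalize `A`). For `insert c N`, `c ∉ N`: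
`X_c = if c ∈ cars then h (pos c (s+1)) else 1` satisfies `A * X_c = (A 1{c ∈ cars}) * h (pos ω c (s+1)) + A 1{c ∉ cars}`.
`A' = A * ∏_{d ∈ N} X_d` is measurable and `A' (rep ω c s u y) = A' ω` (`c ∉ N`: `pos_rep_of_ne`; `state_rep`):
`lintegral_move_one` needs freshness only for this `c`. So `X_c` may be replaced by `Y_c`; then apply the induction
hypothesis to `A * Y_c`, which is fresh for all cars. Measurability: `measurable_state`, `measurable_pos_eq`
(a function of `pos ω c n` is `∑' u, if pos ω c n = u then h u else 0`).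
-/

open MeasureTheory Set Function
open scoped ENNReal unitInterval

namespace Pool.Agent.Lib.PkQ

open Pool.Agent.Lib.MP_971c94_pr

variable {V : Type*} [MeasurableSpace V] [DiscreteMeasurableSpace V] [Countable V] [DecidableEq V]

theorem measurable_comp_pos (h : V → ℝ≥0∞) (c : V) (n : ℕ) :
    Measurable fun ω : V → Site V => h (pos ω c n) := by
  have h1 : Measurable fun ω : V → Site V => pos ω c n :=
    measurable_to_countable' fun x => measurableSet_setOfPred.mpr (measurable_pos_eq c n x)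
  exact (Measurable.of_discrete (f := h)).comp h1

private theorem Move_tsum (c : V) (s : ℕ) (ω : V → Site V) (G : V → ℝ≥0∞) :
    ∑' u, (if pos ω c s = u then G u else 0) = G (pos ω c s) := by
  rw [tsum_eq_single (pos ω c s) (fun u hu => if_neg (Ne.symm hu)), if_pos rfl]

theorem lintegral_move_one (K : V → PMF V) (p : I) {A : (V → Site V) → ℝ≥0∞}
    (hA : Measurable A) (h : V → ℝ≥0∞) (c : V) (s : ℕ)
    (hfresh : ∀ ω u y, A (rep ω c s u y) = A ω) :
    ∫⁻ ω, A ω * h (pos ω c (s + 1)) ∂(law K p) =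
      ∫⁻ ω, A ω * ∑' y, K (pos ω c s) y * h y ∂(law K p) := by
  have hset : ∀ u : V, MeasurableSet {ω : V → Site V | pos ω c s = u} := fun u =>
    measurableSet_setOfPred.mpr (measurable_pos_eq c s u)
  have hcoord : ∀ u : V, Measurable fun ω : V → Site V => h ((ω c).2.1 (s, u)) := fun u => by
    have h1 : Measurable fun ω : V → Site V => (ω c).2.1 (s, u) := by fun_prop
    exact (Measurable.of_discrete (f := h)).comp h1
  have hF : ∀ u : V, Measurable fun ω : V → Site V =>
      if pos ω c s = u then A ω * h ((ω c).2.1 (s, u)) else 0 := fun u =>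
    Measurable.ite (hset u) (hA.mul (hcoord u)) measurable_const
  have hG : ∀ u : V, Measurable fun ω : V → Site V =>
      if pos ω c s = u then A ω * ∑' y, K u y * h y else 0 := fun u =>
    Measurable.ite (hset u) (hA.mul measurable_const) measurable_const
  have e1 : ∀ ω : V → Site V, A ω * h (pos ω c (s + 1)) =
      ∑' u, (if pos ω c s = u then A ω * h ((ω c).2.1 (s, u)) else 0) := fun ω =>
    (Move_tsum c s ω fun u => A ω * h ((ω c).2.1 (s, u))).symm
  have e2 : ∀ ω : V → Site V, A ω * ∑' y, K (pos ω c s) y * h y =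
      ∑' u, (if pos ω c s = u then A ω * ∑' y, K u y * h y else 0) := fun ω =>
    (Move_tsum c s ω fun u => A ω * ∑' y, K u y * h y).symm
  have e3 : ∀ u : V, ∫⁻ ω, (if pos ω c s = u then A ω * h ((ω c).2.1 (s, u)) else 0) ∂(law K p) =
      ∫⁻ ω, (if pos ω c s = u then A ω * ∑' y, K u y * h y else 0) ∂(law K p) := by
    intro u
    rw [lintegral_rep K p (hF u) c s u]
    refine lintegral_congr fun ω => ?_
    have e4 : ∀ y : V, (if pos (rep ω c s u y) c s = u then
        A (rep ω c s u y) * h ((rep ω c s u y c).2.1 (s, u)) else 0) =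
        if pos ω c s = u then A ω * h y else 0 := by
      intro y
      rw [pos_rep_of_le ω c s u y c le_rfl, hfresh ω u y]
      have e5 : (rep ω c s u y c).2.1 (s, u) = y := by
        unfold rep
        rw [update_self]
        exact update_self _ _ _
      rw [e5]
    have e6 : ∑' y, K u y * (if pos (rep ω c s u y) c s = u then
        A (rep ω c s u y) * h ((rep ω c s u y c).2.1 (s, u)) else 0) =
        ∑' y, K u y * (if pos ω c s = u then A ω * h y else 0) :=
      tsum_congr fun y => by rw [e4 y]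
    refine e6.trans ?_
    by_cases hu : pos ω c s = u
    · rw [if_pos hu, ← ENNReal.tsum_mul_left]
      refine tsum_congr fun y => ?_
      rw [if_pos hu]
      ring
    · rw [if_neg hu]
      refine ENNReal.tsum_eq_zero.2 fun y => ?_
      rw [if_neg hu, mul_zero]
  calc ∫⁻ ω, A ω * h (pos ω c (s + 1)) ∂(law K p)
      = ∫⁻ ω, ∑' u, (if pos ω c s = u then A ω * h ((ω c).2.1 (s, u)) else 0) ∂(law K p) :=
        lintegral_congr e1
    _ = ∑' u, ∫⁻ ω, (if pos ω c s = u then A ω * h ((ω c).2.1 (s, u)) else 0) ∂(law K p) :=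
        lintegral_tsum fun u => (hF u).aemeasurable
    _ = ∑' u, ∫⁻ ω, (if pos ω c s = u then A ω * ∑' y, K u y * h y else 0) ∂(law K p) :=
        tsum_congr e3
    _ = ∫⁻ ω, ∑' u, (if pos ω c s = u then A ω * ∑' y, K u y * h y else 0) ∂(law K p) :=
        (lintegral_tsum fun u => (hG u).aemeasurable).symm
    _ = ∫⁻ ω, A ω * ∑' y, K (pos ω c s) y * h y ∂(law K p) :=
        lintegral_congr fun ω => (e2 ω).symm

open Classical in
private noncomputable def Move_Z (h : V → ℝ≥0∞) (s n : ℕ) (c : V) (ω : V → Site V) : ℝ≥0∞ :=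
  if c ∈ (state ω s).cars then h (pos ω c n) else 1

omit [DecidableEq V] in
private theorem Move_Z_meas (h : V → ℝ≥0∞) (s n : ℕ) (c : V) : Measurable (Move_Z h s n c) := by
  classical
  exact Measurable.ite (measurableSet_setOfPred.mpr ((measurable_state s).1 c))
    (measurable_comp_pos h c n) measurable_const

omit [MeasurableSpace V] [DiscreteMeasurableSpace V] [Countable V] in
private theorem Move_Z_le (h : V → ℝ≥0∞) (s : ℕ) (c c' : V) (ω : V → Site V) (u y : V) :
    Move_Z h s s c (rep ω c' s u y) = Move_Z h s s c ω := by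
  unfold Move_Z
  rw [state_rep ω c' s u y le_rfl, pos_rep_of_le ω c' s u y c le_rfl]

omit [MeasurableSpace V] [DiscreteMeasurableSpace V] [Countable V] in
private theorem Move_Z_ne (h : V → ℝ≥0∞) (s n : ℕ) {c c' : V} (hc : c ≠ c') (ω : V → Site V)
    (u y : V) : Move_Z h s n c (rep ω c' s u y) = Move_Z h s n c ω := by
  unfold Move_Z
  rw [state_rep ω c' s u y le_rfl, pos_rep_of_ne ω c' s u y hc n]

private theorem Move_one (K : V → PMF V) (p : I) {A : (V → Site V) → ℝ≥0∞}
    (hA : Measurable A) (h : V → ℝ≥0∞) (c : V) (s : ℕ)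
    (hfresh : ∀ ω u y, A (rep ω c s u y) = A ω) :
    ∫⁻ ω, A ω * Move_Z h s (s + 1) c ω ∂(law K p) =
      ∫⁻ ω, A ω * Move_Z (fun u => ∑' y, K u y * h y) s s c ω ∂(law K p) := by
  classical
  obtain ⟨I1, hI1⟩ : ∃ I1 : (V → Site V) → ℝ≥0∞,
      I1 = fun ω => if c ∈ (state ω s).cars then 1 else 0 := ⟨_, rfl⟩
  obtain ⟨I0, hI0⟩ : ∃ I0 : (V → Site V) → ℝ≥0∞,
      I0 = fun ω => if c ∈ (state ω s).cars then 0 else 1 := ⟨_, rfl⟩
  have hset : MeasurableSet {ω : V → Site V | c ∈ (state ω s).cars} :=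
    measurableSet_setOfPred.mpr ((measurable_state s).1 c)
  have m1 : Measurable I1 := by
    rw [hI1]
    exact Measurable.ite hset measurable_const measurable_const
  have m0 : Measurable I0 := by
    rw [hI0]
    exact Measurable.ite hset measurable_const measurable_const
  have key : ∀ (g : V → ℝ≥0∞) (n : ℕ) (ω : V → Site V),
      A ω * Move_Z g s n c ω = A ω * I1 ω * g (pos ω c n) + A ω * I0 ω := by
    intro g n ω
    rw [hI1, hI0]
    unfold Move_Z
    by_cases hc : c ∈ (state ω s).cars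
    · simp only [if_pos hc, mul_one, mul_zero, add_zero]
    · simp only [if_neg hc, mul_one, mul_zero, zero_mul, zero_add]
  have hf1 : ∀ ω u y, A (rep ω c s u y) * I1 (rep ω c s u y) = A ω * I1 ω := by
    intro ω u y
    rw [hfresh ω u y, hI1]
    simp only [state_rep ω c s u y le_rfl]
  have e1 : ∫⁻ ω, A ω * Move_Z h s (s + 1) c ω ∂(law K p) =
      ∫⁻ ω, (A ω * I1 ω * h (pos ω c (s + 1)) + A ω * I0 ω) ∂(law K p) :=
    lintegral_congr fun ω => key h (s + 1) ω
  have e2 : ∫⁻ ω, A ω * Move_Z (fun u => ∑' y, K u y * h y) s s c ω ∂(law K p) =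
      ∫⁻ ω, (A ω * I1 ω * (∑' y, K (pos ω c s) y * h y) + A ω * I0 ω) ∂(law K p) :=
    lintegral_congr fun ω => key (fun u => ∑' y, K u y * h y) s ω
  have m2 : Measurable fun ω => A ω * I0 ω := hA.mul m0
  have m3 : Measurable fun ω => A ω * I1 ω := hA.mul m1
  have e3 : ∫⁻ ω, (A ω * I1 ω * h (pos ω c (s + 1)) + A ω * I0 ω) ∂(law K p) =
      ∫⁻ ω, A ω * I1 ω * h (pos ω c (s + 1)) ∂(law K p) + ∫⁻ ω, A ω * I0 ω ∂(law K p) :=
    lintegral_add_right _ m2
  have e4 : ∫⁻ ω, (A ω * I1 ω * (∑' y, K (pos ω c s) y * h y) + A ω * I0 ω) ∂(law K p) =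
      ∫⁻ ω, A ω * I1 ω * (∑' y, K (pos ω c s) y * h y) ∂(law K p) +
        ∫⁻ ω, A ω * I0 ω ∂(law K p) :=
    lintegral_add_right _ m2
  rw [e1, e2, e3, e4]
  congr 1
  exact lintegral_move_one K p m3 h c s hf1

private theorem Move_all (K : V → PMF V) (p : I) (h : V → ℝ≥0∞) (s : ℕ) (N : Finset V) :
    ∀ {A : (V → Site V) → ℝ≥0∞}, Measurable A → (∀ c ω u y, A (rep ω c s u y) = A ω) →
    ∫⁻ ω, A ω * ∏ c ∈ N, Move_Z h s (s + 1) c ω ∂(law K p) =
      ∫⁻ ω, A ω * ∏ c ∈ N, Move_Z (fun u => ∑' y, K u y * h y) s s c ω ∂(law K p) := by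
  induction N using Finset.induction_on with
  | empty =>
    intro A _ _
    simp only [Finset.prod_empty]
  | insert c N hc ih =>
    intro A hA hfresh
    have hA' : Measurable fun ω => A ω * ∏ d ∈ N, Move_Z h s (s + 1) d ω :=
      hA.mul (Finset.measurable_prod N fun d _ => Move_Z_meas h s (s + 1) d)
    have hf' : ∀ ω u y, (fun ω => A ω * ∏ d ∈ N, Move_Z h s (s + 1) d ω) (rep ω c s u y) =
        (fun ω => A ω * ∏ d ∈ N, Move_Z h s (s + 1) d ω) ω := by
      intro ω u y
      dsimp only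
      rw [hfresh c ω u y]
      congr 1
      refine Finset.prod_congr rfl fun d hd => ?_
      exact Move_Z_ne h s (s + 1) (fun hdc : d = c => hc (hdc ▸ hd)) ω u y
    have h1 := Move_one K p hA' h c s hf'
    have h2 := ih (A := fun ω => A ω * Move_Z (fun u => ∑' y, K u y * h y) s s c ω)
      (hA.mul (Move_Z_meas _ s s c)) (fun c' ω u y => by
        rw [hfresh c' ω u y, Move_Z_le])
    calc ∫⁻ ω, A ω * ∏ d ∈ insert c N, Move_Z h s (s + 1) d ω ∂(law K p)
        = ∫⁻ ω, A ω * (∏ d ∈ N, Move_Z h s (s + 1) d ω) * Move_Z h s (s + 1) c ω ∂(law K p) :=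
          lintegral_congr fun ω => by rw [Finset.prod_insert hc]; ring
      _ = ∫⁻ ω, A ω * (∏ d ∈ N, Move_Z h s (s + 1) d ω) *
            Move_Z (fun u => ∑' y, K u y * h y) s s c ω ∂(law K p) := h1
      _ = ∫⁻ ω, A ω * Move_Z (fun u => ∑' y, K u y * h y) s s c ω *
            ∏ d ∈ N, Move_Z h s (s + 1) d ω ∂(law K p) :=
          lintegral_congr fun ω => by ring
      _ = ∫⁻ ω, A ω * Move_Z (fun u => ∑' y, K u y * h y) s s c ω *
            ∏ d ∈ N, Move_Z (fun u => ∑' y, K u y * h y) s s d ω ∂(law K p) := h2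
      _ = _ := lintegral_congr fun ω => by rw [Finset.prod_insert hc]; ring

open Classical in
theorem lintegral_move (K : V → PMF V) (p : I) {A : (V → Site V) → ℝ≥0∞}
    (hA : Measurable A) (h : V → ℝ≥0∞) (s : ℕ) (N : Finset V)
    (hfresh : ∀ c ω u y, A (rep ω c s u y) = A ω) :
    ∫⁻ ω, A ω * ∏ c ∈ N, (if c ∈ (state ω s).cars then h (pos ω c (s + 1)) else 1) ∂(law K p) =
      ∫⁻ ω, A ω * ∏ c ∈ N, (if c ∈ (state ω s).cars then ∑' y, K (pos ω c s) y * h y else 1)
        ∂(law K p) :=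
  Move_all K p h s N hA hfresh

end Pool.Agent.Lib.PkQ
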