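import Pool.Agent.Lib.PkQ.Green
import Pool.Agent.Lib.PkQ.Move
import Pool.Agent.Lib.PkQ.Cancel

/-!
# PhiStep: the supermartingale

PROOF of `lintegral_Phi_succ`. Write `T - s = n + 1` with `n = T - (s + 1)`; `h y = if y = v then 0 else fac K v a n y`,
`A ω = (if Quiet v s ω then 1 else 0) * (∏ z ∈ N, if z ∈ (state ω s).spots then (fac K v a n z)⁻¹ else 1) *
ofReal (exp (a * ∑ r ∈ range (s+1), seen K v N T r ω))`.
(a) `Phi (s+1) ω ≤ A ω * ∏ c ∈ N, (if c ∈ (state ω s).cars then h (pos ω c (s+1)) else 1)` for `Nice G ω`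
(`nice_ae T.supported p`): if `Quiet v (s+1) ω` fails the left side is 0. If it holds, then `Quiet v s ω`, and for
`c ∈ (state ω s).cars` we have `pos ω c (s+1) ≠ v` (else `Arrives ω s c v`), so `h (pos ω c (s+1)) = fac n (pos ω c (s+1))`,
and `cancel` with `φ = fac K v a n` gives equality. Its hypotheses: `fac_ne_zero`, `fac_ne_top`; `fac_near`: if
`fac n z ≠ 1` then `Near G n z v`, so `Near G T z v` (`near_mono`) and `z ∈ N`; and `Near G (s+1) x z`, `Near G n z v`
give `Near G (s+1+n) x v` (`near_trans`, `s+1+n = T`), so `x ∈ N`.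
(b) `lintegral_move` for `A` (measurable: `measurable_state`, `measurable_arrives`; fresh: `quiet_rep`, `state_rep`,
`seen_rep`, all for times `≤ s`).
(c) pointwise: `∑' y, K (pos ω c s) y * h y ≤ fac (n+1) (pos ω c s)` (`car_step`), and
`(∏ z ∈ N, if z ∈ spots_s then (fac n z)⁻¹ else 1) * ofReal (exp (a * seen K v N T s ω)) ≤
∏ z ∈ N, if z ∈ spots_s then (fac (n+1) z)⁻¹ else 1`, because `exp (a * seen) = ∏ z ∈ N, if z ∈ spots_s then
exp (a * kr (n+1) z v) else 1` (`Real.exp_sum`, `ENNReal.ofReal_prod_of_nonneg`; `T - s = n+1`) and `spot_step`.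
-/

open MeasureTheory Set Function
open scoped ENNReal unitInterval

namespace Pool.Agent.Lib.PkQ

open Pool.Agent.Lib.MP_971c94_pr

variable {V : Type*} [MeasurableSpace V] [DiscreteMeasurableSpace V] {G : SimpleGraph V}
  {K : V → PMF V} {Γ : Subgroup (G ≃g G)}

private theorem PhiStep_quiet [Countable V] (v : V) (s : ℕ) :
    Measurable fun ω : V → Site V => Quiet v s ω := by
  unfold Quiet
  exact Measurable.forall fun r => Measurable.forall fun _ => Measurable.forall fun x =>
    (measurable_arrives r x v).not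

private theorem PhiStep_seen [Countable V] (K : V → PMF V) (v : V) (N : Finset V) (T r : ℕ) :
    Measurable fun ω : V → Site V => seen K v N T r ω := by
  unfold seen
  refine Finset.measurable_sum N fun z _ => ?_
  exact Measurable.ite (measurableSet_setOfPred.mpr ((measurable_state r).2 z))
    measurable_const measurable_const

private theorem PhiStep_exp [Countable V] (K : V → PMF V) (v : V) (a : ℝ) (N : Finset V)
    (T s : ℕ) : Measurable fun ω : V → Site V =>
      ENNReal.ofReal (Real.exp (a * ∑ r ∈ Finset.range s, seen K v N T r ω)) := by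
  refine ENNReal.measurable_ofReal.comp (Real.measurable_exp.comp ?_)
  refine Measurable.const_mul ?_ a
  exact Finset.measurable_sum (Finset.range s) fun r _ => PhiStep_seen K v N T r

open Classical in
private theorem PhiStep_spots [Countable V] (g : V → ℝ≥0∞) (N : Finset V) (s : ℕ) :
    Measurable fun ω : V → Site V => ∏ z ∈ N, if z ∈ (state ω s).spots then g z else 1 := by
  refine Finset.measurable_prod N fun z _ => ?_
  exact Measurable.ite (measurableSet_setOfPred.mpr ((measurable_state s).2 z))
    measurable_const measurable_const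

open Classical in
private theorem PhiStep_ind [Countable V] (v : V) (s : ℕ) :
    Measurable fun ω : V → Site V => (if Quiet v s ω then 1 else 0 : ℝ≥0∞) :=
  Measurable.ite (measurableSet_setOfPred.mpr (PhiStep_quiet v s)) measurable_const
    measurable_const

theorem measurable_Phi [Countable V] (K : V → PMF V) (v : V) (a : ℝ) (N : Finset V) (T s : ℕ) :
    Measurable (Phi K v a N T s) := by
  classical
  unfold Phi
  refine Measurable.mul (Measurable.mul (Measurable.mul ?_ ?_) ?_) ?_
  · exact PhiStep_ind v s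
  · refine Finset.measurable_prod N fun c _ => ?_
    exact Measurable.ite (measurableSet_setOfPred.mpr ((measurable_state s).1 c))
      (measurable_comp_pos (fac K v a (T - s)) c s) measurable_const
  · exact PhiStep_spots (fun z => (fac K v a (T - s) z)⁻¹) N s
  · exact PhiStep_exp K v a N T s

open Classical in
private noncomputable def PhiStep_A (K : V → PMF V) (v : V) (a : ℝ) (N : Finset V) (T s n : ℕ)
    (ω : V → Site V) : ℝ≥0∞ :=
  (if Quiet v s ω then 1 else 0) *
  (∏ z ∈ N, if z ∈ (state ω s).spots then (fac K v a n z)⁻¹ else 1) *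
  ENNReal.ofReal (Real.exp (a * ∑ r ∈ Finset.range (s + 1), seen K v N T r ω))

open Classical in
omit [MeasurableSpace V] [DiscreteMeasurableSpace V] in
private theorem PhiStep_a (hT : IsTriple G K Γ) (v : V) {a : ℝ} (ha : 0 ≤ a)
    (hb : ∀ n x, a * (1 + gr K v n x) ≤ 1 / 2) (N : Finset V) (T s n : ℕ) (hn : T = s + 1 + n)
    (hN : ∀ x, Near G T x v → x ∈ N) {ω : V → Site V} (hω : Nice G ω) :
    Phi K v a N T (s + 1) ω ≤ PhiStep_A K v a N T s n ω *
      ∏ c ∈ N, (if c ∈ (state ω s).cars then
        (if pos ω c (s + 1) = v then 0 else fac K v a n (pos ω c (s + 1))) else 1) := by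
  have hTn : T - (s + 1) = n := by omega
  unfold Phi PhiStep_A
  rw [hTn]
  by_cases hq : Quiet v (s + 1) ω
  · have hq' : Quiet v s ω := fun r hr x => hq r (Nat.lt_succ_of_lt hr) x
    rw [if_pos hq, if_pos hq', one_mul, one_mul]
    have hcan := cancel hT.locallyFinite hω s (fac K v a n) (fac_ne_zero ha hb n)
      (fac_ne_top K v a n) N
      (fun z hz => hN z (near_mono (by omega) (fac_near hT.supported hz)))
      (fun x z hx hz => hN x (by
        rw [hn]
        exact near_trans hx (fac_near hT.supported hz)))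
    rw [hcan]
    have hprod : (∏ c ∈ N, if c ∈ (state ω s).cars then fac K v a n (pos ω c (s + 1)) else 1) =
        ∏ c ∈ N, (if c ∈ (state ω s).cars then
          (if pos ω c (s + 1) = v then 0 else fac K v a n (pos ω c (s + 1))) else 1) := by
      refine Finset.prod_congr rfl fun c _ => ?_
      by_cases hc : c ∈ (state ω s).cars
      · rw [if_pos hc, if_pos hc, if_neg]
        exact fun hcv => hq s (Nat.lt_succ_self s) c ⟨hc, hcv⟩
      · rw [if_neg hc, if_neg hc]
    rw [hprod]
    refine le_of_eq ?_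
    ring
  · rw [if_neg hq]
    simp only [zero_mul]
    exact zero_le

private theorem PhiStep_A_meas [Countable V] (K : V → PMF V) (v : V) (a : ℝ) (N : Finset V)
    (T s n : ℕ) : Measurable (PhiStep_A K v a N T s n) := by
  classical
  unfold PhiStep_A
  refine Measurable.mul (Measurable.mul ?_ ?_) ?_
  · exact PhiStep_ind v s
  · exact PhiStep_spots (fun z => (fac K v a n z)⁻¹) N s
  · exact PhiStep_exp K v a N T (s + 1)

omit [MeasurableSpace V] [DiscreteMeasurableSpace V] in
private theorem PhiStep_A_fresh [DecidableEq V] (K : V → PMF V) (v : V) (a : ℝ) (N : Finset V)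
    (T s n : ℕ) (c : V) (ω : V → Site V) (u y : V) :
    PhiStep_A K v a N T s n (rep ω c s u y) = PhiStep_A K v a N T s n ω := by
  unfold PhiStep_A
  have h1 : Quiet v s (rep ω c s u y) ↔ Quiet v s ω := quiet_rep v ω c s u y
  have h2 : state (rep ω c s u y) s = state ω s := state_rep ω c s u y le_rfl
  have h3 : ∑ r ∈ Finset.range (s + 1), seen K v N T r (rep ω c s u y) =
      ∑ r ∈ Finset.range (s + 1), seen K v N T r ω :=
    Finset.sum_congr rfl fun r hr =>
      seen_rep K v N T ω c s u y (Nat.lt_succ_iff.1 (Finset.mem_range.1 hr))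
  by_cases hq : Quiet v s ω
  · rw [if_pos hq, if_pos (h1.2 hq), h2, h3]
  · rw [if_neg hq, if_neg (fun h => hq (h1.1 h))]
    simp only [zero_mul]

open Classical in
omit [MeasurableSpace V] [DiscreteMeasurableSpace V] in
private theorem PhiStep_c {v : V} {a : ℝ} (ha : 0 ≤ a)
    (hb : ∀ n x, a * (1 + gr K v n x) ≤ 1 / 2) (N : Finset V) (T s n : ℕ) (hn : T = s + 1 + n)
    (ω : V → Site V) :
    PhiStep_A K v a N T s n ω *
      ∏ c ∈ N, (if c ∈ (state ω s).cars then
        ∑' y, K (pos ω c s) y * (if y = v then 0 else fac K v a n y) else 1) ≤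
    Phi K v a N T s ω := by
  have hTn : T - s = n + 1 := by omega
  have h1 : (∏ c ∈ N, (if c ∈ (state ω s).cars then
        ∑' y, K (pos ω c s) y * (if y = v then 0 else fac K v a n y) else 1)) ≤
      ∏ c ∈ N, if c ∈ (state ω s).cars then fac K v a (T - s) (pos ω c s) else 1 := by
    refine Finset.prod_le_prod' fun c _ => ?_
    by_cases hc : c ∈ (state ω s).cars
    · rw [if_pos hc, if_pos hc, hTn]
      exact car_step ha hb n (pos ω c s)
    · rw [if_neg hc, if_neg hc]
  have h2 : ENNReal.ofReal (Real.exp (a * seen K v N T s ω)) =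
      ∏ z ∈ N, if z ∈ (state ω s).spots then
        ENNReal.ofReal (Real.exp (a * kr K (n + 1) z v)) else 1 := by
    have h3 : Real.exp (a * seen K v N T s ω) =
        ∏ z ∈ N, if z ∈ (state ω s).spots then Real.exp (a * kr K (n + 1) z v) else 1 := by
      unfold seen
      rw [Finset.mul_sum, Real.exp_sum]
      refine Finset.prod_congr rfl fun z _ => ?_
      by_cases hz : z ∈ (state ω s).spots
      · rw [if_pos hz, if_pos hz, hTn]
      · rw [if_neg hz, if_neg hz, mul_zero, Real.exp_zero]
    rw [h3, ENNReal.ofReal_prod_of_nonneg]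
    · refine Finset.prod_congr rfl fun z _ => ?_
      by_cases hz : z ∈ (state ω s).spots
      · rw [if_pos hz, if_pos hz]
      · rw [if_neg hz, if_neg hz, ENNReal.ofReal_one]
    · intro z _
      by_cases hz : z ∈ (state ω s).spots
      · rw [if_pos hz]
        exact (Real.exp_pos _).le
      · rw [if_neg hz]
        exact zero_le_one
  have h4 : (∏ z ∈ N, if z ∈ (state ω s).spots then (fac K v a n z)⁻¹ else 1) *
      ENNReal.ofReal (Real.exp (a * seen K v N T s ω)) ≤
      ∏ z ∈ N, if z ∈ (state ω s).spots then (fac K v a (T - s) z)⁻¹ else 1 := by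
    rw [h2, ← Finset.prod_mul_distrib]
    refine Finset.prod_le_prod' fun z _ => ?_
    by_cases hz : z ∈ (state ω s).spots
    · rw [if_pos hz, if_pos hz, if_pos hz, hTn]
      exact spot_step ha hb n z
    · rw [if_neg hz, if_neg hz, if_neg hz, one_mul]
  have h5 : ENNReal.ofReal (Real.exp (a * ∑ r ∈ Finset.range (s + 1), seen K v N T r ω)) =
      ENNReal.ofReal (Real.exp (a * ∑ r ∈ Finset.range s, seen K v N T r ω)) *
        ENNReal.ofReal (Real.exp (a * seen K v N T s ω)) := by
    rw [Finset.sum_range_succ, mul_add, Real.exp_add,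
      ENNReal.ofReal_mul (Real.exp_pos _).le]
  unfold Phi PhiStep_A
  rw [h5]
  calc (if Quiet v s ω then 1 else 0) *
        (∏ z ∈ N, if z ∈ (state ω s).spots then (fac K v a n z)⁻¹ else 1) *
        (ENNReal.ofReal (Real.exp (a * ∑ r ∈ Finset.range s, seen K v N T r ω)) *
          ENNReal.ofReal (Real.exp (a * seen K v N T s ω))) *
        ∏ c ∈ N, (if c ∈ (state ω s).cars then
          ∑' y, K (pos ω c s) y * (if y = v then 0 else fac K v a n y) else 1)
      = (if Quiet v s ω then 1 else 0) *
        (∏ c ∈ N, (if c ∈ (state ω s).cars then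
          ∑' y, K (pos ω c s) y * (if y = v then 0 else fac K v a n y) else 1)) *
        ((∏ z ∈ N, if z ∈ (state ω s).spots then (fac K v a n z)⁻¹ else 1) *
          ENNReal.ofReal (Real.exp (a * seen K v N T s ω))) *
        ENNReal.ofReal (Real.exp (a * ∑ r ∈ Finset.range s, seen K v N T r ω)) := by ring
    _ ≤ _ := by gcongr

theorem lintegral_Phi_succ (hT : IsTriple G K Γ) (p : I) (v : V) {a : ℝ} (ha : 0 ≤ a)
    (hb : ∀ n x, a * (1 + gr K v n x) ≤ 1 / 2) (N : Finset V) (T s : ℕ) (hs : s < T)
    (hN : ∀ x, Near G T x v → x ∈ N) :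
    ∫⁻ ω, Phi K v a N T (s + 1) ω ∂(law K p) ≤ ∫⁻ ω, Phi K v a N T s ω ∂(law K p) := by
  classical
  have : Countable V := hT.countable
  obtain ⟨n, hn⟩ : ∃ n, T = s + 1 + n := ⟨T - (s + 1), by omega⟩
  calc ∫⁻ ω, Phi K v a N T (s + 1) ω ∂(law K p)
      ≤ ∫⁻ ω, PhiStep_A K v a N T s n ω *
          ∏ c ∈ N, (if c ∈ (state ω s).cars then
            (if pos ω c (s + 1) = v then 0 else fac K v a n (pos ω c (s + 1))) else 1)
          ∂(law K p) := by
        refine lintegral_mono_ae ?_
        filter_upwards [nice_ae hT.supported p] with ω hω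
        exact PhiStep_a hT v ha hb N T s n hn hN hω
    _ = ∫⁻ ω, PhiStep_A K v a N T s n ω *
          ∏ c ∈ N, (if c ∈ (state ω s).cars then
            ∑' y, K (pos ω c s) y * (if y = v then 0 else fac K v a n y) else 1)
          ∂(law K p) :=
        lintegral_move K p (PhiStep_A_meas K v a N T s n)
          (fun y => if y = v then 0 else fac K v a n y) s N
          (fun c ω u y => PhiStep_A_fresh K v a N T s n c ω u y)
    _ ≤ ∫⁻ ω, Phi K v a N T s ω ∂(law K p) :=
        lintegral_mono fun ω => PhiStep_c ha hb N T s n hn ω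

open Classical in
/-- `Phi` at the last time is the indicator times the exponential; so this follows from
`lintegral_Phi_succ` by induction (`fac_zero`, `Nat.sub_self`). -/
theorem lintegral_quiet_le (hT : IsTriple G K Γ) (p : I) (v : V) {a : ℝ} (ha : 0 ≤ a)
    (hb : ∀ n x, a * (1 + gr K v n x) ≤ 1 / 2) (N : Finset V) (T : ℕ)
    (hN : ∀ x, Near G T x v → x ∈ N) :
    ∫⁻ ω, (if Quiet v T ω then 1 else 0) *
        ENNReal.ofReal (Real.exp (a * ∑ r ∈ Finset.range T, seen K v N T r ω)) ∂(law K p) ≤
      ∫⁻ ω, Phi K v a N T 0 ω ∂(law K p) := by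
  have h1 : ∀ s, s ≤ T → ∫⁻ ω, Phi K v a N T s ω ∂(law K p) ≤
      ∫⁻ ω, Phi K v a N T 0 ω ∂(law K p) := by
    intro s
    induction s with
    | zero => exact fun _ => le_rfl
    | succ s ih =>
      exact fun hs => (lintegral_Phi_succ hT p v ha hb N T s hs hN).trans (ih (Nat.le_of_lt hs))
  refine le_trans (le_of_eq (lintegral_congr fun ω => ?_)) (h1 T le_rfl)
  unfold Phi
  rw [Nat.sub_self]
  have h2 : (∏ c ∈ N, if c ∈ (state ω T).cars then fac K v a 0 (pos ω c T) else 1) = 1 := by
    refine Finset.prod_eq_one fun c _ => ?_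
    rw [fac_zero, ite_self]
  have h3 : (∏ z ∈ N, if z ∈ (state ω T).spots then (fac K v a 0 z)⁻¹ else 1) = 1 := by
    refine Finset.prod_eq_one fun z _ => ?_
    rw [fac_zero, inv_one, ite_self]
  rw [h2, h3, mul_one, mul_one]

end Pool.Agent.Lib.PkQ
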