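import Pool.Agent.Lib.PkQ.Sums
import Pool.Agent.Lib.PkQ.PhiStep
import Pool.Agent.Lib.PkQ.Init
import Pool.Agent.Lib.PkQ.Conc
import Pool.Agent.Lib.PkQ.Ana

/-!
# Bnd: the logarithmic bound

PROOF. `quiet_of_spot`: if a car arrives at `v` at time `r + 1 ≤ T` then `v ∉ (state ω (r+1)).spots` (definition of
`State.step`), and the free spots decrease (`evo_spots_anti`).
`key`: `T0 = t + r`, `N = {x | Near G T0 x v}` as a finset (`near_finite_left`), `δ = 1 - 2p`, `η = (α-2)/4`.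
For `s < t` put `n = T0 - s ∈ [r+1, r+t]`, `q = qs η n`, `W = C (n+1)^(-α)`, and
`B s = {ω | seen K v N T0 s ω ≤ δ + ucar K p v s - 3 q}`. `conc` with `S = N`, `w z = kr K n z v` (`∑ = 1` by
`sum_kr_col_eq`, as `Near G n z v` implies `Near G T0 z v`) gives `P (B s) ≤ exp (-(q²/W))`.
Off `⋃_{s<t} B s` we have (`seen ≥ 0`) `∑_{s<T0} seen s ≥ ∑_{s<t} seen s ≥ δ t + ∑_{s<t} ucar s - 3 Q`
(`∑_{s<t} qs η (T0-s)` is a sum over a set of distinct indices: `hQ` with the image, or `Finset.sum_range_reflect`).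
So `1_{Quiet v T0} ≤ 1_{Quiet} exp (a ∑_{s<T0} seen s) exp (-a (δ t + ∑ ucar - 3Q)) + ∑_{s<t} 1_{B s}`. Integrate
(`lintegral_quiet_le`, `Phi_zero_le`, `sum_gr_le`):
`P (Quiet) ≤ exp (δ a (t + r) + 2 a² S2 - a (δ t + ∑ ucar - 3 Q)) + ∑ P (B s)`, and `δ ≤ P (v ∈ spots T0) ≤ P (Quiet)`
(`prob_spots_ge'`, `ucar_nonneg`, `quiet_of_spot`). Reindex `∑_{s<t}` by `i = t - 1 - s`, `n = r + 1 + i`.
`log_bound`: `gr_bounded` gives `G0`; `a = 1/(2 (1 + G0))`; `sum_gr_sq_le`, `qs_sum`, `tail` give `S2, Q, C2`;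
`K1 = 2 a² S2 + 3 a Q`; `key` and `tail` (with `r + 1`, and `C2/(r+2) ≤ C2/(r+1)`) give the hypothesis of `final_bound`
for `m t = ∑_{s<t} ucar K p o s` with a fixed `o` (`ucar_eq`: the same for all `v`). `lintegral_visits_eq`,
`ENNReal.tsum_eq_iSup_nat`. `C' = max ((K1 + a (2 C2 + 1))/a) (1/a)`; `log (2/δ) = log (1/(1/2-p)) ≥ 0`.
The constants must not depend on `v`: fix `o`.
-/

open MeasureTheory Set Function
open scoped ENNReal unitInterval

namespace Pool.Agent.Lib.PkQ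

open Pool.Agent.Lib.MP_971c94_pr

theorem quiet_of_spot {V : Type*} {v : V} {T : ℕ} {ω : V → Site V}
    (h : v ∈ (state ω T).spots) : Quiet v T ω := by
  intro r hr x hx
  have h1 : v ∈ (state ω (r + 1)).spots := evo_spots_anti _ _ _ (Nat.succ_le_of_lt hr) h
  exact h1.2 x hx.1 hx.2

variable {V : Type*} [MeasurableSpace V] [DiscreteMeasurableSpace V] {G : SimpleGraph V}
  {K : V → PMF V} {Γ : Subgroup (G ≃g G)}

private theorem Bnd_meas_quiet [Countable V] (v : V) (s : ℕ) :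
    MeasurableSet {ω : V → Site V | Quiet v s ω} := by
  have h : Measurable fun ω : V → Site V => Quiet v s ω := by
    unfold Quiet
    refine Measurable.forall fun r => ?_
    refine Measurable.forall fun _ => ?_
    refine Measurable.forall fun x => ?_
    exact (measurable_arrives r x v).not
  exact measurableSet_setOfPred.mpr h

private theorem Bnd_meas_seen [Countable V] (K : V → PMF V) (v : V) (N : Finset V) (T s : ℕ) :
    Measurable (seen K v N T s) := by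
  unfold seen
  refine Finset.measurable_sum N fun z _ => ?_
  exact Measurable.ite (measurableSet_setOfPred.mpr ((measurable_state s).2 z))
    measurable_const measurable_const

private theorem Bnd_seen_nonneg (K : V → PMF V) (v : V) (N : Finset V) (T s : ℕ)
    (ω : V → Site V) : 0 ≤ seen K v N T s ω := by
  unfold seen
  refine Finset.sum_nonneg fun z _ => ?_
  split_ifs
  · exact kr_nonneg K _ z v
  · exact le_rfl

open Classical in
private theorem Bnd_markov [Countable V] (K : V → PMF V) (p : I) (v : V) (a : ℝ)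
    (N : Finset V) (T0 : ℕ) {L M : ℝ}
    (hI : ∫⁻ ω, (if Quiet v T0 ω then 1 else 0) *
        ENNReal.ofReal (Real.exp (a * ∑ r ∈ Finset.range T0, seen K v N T0 r ω)) ∂(law K p) ≤
      ENNReal.ofReal (Real.exp M)) :
    (law K p).real {ω | Quiet v T0 ω ∧ L ≤ a * ∑ r ∈ Finset.range T0, seen K v N T0 r ω} ≤
      Real.exp (M - L) := by
  have hs : Measurable fun ω : V → Site V => a * ∑ r ∈ Finset.range T0, seen K v N T0 r ω :=
    Measurable.const_mul (Finset.measurable_sum _ fun r _ => Bnd_meas_seen K v N T0 r) a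
  have hm : Measurable fun ω : V → Site V => (if Quiet v T0 ω then (1 : ℝ≥0∞) else 0) *
      ENNReal.ofReal (Real.exp (a * ∑ r ∈ Finset.range T0, seen K v N T0 r ω)) :=
    Measurable.mul (Measurable.ite (Bnd_meas_quiet v T0) measurable_const measurable_const)
      (ENNReal.measurable_ofReal.comp (Real.measurable_exp.comp hs))
  have h1 := mul_meas_ge_le_lintegral₀ (μ := law K p) hm.aemeasurable
    (ENNReal.ofReal (Real.exp L))
  have h2 : {ω | Quiet v T0 ω ∧ L ≤ a * ∑ r ∈ Finset.range T0, seen K v N T0 r ω} ⊆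
      {ω | ENNReal.ofReal (Real.exp L) ≤ (if Quiet v T0 ω then (1 : ℝ≥0∞) else 0) *
        ENNReal.ofReal (Real.exp (a * ∑ r ∈ Finset.range T0, seen K v N T0 r ω))} := by
    rintro ω ⟨h, h'⟩
    show ENNReal.ofReal (Real.exp L) ≤ _
    rw [if_pos h, one_mul]
    exact ENNReal.ofReal_le_ofReal (Real.exp_le_exp.2 h')
  have h3 : ENNReal.ofReal (Real.exp L) * (law K p)
      {ω | Quiet v T0 ω ∧ L ≤ a * ∑ r ∈ Finset.range T0, seen K v N T0 r ω} ≤
      ENNReal.ofReal (Real.exp M) := by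
    refine le_trans ?_ (h1.trans hI)
    gcongr
  have h4 := ENNReal.toReal_mono ENNReal.ofReal_ne_top h3
  rw [ENNReal.toReal_mul, ENNReal.toReal_ofReal (Real.exp_pos _).le,
    ENNReal.toReal_ofReal (Real.exp_pos _).le] at h4
  rw [Real.exp_sub, le_div_iff₀ (Real.exp_pos L), mul_comm]
  exact h4

theorem key (T : IsTriple G K Γ) {α C : ℝ} (hC : 1 ≤ C) (hdec : Decay K α C)
    {p : I} (hp : (p : ℝ) ≤ 1 / 2) (v : V) {a : ℝ} (ha : 0 < a)
    (hb : ∀ n x, a * (1 + gr K v n x) ≤ 1 / 2) {S2 : ℝ}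
    (hS2 : ∀ n (N : Finset V), ∑ x ∈ N, (gr K v n x) ^ 2 ≤ S2) {η Q : ℝ} (hη : 0 < η)
    (hQ : ∀ S : Finset ℕ, ∑ n ∈ S, qs η n ≤ Q) (t r : ℕ) :
    1 - 2 * (p : ℝ) ≤
      Real.exp ((2 * a ^ 2 * S2 + 3 * a * Q) + a * (1 - 2 * (p : ℝ)) * r -
        a * ∑ s ∈ Finset.range t, ucar K p v s) +
      ∑ i ∈ Finset.range t, Real.exp (-((qs η (r + 1 + i)) ^ 2 /
        (C * (((r + 1 + i : ℕ) : ℝ) + 1) ^ (-α)))) := by
  have hcV : Countable V := T.countable
  obtain ⟨T0, hT0⟩ : ∃ T0 : ℕ, T0 = t + r := ⟨_, rfl⟩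
  obtain ⟨N, hN⟩ : ∃ N : Finset V, ∀ x, Near G T0 x v → x ∈ N :=
    ⟨(near_finite_left T.locallyFinite T0 v).toFinset,
      fun x hx => (Set.Finite.mem_toFinset _).2 hx⟩
  -- the reindexed sums
  have hre : ∀ g : ℕ → ℝ, ∑ s ∈ Finset.range t, g (T0 - s) =
      ∑ i ∈ Finset.range t, g (r + 1 + i) := by
    intro g
    rw [← Finset.sum_range_reflect (fun i => g (r + 1 + i)) t]
    refine Finset.sum_congr rfl fun s hs => ?_
    have hs' := Finset.mem_range.1 hs
    have e : T0 - s = r + 1 + (t - 1 - s) := by omega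
    rw [e]
  have hQ' : ∑ s ∈ Finset.range t, qs η (T0 - s) ≤ Q := by
    rw [hre (qs η)]
    have h1 := hQ ((Finset.range t).image fun i => r + 1 + i)
    rwa [Finset.sum_image (fun i _ j _ h => by
      have h' : r + 1 + i = r + 1 + j := h
      omega)] at h1
  -- the bad events
  have hB : ∀ s, (law K p).real {ω | seen K v N T0 s ω ≤
      1 - 2 * (p : ℝ) + ucar K p v s - 3 * qs η (T0 - s)} ≤
      Real.exp (-((qs η (T0 - s)) ^ 2 / (C * (((T0 - s : ℕ) : ℝ) + 1) ^ (-α)))) := by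
    intro s
    have h1 : ∑ z ∈ N, kr K (T0 - s) z v = 1 :=
      sum_kr_col_eq T _ v N fun x hx => hN x (near_mono (Nat.sub_le _ _) hx)
    have hW : 0 < C * (((T0 - s : ℕ) : ℝ) + 1) ^ (-α) :=
      mul_pos (by linarith) (Real.rpow_pos_of_pos (by positivity) _)
    have h2 := conc T hp s N (fun z => kr K (T0 - s) z v) (fun z => kr_nonneg K _ z v) hW
      (fun z _ => hdec _ _ _) (qs_nonneg η (T0 - s)) (qs_le hη _) v
    simp only [h1, one_mul, mul_one] at h2
    exact h2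
  have hI := (lintegral_quiet_le T p v ha.le hb N T0 hN).trans
    (Phi_zero_le hp ha.le hb N T0 (sum_gr_le T v T0 N) (hS2 T0 N))
  have hM := Bnd_markov K p v a N T0 (L := a * ((1 - 2 * (p : ℝ)) * t +
    ∑ s ∈ Finset.range t, ucar K p v s - 3 * Q)) hI
  have hE : {ω | v ∈ (state ω T0).spots} ⊆
      {ω | Quiet v T0 ω ∧ a * ((1 - 2 * (p : ℝ)) * t +
        ∑ s ∈ Finset.range t, ucar K p v s - 3 * Q) ≤
          a * ∑ r ∈ Finset.range T0, seen K v N T0 r ω} ∪
      ⋃ s ∈ Finset.range t, {ω | seen K v N T0 s ω ≤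
        1 - 2 * (p : ℝ) + ucar K p v s - 3 * qs η (T0 - s)} := by
    intro ω hω
    by_cases hbad : ∃ s ∈ Finset.range t, seen K v N T0 s ω ≤
        1 - 2 * (p : ℝ) + ucar K p v s - 3 * qs η (T0 - s)
    · obtain ⟨s, hs, h⟩ := hbad
      exact Or.inr (Set.mem_iUnion₂.2 ⟨s, hs, h⟩)
    · push Not at hbad
      refine Or.inl ⟨quiet_of_spot hω, mul_le_mul_of_nonneg_left ?_ ha.le⟩
      calc (1 - 2 * (p : ℝ)) * t + ∑ s ∈ Finset.range t, ucar K p v s - 3 * Q
          ≤ (1 - 2 * (p : ℝ)) * t + ∑ s ∈ Finset.range t, ucar K p v s -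
            3 * ∑ s ∈ Finset.range t, qs η (T0 - s) := by linarith
        _ = ∑ s ∈ Finset.range t,
            (1 - 2 * (p : ℝ) + ucar K p v s - 3 * qs η (T0 - s)) := by
          rw [Finset.sum_sub_distrib, Finset.sum_add_distrib, ← Finset.mul_sum,
            Finset.sum_const, Finset.card_range, nsmul_eq_mul]
          ring
        _ ≤ ∑ s ∈ Finset.range t, seen K v N T0 s ω :=
          Finset.sum_le_sum fun s hs => (hbad s hs).le
        _ ≤ ∑ s ∈ Finset.range T0, seen K v N T0 s ω :=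
          Finset.sum_le_sum_of_subset_of_nonneg
            (Finset.range_subset_range.2 (by omega)) fun s _ _ => Bnd_seen_nonneg K v N T0 s ω
  have h1 := prob_spots_ge' T p v T0
  have h2 := ucar_nonneg K p v T0
  have h3 : (law K p).real {ω | v ∈ (state ω T0).spots} ≤ _ :=
    (measureReal_mono hE).trans (measureReal_union_le _ _)
  have h4 : (law K p).real (⋃ s ∈ Finset.range t, {ω | seen K v N T0 s ω ≤
      1 - 2 * (p : ℝ) + ucar K p v s - 3 * qs η (T0 - s)}) ≤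
      ∑ i ∈ Finset.range t, Real.exp (-((qs η (r + 1 + i)) ^ 2 /
        (C * (((r + 1 + i : ℕ) : ℝ) + 1) ^ (-α)))) := by
    refine (measureReal_biUnion_finset_le _ _).trans ?_
    rw [← hre fun n => Real.exp (-((qs η n) ^ 2 / (C * ((n : ℝ) + 1) ^ (-α))))]
    exact Finset.sum_le_sum fun s _ => hB s
  have e : (1 - 2 * (p : ℝ)) * a * T0 + 2 * a ^ 2 * S2 - a * ((1 - 2 * (p : ℝ)) * t +
      ∑ s ∈ Finset.range t, ucar K p v s - 3 * Q) =
      (2 * a ^ 2 * S2 + 3 * a * Q) + a * (1 - 2 * (p : ℝ)) * r -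
        a * ∑ s ∈ Finset.range t, ucar K p v s := by
    rw [hT0]
    push_cast
    ring
  rw [e] at hM
  linarith

/-- **Main estimate.** -/
theorem log_bound (T : IsTriple G K Γ) {α C : ℝ} (hα : 2 < α) (hdec : Decay K α C) :
    ∃ C' : ℝ, 0 ≤ C' ∧ ∀ p : I, (p : ℝ) < 1 / 2 → ∀ v : V,
      ∫⁻ ω, visits v ω ∂(law K p) ≤
        ENNReal.ofReal (C' * (1 + Real.log (1 / (1 / 2 - (p : ℝ))))) := by
  have hinf : Infinite V := T.infinite
  have hne : Nonempty V := inferInstance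
  have hC : 1 ≤ C := one_le_of_decay hdec
  obtain ⟨G0, hG0, hG⟩ := gr_bounded hα hdec
  obtain ⟨S2, hS20, hS2⟩ := sum_gr_sq_le T hα hdec
  have hη : 0 < (α - 2) / 4 := by linarith
  obtain ⟨Q, hQ0, hQ⟩ := qs_sum hη
  obtain ⟨C2, hC20, hC2⟩ := tail hα hC
  obtain ⟨a, haeq⟩ : ∃ a : ℝ, a = 1 / (2 * (1 + G0)) := ⟨_, rfl⟩
  have ha : 0 < a := by
    rw [haeq]
    positivity
  have haG : a * (1 + G0) = 1 / 2 := by
    rw [haeq]
    field_simp
  have hb : ∀ (v : V) n x, a * (1 + gr K v n x) ≤ 1 / 2 := by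
    intro v n x
    rw [← haG]
    exact mul_le_mul_of_nonneg_left (by linarith [hG v n x]) ha.le
  obtain ⟨K1, hK1⟩ : ∃ K1 : ℝ, K1 = 2 * a ^ 2 * S2 + 3 * a * Q := ⟨_, rfl⟩
  have hK10 : 0 ≤ K1 := by
    rw [hK1]
    positivity
  obtain ⟨A, hA⟩ : ∃ A : ℝ, A = (K1 + a * (2 * C2 + 1)) / a := ⟨_, rfl⟩
  have hA0 : 0 ≤ A := by
    rw [hA]
    positivity
  have hia : 0 ≤ 1 / a := by positivity
  refine ⟨A + 1 / a, by linarith, fun p hp v => ?_⟩
  have hp0 : 0 ≤ (p : ℝ) := p.2.1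
  have hδ : 0 < 1 - 2 * (p : ℝ) := by linarith
  have hδ1 : 1 - 2 * (p : ℝ) ≤ 1 := by linarith
  have hfin := final_bound ha hC20 hδ hδ1
    (m := fun t => ∑ s ∈ Finset.range t, ucar K p v s) (K1 := K1) (by
      intro t r
      have h1 := key T hC hdec hp.le v ha (hb v) (hS2 v) hη hQ t r
      have h2 := hC2 (r + 1) t
      have h3 : C2 / (((r + 1 : ℕ) : ℝ) + 1) ≤ C2 / ((r : ℝ) + 1) := by
        refine div_le_div_of_nonneg_left hC20 (by positivity) ?_
        push_cast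
        linarith
      rw [← hK1] at h1
      linarith)
  have h2δ : 2 / (1 - 2 * (p : ℝ)) = 1 / (1 / 2 - (p : ℝ)) := by
    have h1 : (1 / 2 - (p : ℝ)) ≠ 0 := by linarith
    rw [div_eq_div_iff hδ.ne' h1]
    ring
  have hlog : 0 ≤ Real.log (1 / (1 / 2 - (p : ℝ))) := by
    refine Real.log_nonneg ?_
    rw [le_div_iff₀ (by linarith)]
    linarith
  rw [lintegral_visits_eq T p v, ENNReal.tsum_eq_iSup_nat]
  refine iSup_le fun t => ?_
  rw [← ENNReal.ofReal_sum_of_nonneg fun s _ => ucar_nonneg K p v s]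
  refine ENNReal.ofReal_le_ofReal ?_
  have h1 := hfin t
  rw [h2δ, add_div, ← hA] at h1
  have h2 : Real.log (1 / (1 / 2 - (p : ℝ))) / a =
      1 / a * Real.log (1 / (1 / 2 - (p : ℝ))) := by ring
  rw [h2] at h1
  have h3 : 0 ≤ A * Real.log (1 / (1 / 2 - (p : ℝ))) := mul_nonneg hA0 hlog
  have h1' : ∑ s ∈ Finset.range t, ucar K p v s ≤
      A + 1 / a * Real.log (1 / (1 / 2 - (p : ℝ))) := h1
  nlinarith

end Pool.Agent.Lib.PkQ
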