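import Pool.Agent.Lib.MP_971c94_pr.Main

/-!
# Parking process, logarithmic bound: definitions

`kpow K n x` is the law after `n` steps of the chain with kernel `K` started at `x`.
-/

open MeasureTheory Set Function
open scoped ENNReal unitInterval

namespace Pool.Agent.Lib.PkQ

open Pool.Agent.Lib.MP_971c94_pr

section Kernel

variable {V : Type*}

/-- The law after `n` steps of the chain with kernel `K` started at `x`. -/
noncomputable def kpow (K : V → PMF V) : ℕ → V → PMF V
  | 0, x => PMF.pure x
  | n + 1, x => (K x).bind (kpow K n)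

/-- The `n`-step transition probabilities, as real numbers. -/
noncomputable def kr (K : V → PMF V) (n : ℕ) (x y : V) : ℝ := (kpow K n x y).toReal

/-- The `n`-step transition probabilities are at most `C (n + 1) ^ (-α)`. -/
def Decay (K : V → PMF V) (α C : ℝ) : Prop :=
  ∀ (n : ℕ) (x y : V), kr K n x y ≤ C * ((n : ℝ) + 1) ^ (-α)

/-- The expected number of visits to `v` at times `1, …, n` of the chain started at `x`. -/
noncomputable def gr (K : V → PMF V) (v : V) (n : ℕ) (x : V) : ℝ :=
  ∑ i ∈ Finset.range n, kr K (i + 1) x v

/-- The factor of a car at `x` with `n` steps to go. -/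
noncomputable def fac (K : V → PMF V) (v : V) (a : ℝ) (n : ℕ) (x : V) : ℝ≥0∞ :=
  ENNReal.ofReal (1 - a * gr K v n x)

end Kernel

section Process

variable {V : Type*}

/-- The input `ω` with the instruction `ζ (s, u)` of the car of `c` replaced by `y`. -/
def rep [DecidableEq V] (ω : V → Site V) (c : V) (s : ℕ) (u y : V) : V → Site V :=
  update ω c ((ω c).1, (update (ω c).2.1 (s, u) y, (ω c).2.2))

/-- No car arrives at `v` at the times `1, …, s`. -/
def Quiet (v : V) (s : ℕ) (ω : V → Site V) : Prop := ∀ r < s, ∀ x, ¬ Arrives ω r x v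

open Classical in
/-- The free spots at time `r`, weighted by the probability to hit `v` at time `T`. -/
noncomputable def seen (K : V → PMF V) (v : V) (N : Finset V) (T r : ℕ) (ω : V → Site V) : ℝ :=
  ∑ z ∈ N, if z ∈ (state ω r).spots then kr K (T - r) z v else 0

open Classical in
/-- The supermartingale. -/
noncomputable def Phi (K : V → PMF V) (v : V) (a : ℝ) (N : Finset V) (T s : ℕ)
    (ω : V → Site V) : ℝ≥0∞ :=
  (if Quiet v s ω then 1 else 0) *
  (∏ c ∈ N, if c ∈ (state ω s).cars then fac K v a (T - s) (pos ω c s) else 1) *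
  (∏ z ∈ N, if z ∈ (state ω s).spots then (fac K v a (T - s) z)⁻¹ else 1) *
  ENNReal.ofReal (Real.exp (a * ∑ r ∈ Finset.range s, seen K v N T r ω))

end Process

section Law

variable {V : Type*} [MeasurableSpace V]

/-- The probability that the car of `v` is unparked at time `t`. -/
noncomputable def ucar (K : V → PMF V) (p : I) (v : V) (t : ℕ) : ℝ :=
  (law K p).real {ω | v ∈ (state ω t).cars}

end Law

end Pool.Agent.Lib.PkQ
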