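import Pool.Agent.Lib.PkQ.ExZdHeat

/-!
# MP_971c94_pr, Q2: the uniform kernel of a regular tree of degree at least 3 decays exponentially
-/

open MeasureTheory Set
open scoped ENNReal unitInterval

namespace Pool.Agent.Lib.PkQ

open Pool.Agent.Lib.MP_971c94_pr

/-- In a tree at most one neighbour of `x` is at most as far from `y` as `x` is. -/
theorem tree_nbr {V : Type*} {G : SimpleGraph V} (hG : G.IsTree) {x y z z' : V}
    (hz : G.Adj x z) (hz' : G.Adj x z') (hd : G.dist z y ≤ G.dist x y)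
    (hd' : G.dist z' y ≤ G.dist x y) : z = z' := by
  classical
  have key : ∀ w, G.Adj x w → G.dist w y ≤ G.dist x y →
      ∃ p : G.Walk w y, p.IsPath ∧ x ∉ p.support := by
    intro w hw hdw
    obtain ⟨p, hp, hl⟩ := hG.connected.exists_path_of_dist w y
    refine ⟨p, hp, fun hx => ?_⟩
    have h1 : G.dist x y ≤ (p.dropUntil x hx).length := SimpleGraph.dist_le _
    have h2 : (p.takeUntil x hx).length + (p.dropUntil x hx).length = p.length := by
      rw [← SimpleGraph.Walk.length_append, SimpleGraph.Walk.take_spec]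
    have h3 : (p.takeUntil x hx).length ≠ 0 := by
      intro h0
      exact hw.ne (SimpleGraph.Walk.eq_of_length_eq_zero h0).symm
    omega
  obtain ⟨p, hp, hx⟩ := key z hz hd
  obtain ⟨p', hp', hx'⟩ := key z' hz' hd'
  have hc : (SimpleGraph.Walk.cons hz p).IsPath := hp.cons hx
  have hc' : (SimpleGraph.Walk.cons hz' p').IsPath := hp'.cons hx'
  have h := (hG.isAcyclic.subsingleton_path x y).elim ⟨_, hc⟩ ⟨_, hc'⟩
  have h1 := congrArg (fun q : G.Path x y => q.1.snd) h
  simpa using h1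

theorem tree_sum {V : Type*} {G : SimpleGraph V} (hG : G.IsTree) {q : ℕ} (hq : 3 ≤ q) (x y : V)
    (N : Finset V) (hN : ∀ z, z ∈ N ↔ G.Adj x z) (hc : N.card = q) :
    ∑ z ∈ N, (2 / 3 : ℝ) ^ G.dist z y ≤ (q : ℝ) * (17 / 18 * (2 / 3) ^ G.dist x y) := by
  classical
  have hq' : (3 : ℝ) ≤ q := by exact_mod_cast hq
  have hpos : (0 : ℝ) < (2 / 3 : ℝ) ^ G.dist x y := by positivity
  have hfar : ∀ z, G.dist x y < G.dist z y →
      (2 / 3 : ℝ) ^ G.dist z y ≤ 2 / 3 * (2 / 3 : ℝ) ^ G.dist x y := by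
    intro z h
    rw [← pow_succ']
    exact pow_le_pow_of_le_one (by norm_num) (by norm_num) h
  by_cases h : ∃ z0 ∈ N, G.dist z0 y ≤ G.dist x y
  · obtain ⟨z0, hz0, hd0⟩ := h
    rw [← Finset.add_sum_erase _ _ hz0]
    have h1 : (2 / 3 : ℝ) ^ G.dist z0 y ≤ 3 / 2 * (2 / 3 : ℝ) ^ G.dist x y := by
      have h2 : G.dist x y ≤ G.dist z0 y + 1 := by
        have h3 := hG.connected.dist_triangle (u := x) (v := z0) (w := y)
        have h4 : G.dist x z0 = 1 := SimpleGraph.dist_eq_one_iff_adj.2 ((hN z0).1 hz0)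
        omega
      have h3 : (2 / 3 : ℝ) ^ (G.dist z0 y + 1) ≤ (2 / 3 : ℝ) ^ G.dist x y :=
        pow_le_pow_of_le_one (by norm_num) (by norm_num) h2
      rw [pow_succ] at h3
      linarith
    have h2 : ∑ z ∈ N.erase z0, (2 / 3 : ℝ) ^ G.dist z y ≤
        ∑ _z ∈ N.erase z0, 2 / 3 * (2 / 3 : ℝ) ^ G.dist x y := by
      refine Finset.sum_le_sum fun z hz => hfar z ?_
      by_contra hle
      exact Finset.ne_of_mem_erase hz (tree_nbr hG ((hN z).1 (Finset.mem_of_mem_erase hz))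
        ((hN z0).1 hz0) (not_lt.1 hle) hd0)
    rw [Finset.sum_const, Finset.card_erase_of_mem hz0, hc, nsmul_eq_mul,
      Nat.cast_sub (by omega)] at h2
    push_cast at h2
    nlinarith
  · push Not at h
    have h2 : ∑ z ∈ N, (2 / 3 : ℝ) ^ G.dist z y ≤
        ∑ _z ∈ N, 2 / 3 * (2 / 3 : ℝ) ^ G.dist x y :=
      Finset.sum_le_sum fun z hz => hfar z (h z hz)
    rw [Finset.sum_const, hc, nsmul_eq_mul] at h2
    nlinarith

theorem kn_tree_le {V : Type*} {G : SimpleGraph V} (hG : G.IsTree) {q : ℕ} (hq : 3 ≤ q)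
    (hfin : ∀ x, (G.neighborSet x).Finite) (hdeg : ∀ x, (G.neighborSet x).ncard = q)
    {K : V → PMF V} (hK0 : ∀ x y, ¬ G.Adj x y → K x y = 0)
    (hK : ∀ x y, G.Adj x y → K x y = (q : ℝ≥0∞)⁻¹) (n : ℕ) (x y : V) :
    kn K n x y ≤ ENNReal.ofReal ((17 / 18) ^ n * (2 / 3) ^ G.dist x y) := by
  induction n generalizing x with
  | zero =>
    simp only [kn]
    by_cases h : x = y
    · subst h; simp
    · rw [if_neg h]; exact bot_le
  | succ n ih =>
    simp only [kn]
    have hN : ∀ z, z ∈ (hfin x).toFinset ↔ G.Adj x z := fun z => by simp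
    have hc : (hfin x).toFinset.card = q := by
      rw [← Set.ncard_eq_toFinset_card _ (hfin x), hdeg]
    rw [tsum_eq_sum (s := (hfin x).toFinset) fun z hz => by
      rw [hK0 x z (fun h => hz ((hN z).2 h)), zero_mul]]
    have hq0 : (0 : ℝ) < q := by
      have : 0 < q := by omega
      exact_mod_cast this
    have h1 : ∀ z ∈ (hfin x).toFinset, K x z * kn K n z y ≤
        ENNReal.ofReal ((q : ℝ)⁻¹ * ((17 / 18) ^ n * (2 / 3) ^ G.dist z y)) := by
      intro z hz
      rw [hK x z ((hN z).1 hz), ENNReal.ofReal_mul (by positivity),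
        ENNReal.ofReal_inv_of_pos hq0, ENNReal.ofReal_natCast]
      gcongr
      exact ih z
    refine (Finset.sum_le_sum h1).trans ?_
    rw [← ENNReal.ofReal_sum_of_nonneg fun z _ => by positivity]
    refine ENNReal.ofReal_le_ofReal ?_
    rw [← Finset.mul_sum, ← Finset.mul_sum]
    have h2 := tree_sum hG hq x y _ hN hc
    calc (q : ℝ)⁻¹ * ((17 / 18) ^ n * ∑ z ∈ (hfin x).toFinset, (2 / 3 : ℝ) ^ G.dist z y)
        ≤ (q : ℝ)⁻¹ * ((17 / 18) ^ n * ((q : ℝ) * (17 / 18 * (2 / 3) ^ G.dist x y))) := by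
          gcongr
      _ = (17 / 18) ^ (n + 1) * (2 / 3) ^ G.dist x y := by
          rw [pow_succ]
          field_simp

end Pool.Agent.Lib.PkQ
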