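import Pool.Agent.Lib.PkQ.Defs
import Pool.Agent.Lib.PkQ.ExTree

/-!
# MP_971c94_pr, Q2: decay of the uniform kernels of `ℤ^d` and of the regular trees

`decay_lattice`: `K^n(x,y) ≤ C (n+1)^(-d/2)`; `decay_tree`: exponential decay, so in particular
`K^n(x,y) ≤ C (n+1)^(-3)`.
-/

open MeasureTheory Set
open scoped ENNReal unitInterval

namespace Pool.Agent.Lib.PkQ

open Pool.Agent.Lib.MP_971c94_pr


theorem kpow_eq_kn {V : Type*} (K : V → PMF V) (n : ℕ) (x y : V) : kpow K n x y = kn K n x y := by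
  induction n generalizing x with
  | zero =>
    simp only [kpow, kn, PMF.pure_apply]
    by_cases h : x = y
    · rw [if_pos h.symm, if_pos h]
    · rw [if_neg (Ne.symm h), if_neg h]
  | succ n ih =>
    simp only [kpow, kn, PMF.bind_apply, ih]

theorem decay_lattice {d : ℕ} (hd : d ≠ 0) {K : (Fin d → ℤ) → PMF (Fin d → ℤ)}
    (hK : ∀ x y, (lattice d).Adj x y → K x y = (2 * d : ℝ≥0∞)⁻¹) :
    Decay K ((d : ℝ) / 2) (Real.sqrt ((d : ℝ) ^ d)) := by
  intro n x y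
  have h := kn_lattice_le hd hK n x y
  rw [kr, kpow_eq_kn]
  have hn : (0 : ℝ) < (n : ℝ) + 1 := by positivity
  refine (ENNReal.toReal_le_of_le_ofReal (Real.sqrt_nonneg _) h).trans_eq ?_
  rw [div_pow, Real.sqrt_div (by positivity), div_eq_mul_inv]
  congr 1
  rw [Real.sqrt_eq_rpow, ← Real.rpow_natCast, ← Real.rpow_mul hn.le, ← Real.rpow_neg hn.le]
  congr 1
  ring

theorem pow_bound {r : ℝ} (h0 : 0 < r) (h1 : r < 1) :
    ∃ C : ℝ, ∀ n : ℕ, r ^ n ≤ C * ((n : ℝ) + 1) ^ (-3 : ℝ) := by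
  have ht := tendsto_pow_const_mul_const_pow_of_abs_lt_one 3 (r := r) (by rwa [abs_of_pos h0])
  obtain ⟨B, hB⟩ := ht.bddAbove_range
  refine ⟨B / r, fun n => ?_⟩
  have h2 : ((n + 1 : ℕ) : ℝ) ^ 3 * r ^ (n + 1) ≤ B := hB ⟨n + 1, rfl⟩
  have hn : (0 : ℝ) < (n : ℝ) + 1 := by positivity
  have h3 : ((n : ℝ) + 1) ^ (-3 : ℝ) = (((n : ℝ) + 1) ^ 3)⁻¹ := by
    rw [Real.rpow_neg hn.le]
    norm_cast
  rw [h3, ← div_eq_mul_inv, le_div_iff₀ (by positivity), le_div_iff₀ h0]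
  push_cast at h2
  calc r ^ n * ((n : ℝ) + 1) ^ 3 * r = ((n : ℝ) + 1) ^ 3 * r ^ (n + 1) := by ring
    _ ≤ B := h2

/-- The uniform kernel of a regular tree of degree at least three decays. -/
theorem decay_tree {V : Type*} {G : SimpleGraph V} (hG : G.IsTree) {q : ℕ} (hq : 3 ≤ q)
    (hfin : ∀ x, (G.neighborSet x).Finite) (hdeg : ∀ x, (G.neighborSet x).ncard = q)
    {K : V → PMF V} (hK0 : ∀ x y, ¬ G.Adj x y → K x y = 0)
    (hK : ∀ x y, G.Adj x y → K x y = (q : ℝ≥0∞)⁻¹) : ∃ C, Decay K 3 C := by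
  obtain ⟨C, hC⟩ := pow_bound (r := 17 / 18) (by norm_num) (by norm_num)
  refine ⟨C, fun n x y => ?_⟩
  rw [kr, kpow_eq_kn]
  refine (ENNReal.toReal_le_of_le_ofReal (by positivity)
    (kn_tree_le hG hq hfin hdeg hK0 hK n x y)).trans (le_trans ?_ (hC n))
  exact mul_le_of_le_one_right (by positivity) (pow_le_one₀ (by norm_num) (by norm_num))

end Pool.Agent.Lib.PkQ
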