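import Mathlib

/-!
# MP_971c94_pr, Q2: the heat kernel bound on `ℤ^d` (uniform kernel)

`mAvg d n w` is `E w(N)` for `N` multinomial with `n` trials and `d` equally likely outcomes;
`bin m k` is the probability that simple random walk on `ℤ` is at `k` at time `m`.
-/

open Finset

namespace Pool.Agent.Lib.PkQ

/-- `E w(N)`, `N` multinomial (`n` trials, `d` equally likely outcomes). -/
noncomputable def mAvg (d : ℕ) : ℕ → ((Fin d → ℕ) → ℝ) → ℝ
  | 0, w => w 0
  | n + 1, w => (∑ i : Fin d, mAvg d n (fun N => w (N + Pi.single i 1))) / d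

theorem mAvg_mono {d n : ℕ} {w w' : (Fin d → ℕ) → ℝ} (h : ∀ N, w N ≤ w' N) :
    mAvg d n w ≤ mAvg d n w' := by
  induction n generalizing w w' with
  | zero => exact h 0
  | succ n ih =>
    simp only [mAvg]
    gcongr
    exact ih fun N => h _

theorem mAvg_add {d n : ℕ} (w w' : (Fin d → ℕ) → ℝ) :
    mAvg d n (fun N => w N + w' N) = mAvg d n w + mAvg d n w' := by
  induction n generalizing w w' with
  | zero => rfl
  | succ n ih =>
    simp only [mAvg]
    rw [← add_div, ← Finset.sum_add_distrib]
    congr 1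
    exact Finset.sum_congr rfl fun i _ => ih _ _

theorem mAvg_mul {d n : ℕ} (c : ℝ) (w : (Fin d → ℕ) → ℝ) :
    mAvg d n (fun N => c * w N) = c * mAvg d n w := by
  induction n generalizing w with
  | zero => rfl
  | succ n ih =>
    simp only [mAvg]
    rw [← mul_div_assoc, Finset.mul_sum]
    congr 1
    exact Finset.sum_congr rfl fun i _ => ih _

theorem mAvg_sq_le {d n : ℕ} (hd : d ≠ 0) (w : (Fin d → ℕ) → ℝ) :
    mAvg d n w ^ 2 ≤ mAvg d n (fun N => w N ^ 2) := by
  induction n generalizing w with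
  | zero => exact le_rfl
  | succ n ih =>
    simp only [mAvg]
    have hd' : (0 : ℝ) < d := by positivity
    rw [div_pow, div_le_div_iff₀ (by positivity) hd']
    have h1 := sq_sum_le_card_mul_sum_sq (s := (univ : Finset (Fin d)))
      (f := fun i : Fin d => mAvg d n (fun N => w (N + Pi.single i 1)))
    rw [Finset.card_univ, Fintype.card_fin] at h1
    have h2 : ∑ i : Fin d, mAvg d n (fun N => w (N + Pi.single i 1)) ^ 2 ≤
        ∑ i : Fin d, mAvg d n (fun N => w (N + Pi.single i 1) ^ 2) :=
      Finset.sum_le_sum fun i _ => ih _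
    have h3 := mul_le_mul_of_nonneg_left h2 (sq_nonneg (d : ℝ))
    nlinarith [mul_le_mul_of_nonneg_left h1 hd'.le]

/-- Size biasing. -/
theorem mAvg_size {d n : ℕ} (i : Fin d) (v : (Fin d → ℕ) → ℝ) :
    mAvg d (n + 1) (fun N => v N * N i) =
      (n + 1) / d * mAvg d n (fun N => v (N + Pi.single i 1)) := by
  have hd' : (d : ℝ) ≠ 0 := by
    have := i.pos
    positivity
  induction n generalizing v with
  | zero =>
    simp only [mAvg]
    rw [Finset.sum_eq_single i]
    · simp
      ring
    · intro j _ hj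
      simp [Ne.symm hj]
    · simp
  | succ n ih =>
    rw [mAvg]
    have h1 : ∀ j : Fin d, mAvg d (n + 1) (fun N => v (N + Pi.single j 1) *
        ((N + Pi.single j 1 : Fin d → ℕ) i : ℕ)) =
        (n + 1) / d * mAvg d n (fun N => v (N + Pi.single j 1 + Pi.single i 1)) +
        (if j = i then mAvg d (n + 1) (fun N => v (N + Pi.single i 1)) else 0) := by
      intro j
      have h2 := ih (fun N => v (N + Pi.single j 1))
      have h3 : (fun N : Fin d → ℕ => v (N + Pi.single j 1) *
          ((N + Pi.single j 1 : Fin d → ℕ) i : ℕ)) =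
          fun N => v (N + Pi.single j 1) * (N i : ℝ) +
            (if j = i then 1 else 0) * v (N + Pi.single j 1) := by
        funext N
        rw [Pi.add_apply, Nat.cast_add, mul_add]
        congr 1
        by_cases h : j = i
        · subst h; simp
        · simp [h, Ne.symm h]
      rw [h3, mAvg_add, h2]
      congr 1
      · congr 2
        funext N
        rw [add_right_comm]
      · rw [mAvg_mul]
        by_cases h : j = i
        · subst h; simp
        · simp [h]
    rw [Finset.sum_congr rfl fun j _ => h1 j, Finset.sum_add_distrib, ← Finset.mul_sum,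
      Finset.sum_ite_eq' univ i, if_pos (mem_univ i)]
    have h4 : ∑ j : Fin d, mAvg d n (fun N => v (N + Pi.single j 1 + Pi.single i 1)) =
        d * mAvg d (n + 1) (fun N => v (N + Pi.single i 1)) := by
      rw [mAvg]
      field_simp
    rw [h4]
    push_cast
    field_simp

theorem mAvg_prod_le {d : ℕ} (S : Finset (Fin d)) (n : ℕ) :
    mAvg d n (fun N => ∏ j ∈ S, ((N j : ℝ) + 1)⁻¹) ≤ ((d : ℝ) / (n + 1)) ^ S.card := by
  classical
  induction S using Finset.induction_on generalizing n with
  | empty =>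
    simp only [Finset.prod_empty, Finset.card_empty, pow_zero]
    induction n with
    | zero => exact le_rfl
    | succ n ih =>
      simp only [mAvg]
      rw [Finset.sum_const, Finset.card_univ, Fintype.card_fin, nsmul_eq_mul]
      by_cases hd : (d : ℝ) = 0
      · rw [hd]; simp
      · rw [mul_div_assoc, mul_div_cancel₀]
        · exact ih
        · exact hd
  | insert i S hi ih =>
    have hd' : (d : ℝ) ≠ 0 := by
      have := i.pos
      positivity
    have hd0 : (0 : ℝ) ≤ d := by positivity
    set v : (Fin d → ℕ) → ℝ := fun N => (∏ j ∈ S, ((N j : ℝ) + 1)⁻¹) * (N i : ℝ)⁻¹ with hv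
    have h1 := mAvg_size (n := n) i v
    have h2 : (fun N : Fin d → ℕ => v (N + Pi.single i 1)) =
        fun N => ∏ j ∈ insert i S, ((N j : ℝ) + 1)⁻¹ := by
      funext N
      rw [Finset.prod_insert hi, hv]
      simp only [Pi.add_apply, Pi.single_eq_same, Nat.cast_add, Nat.cast_one]
      rw [mul_comm]
      congr 1
      refine Finset.prod_congr rfl fun j hj => ?_
      have : j ≠ i := fun h => hi (h ▸ hj)
      rw [Pi.single_eq_of_ne this]
      simp
    rw [h2] at h1
    have h3 : mAvg d (n + 1) (fun N => v N * N i) ≤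
        mAvg d (n + 1) (fun N => ∏ j ∈ S, ((N j : ℝ) + 1)⁻¹) := by
      refine mAvg_mono fun N => ?_
      rw [hv]
      simp only
      rw [mul_assoc]
      refine mul_le_of_le_one_right (Finset.prod_nonneg fun j _ => by positivity) ?_
      exact inv_mul_le_one
    have h4 := h3.trans (ih (n + 1))
    rw [h1] at h4
    have hn : (0 : ℝ) < n + 1 := by positivity
    have h5 : ((d : ℝ) / ((n + 1 : ℕ) + 1)) ^ S.card ≤ ((d : ℝ) / (n + 1)) ^ S.card := by
      gcongr
      linarith
    rw [Finset.card_insert_of_notMem hi, pow_succ]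
    have hdp : (0 : ℝ) < d := lt_of_le_of_ne hd0 (Ne.symm hd')
    have h6 : (d : ℝ) / (n + 1) * ((n + 1) / d *
        mAvg d n (fun N => ∏ j ∈ insert i S, ((N j : ℝ) + 1)⁻¹)) =
        mAvg d n (fun N => ∏ j ∈ insert i S, ((N j : ℝ) + 1)⁻¹) := by
      field_simp
    rw [← h6, mul_comm (((d : ℝ) / (n + 1)) ^ S.card)]
    exact mul_le_mul_of_nonneg_left (h4.trans h5) (by positivity)

/-- The probability that simple random walk on `ℤ` started at `0` is at `k` at time `m`. -/
noncomputable def bin : ℕ → ℤ → ℝ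
  | 0, k => if k = 0 then 1 else 0
  | m + 1, k => (bin m (k - 1) + bin m (k + 1)) / 2

theorem bin_nonneg (m : ℕ) (k : ℤ) : 0 ≤ bin m k := by
  induction m generalizing k with
  | zero => simp only [bin]; split_ifs <;> norm_num
  | succ m ih => simp only [bin]; linarith [ih (k - 1), ih (k + 1)]

/-- Binomial coefficients with an integer lower index. -/
def zch (m : ℕ) (r : ℤ) : ℝ := if 0 ≤ r then (m.choose r.toNat : ℝ) else 0

theorem zch_succ (m : ℕ) (r : ℤ) : zch (m + 1) r = zch m (r - 1) + zch m r := by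
  rcases lt_trichotomy r 0 with h | h | h
  · rw [zch, zch, zch, if_neg (by omega), if_neg (by omega), if_neg (by omega), add_zero]
  · subst h
    simp [zch]
  · obtain ⟨k, rfl⟩ : ∃ k : ℕ, r = k + 1 := ⟨(r - 1).toNat, by omega⟩
    have h1 : ((k : ℤ) + 1).toNat = k + 1 := by omega
    simp only [zch, h1]
    rw [if_pos (by omega), if_pos (by omega), if_pos (by omega)]
    have h2 : ((k : ℤ) + 1 - 1).toNat = k := by omega
    rw [h2, Nat.choose_succ_succ]
    push_cast
    ring

theorem bin_even (m : ℕ) (r : ℤ) : bin m (2 * r - m) = zch m r / 2 ^ m := by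
  induction m generalizing r with
  | zero =>
    by_cases hr : r = 0
    · subst hr; simp [bin, zch]
    · have h1 : ¬ (2 * r - ((0 : ℕ) : ℤ) = 0) := by push_cast; omega
      simp only [bin, h1, if_false, zch, pow_zero, div_one]
      by_cases h : 0 ≤ r
      · rw [if_pos h, Nat.choose_eq_zero_of_lt (by omega)]; simp
      · rw [if_neg h]
  | succ m ih =>
    simp only [bin]
    have h1 : 2 * r - ((m + 1 : ℕ) : ℤ) - 1 = 2 * (r - 1) - m := by push_cast; ring
    have h2 : 2 * r - ((m + 1 : ℕ) : ℤ) + 1 = 2 * r - m := by push_cast; ring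
    rw [h1, h2, ih, ih, zch_succ, pow_succ]
    field_simp

theorem bin_odd (m : ℕ) (r : ℤ) : bin m (2 * r + 1 - m) = 0 := by
  induction m generalizing r with
  | zero =>
    simp only [bin]
    rw [if_neg (by push_cast; omega)]
  | succ m ih =>
    simp only [bin]
    have h1 : 2 * r + 1 - ((m + 1 : ℕ) : ℤ) - 1 = 2 * (r - 1) + 1 - m := by push_cast; ring
    have h2 : 2 * r + 1 - ((m + 1 : ℕ) : ℤ) + 1 = 2 * r + 1 - m := by push_cast; ring
    rw [h1, h2, ih, ih]
    simp

theorem central_sq (j : ℕ) : (2 * j + 1) * j.centralBinom ^ 2 ≤ 16 ^ j := by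
  induction j with
  | zero => simp
  | succ j ih =>
    have h := Nat.succ_mul_centralBinom_succ j
    have h1 : (j + 1) ^ 2 * ((2 * (j + 1) + 1) * (j + 1).centralBinom ^ 2) ≤
        (j + 1) ^ 2 * 16 ^ (j + 1) := by
      calc (j + 1) ^ 2 * ((2 * (j + 1) + 1) * (j + 1).centralBinom ^ 2)
          = (2 * j + 3) * ((j + 1) * (j + 1).centralBinom) ^ 2 := by ring
        _ = (2 * j + 3) * (2 * (2 * j + 1) * j.centralBinom) ^ 2 := by rw [h]
        _ = 4 * ((2 * j + 3) * (2 * j + 1)) * ((2 * j + 1) * j.centralBinom ^ 2) := by ring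
        _ ≤ 4 * (4 * (j + 1) ^ 2) * 16 ^ j := by
            have h2 : (2 * j + 3) * (2 * j + 1) ≤ 4 * (j + 1) ^ 2 := by nlinarith
            exact Nat.mul_le_mul (Nat.mul_le_mul_left 4 h2) ih
        _ = (j + 1) ^ 2 * 16 ^ (j + 1) := by ring
    exact Nat.le_of_mul_le_mul_left h1 (by positivity)

theorem choose_half_sq (m : ℕ) : (m + 1) * (m.choose (m / 2)) ^ 2 ≤ 4 ^ m := by
  rcases Nat.even_or_odd' m with ⟨j, rfl | rfl⟩
  · have := central_sq j
    rw [Nat.centralBinom] at this
    rw [Nat.mul_div_cancel_left _ (by norm_num), pow_mul]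
    exact this
  · have h := central_sq (j + 1)
    have h1 : (j + 1).centralBinom = 2 * (2 * j + 1).choose j := by
      rw [Nat.centralBinom, show 2 * (j + 1) = (2 * j + 1) + 1 by ring, Nat.choose_succ_succ,
        Nat.succ_eq_add_one, Nat.choose_symm_half]
      ring
    have h2 : (2 * j + 1) / 2 = j := by omega
    rw [h1] at h
    rw [h2]
    have h3 : 4 * ((2 * j + 1 + 1) * (2 * j + 1).choose j ^ 2) ≤ 4 * 4 ^ (2 * j + 1) := by
      calc 4 * ((2 * j + 1 + 1) * (2 * j + 1).choose j ^ 2)
          ≤ (2 * (j + 1) + 1) * (2 * (2 * j + 1).choose j) ^ 2 := by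
            nlinarith [sq_nonneg ((2 * j + 1).choose j)]
        _ ≤ 16 ^ (j + 1) := h
        _ = 4 * 4 ^ (2 * j + 1) := by
            rw [show (16 : ℕ) = 4 ^ 2 by norm_num, ← pow_mul, ← pow_succ']
            congr 1
    exact Nat.le_of_mul_le_mul_left h3 (by norm_num)

theorem bin_sq_le (m : ℕ) (k : ℤ) : bin m k ^ 2 ≤ ((m : ℝ) + 1)⁻¹ := by
  rcases Int.even_or_odd' (m + k) with ⟨r, hr | hr⟩
  · have hk : k = 2 * r - m := by omega
    rw [hk, bin_even]
    by_cases h : 0 ≤ r
    · rw [zch, if_pos h]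
      have h1 := Nat.choose_le_middle r.toNat m
      have h2 := choose_half_sq m
      have h3 : ((m : ℝ) + 1) * (m.choose r.toNat : ℝ) ^ 2 ≤ 4 ^ m := by
        have : (m + 1) * (m.choose r.toNat) ^ 2 ≤ 4 ^ m :=
          (Nat.mul_le_mul_left _ (Nat.pow_le_pow_left h1 2)).trans h2
        exact_mod_cast this
      rw [div_pow, ← pow_mul, mul_comm m 2, pow_mul, show (2 : ℝ) ^ 2 = 4 by norm_num,
        div_le_iff₀ (by positivity), ← div_eq_inv_mul, le_div_iff₀ (by positivity), mul_comm]
      exact h3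
    · rw [zch, if_neg h]
      simp
      positivity
  · have hk : k = 2 * r + 1 - m := by omega
    rw [hk, bin_odd]
    simp
    positivity

end Pool.Agent.Lib.PkQ
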