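import Pool.Agent.Lib.MP_971c94_pr.Defs

/-!
# MP_971c94_pr, Q2: `ℤ^d` with the uniform kernel and the translations is a triple
-/

open MeasureTheory Set
open scoped ENNReal unitInterval

namespace Pool.Agent.Lib.PkQ

open Pool.Agent.Lib.MP_971c94_pr

/-- The nearest neighbour graph of `ℤ^d`. -/
def lattice (d : ℕ) : SimpleGraph (Fin d → ℤ) where
  Adj x y := ∃ i, y = x + Pi.single i 1 ∨ x = y + Pi.single i 1
  symm := ⟨fun x y ⟨i, h⟩ => ⟨i, h.symm⟩⟩
  loopless := ⟨fun x ⟨i, h⟩ => by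
    have h1 : x = x + Pi.single i 1 := by rcases h with h | h <;> exact h
    have h2 := congrFun h1 i
    simp at h2⟩

/-- The `2 d` unit steps. -/
def stp {d : ℕ} (s : Fin d × Bool) : Fin d → ℤ := if s.2 then Pi.single s.1 1 else -Pi.single s.1 1

theorem adj_iff {d : ℕ} (x y : Fin d → ℤ) : (lattice d).Adj x y ↔ ∃ s, y = x + stp s := by
  constructor
  · rintro ⟨i, h | h⟩
    · exact ⟨(i, true), by simpa [stp] using h⟩
    · exact ⟨(i, false), by rw [h]; simp [stp]⟩
  · rintro ⟨⟨i, b⟩, h⟩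
    refine ⟨i, ?_⟩
    cases b
    · right; rw [h]; simp [stp]
    · left; simpa [stp] using h

theorem stp_injective {d : ℕ} : Function.Injective (stp (d := d)) := by
  rintro ⟨i, b⟩ ⟨j, c⟩ h
  have hij : i = j := by
    by_contra hne
    have h1 := congrFun h i
    cases b <;> cases c <;> simp [stp, hne] at h1
  subst hij
  have h1 := congrFun h i
  cases b <;> cases c <;> simp [stp] at h1 ⊢

/-- The translation by `a`. -/
def trans {d : ℕ} (a : Fin d → ℤ) : lattice d ≃g lattice d where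
  toEquiv := Equiv.addLeft a
  map_rel_iff' := by
    intro x y
    simp only [adj_iff, Equiv.coe_addLeft]
    constructor <;> rintro ⟨s, h⟩ <;> refine ⟨s, ?_⟩
    · rw [add_assoc] at h
      exact add_left_cancel h
    · rw [h, add_assoc]

@[simp] theorem trans_apply {d : ℕ} (a x : Fin d → ℤ) : trans a x = a + x := rfl

/-- The group of translations. -/
def translations (d : ℕ) : Subgroup (lattice d ≃g lattice d) where
  carrier := Set.range trans
  mul_mem' := by
    rintro _ _ ⟨a, rfl⟩ ⟨b, rfl⟩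
    refine ⟨a + b, ?_⟩
    ext1 x
    simp [add_assoc]
  one_mem' := ⟨0, by ext1 x; simp⟩
  inv_mem' := by
    rintro _ ⟨a, rfl⟩
    refine ⟨-a, ?_⟩
    ext1 x
    rw [trans_apply]
    apply (trans a).injective
    rw [RelIso.apply_inv_self]
    simp

theorem adj_stp {d : ℕ} (x : Fin d → ℤ) (s : Fin d × Bool) : (lattice d).Adj x (x + stp s) :=
  (adj_iff _ _).2 ⟨s, rfl⟩

section Kernel

variable {d : ℕ} {K : (Fin d → ℤ) → PMF (Fin d → ℤ)}

theorem add_stp_injective {d : ℕ} (x : Fin d → ℤ) :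
    Function.Injective fun s : Fin d × Bool => x + stp s :=
  fun s t h => stp_injective (add_left_cancel (show x + stp s = x + stp t from h))

/-- The neighbours of `x`. -/
def nbrs {d : ℕ} (x : Fin d → ℤ) : Finset (Fin d → ℤ) :=
  Finset.univ.map ⟨fun s : Fin d × Bool => x + stp s, add_stp_injective x⟩

theorem mem_nbrs (x y : Fin d → ℤ) : y ∈ nbrs x ↔ (lattice d).Adj x y := by
  rw [adj_iff]
  simp only [nbrs, Finset.mem_map, Finset.mem_univ, true_and]
  exact exists_congr fun s => eq_comm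

theorem sum_nbrs (hd : d ≠ 0) (hK : ∀ x y, (lattice d).Adj x y → K x y = (2 * d : ℝ≥0∞)⁻¹)
    (x : Fin d → ℤ) : ∑ y ∈ nbrs x, K x y = 1 := by
  rw [Finset.sum_congr rfl fun y hy => hK x y ((mem_nbrs x y).1 hy), Finset.sum_const, nbrs,
    Finset.card_map, Finset.card_univ, Fintype.card_prod, Fintype.card_fin, Fintype.card_bool,
    nsmul_eq_mul, Nat.cast_mul, Nat.cast_ofNat, mul_comm (d : ℝ≥0∞)]
  refine ENNReal.mul_inv_cancel ?_ ?_
  · simpa using hd
  · exact ENNReal.mul_ne_top (by simp) (by simp)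

theorem K_nonadj (hd : d ≠ 0) (hK : ∀ x y, (lattice d).Adj x y → K x y = (2 * d : ℝ≥0∞)⁻¹)
    (x y : Fin d → ℤ) (h : ¬ (lattice d).Adj x y) : K x y = 0 := by
  classical
  have h1 : ∑ z ∈ insert y (nbrs x), K x z ≤ 1 := by
    rw [← (K x).tsum_coe]
    exact ENNReal.sum_le_tsum _
  rw [Finset.sum_insert (fun h' => h ((mem_nbrs x y).1 h')), sum_nbrs hd hK] at h1
  have h2 : K x y + 1 ≤ 0 + 1 := by rwa [zero_add]
  exact le_antisymm ((ENNReal.add_le_add_iff_right (by simp)).1 h2) bot_le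

theorem tsum_K (hd : d ≠ 0) (hK : ∀ x y, (lattice d).Adj x y → K x y = (2 * d : ℝ≥0∞)⁻¹)
    (x : Fin d → ℤ) (f : (Fin d → ℤ) → ℝ≥0∞) :
    ∑' y, K x y * f y = (2 * d : ℝ≥0∞)⁻¹ * ∑ s : Fin d × Bool, f (x + stp s) := by
  rw [tsum_eq_sum (s := nbrs x) fun y hy => by
    rw [K_nonadj hd hK x y (fun h => hy ((mem_nbrs x y).2 h)), zero_mul], nbrs,
    Finset.sum_map, Finset.mul_sum]
  exact Finset.sum_congr rfl fun s _ => congrArg (· * f (x + stp s)) (hK _ _ (adj_stp x s))

end Kernel

theorem reach_single {d : ℕ} (x : Fin d → ℤ) (i : Fin d) (k : ℤ) :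
    (lattice d).Reachable x (x + Pi.single i k) := by
  induction k using Int.induction_on with
  | zero => rw [Pi.single_zero, add_zero]
  | succ k ih =>
    refine ih.trans (SimpleGraph.Adj.reachable ⟨i, Or.inl ?_⟩)
    rw [Pi.single_add, add_assoc]
  | pred k ih =>
    refine ih.trans (SimpleGraph.Adj.reachable ⟨i, Or.inr ?_⟩)
    rw [add_assoc, ← Pi.single_add, sub_add_cancel]

theorem reach_sum {d : ℕ} (x f : Fin d → ℤ) (S : Finset (Fin d)) :
    (lattice d).Reachable x (x + ∑ i ∈ S, Pi.single i (f i)) := by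
  classical
  induction S using Finset.induction_on with
  | empty => rw [Finset.sum_empty, add_zero]
  | insert i S hi ih =>
    have h := ih.trans (reach_single _ i (f i))
    rw [Finset.sum_insert hi]
    convert h using 1
    abel

theorem connected_lattice (d : ℕ) : (lattice d).Connected := by
  refine (SimpleGraph.connected_iff _).2 ⟨fun x y => ?_, ⟨0⟩⟩
  have h := reach_sum x (y - x) Finset.univ
  rwa [Finset.univ_sum_single, add_sub_cancel] at h

theorem isTriple_lattice {d : ℕ} (hd : d ≠ 0) {K : (Fin d → ℤ) → PMF (Fin d → ℤ)}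
    (hK : ∀ x y, (lattice d).Adj x y → K x y = (2 * d : ℝ≥0∞)⁻¹) :
    IsTriple (lattice d) K (translations d) := by
  classical
  have : Nonempty (Fin d) := ⟨⟨0, Nat.pos_of_ne_zero hd⟩⟩
  have hpos : (0 : ℝ≥0∞) < (2 * d : ℝ≥0∞)⁻¹ :=
    ENNReal.inv_pos.2 (ENNReal.mul_ne_top (by simp) (by simp))
  have hstab : ∀ u v : Fin d → ℤ, stabOrbit (translations d) u v = {v} := by
    intro u v
    ext w
    simp only [stabOrbit, Set.mem_ofPred_eq, Set.mem_singleton_iff]
    constructor
    · rintro ⟨_, ⟨a, rfl⟩, h1, h2⟩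
      rw [trans_apply] at h1 h2
      have : a = 0 := by simpa using h1
      rw [← h2, this, zero_add]
    · rintro rfl
      exact ⟨1, (translations d).one_mem, rfl, rfl⟩
  refine ⟨inferInstance, fun v => ?_, connected_lattice d, fun u v h => K_nonadj hd hK u v h,
    ?_, ?_, ?_, ?_⟩
  · refine (nbrs v).finite_toSet.subset fun w hw => ?_
    exact (mem_nbrs v w).2 hw
  · rintro _ ⟨a, rfl⟩ u v
    by_cases h : (lattice d).Adj u v
    · rw [hK _ _ h, hK _ _ ((trans a).map_rel_iff.2 h)]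
    · rw [K_nonadj hd hK _ _ h, K_nonadj hd hK _ _ (fun h' => h ((trans a).map_rel_iff.1 h'))]
  · intro u v
    exact ⟨trans (v - u), ⟨_, rfl⟩, by simp⟩
  · intro u v
    rw [hstab, hstab]
    simp
  · obtain ⟨i⟩ := ‹Nonempty (Fin d)›
    have hpow : ∀ n : ℕ, (trans (Pi.single i 1 : Fin d → ℤ) ^ n) 0 = n • Pi.single i 1 := by
      intro n
      induction n with
      | zero => simp
      | succ n ih =>
        rw [pow_succ', RelIso.mul_apply, ih, trans_apply, succ_nsmul']
    refine ⟨trans (Pi.single i 1), ⟨_, rfl⟩, 0, ?_, ?_⟩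
    · refine Set.infinite_range_of_injective fun m n h => ?_
      simp only [hpow] at h
      have := congrFun h i
      simpa using this
    · refine Relation.ReflTransGen.single ?_
      have hadj : (lattice d).Adj (trans (Pi.single i 1) 0) 0 := ⟨i, Or.inr (by simp)⟩
      exact ⟨hadj, by rw [hK _ _ hadj]; exact hpos⟩

/-- The uniform kernel of `ℤ^d`. -/
noncomputable def unifK (d : ℕ) [NeZero d] (x : Fin d → ℤ) : PMF (Fin d → ℤ) :=
  (PMF.uniformOfFintype (Fin d × Bool)).map fun s => x + stp s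

theorem unifK_adj (d : ℕ) [NeZero d] (x y : Fin d → ℤ) (h : (lattice d).Adj x y) :
    unifK d x y = (2 * d : ℝ≥0∞)⁻¹ := by
  obtain ⟨s, rfl⟩ := (adj_iff x y).1 h
  rw [unifK, PMF.map_apply, tsum_eq_single s]
  · rw [if_pos rfl, PMF.uniformOfFintype_apply, Fintype.card_prod, Fintype.card_fin,
      Fintype.card_bool]
    push_cast
    rw [mul_comm]
  · intro t ht
    rw [if_neg]
    intro h'
    exact ht (stp_injective (add_left_cancel h')).symm

end Pool.Agent.Lib.PkQ
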