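import Pool.Agent.Lib.PkQ.ExHeat
import Pool.Agent.Lib.PkQ.ExZd

/-!
# MP_971c94_pr, Q2: heat kernel bound for the uniform kernel of `ℤ^d`
-/

open MeasureTheory Set
open scoped ENNReal unitInterval

namespace Pool.Agent.Lib.PkQ

open Pool.Agent.Lib.MP_971c94_pr

open Classical in
/-- The `n`-step transition probabilities. -/
noncomputable def kn {V : Type*} (K : V → PMF V) : ℕ → V → V → ℝ≥0∞
  | 0, x, y => if x = y then 1 else 0
  | n + 1, x, y => ∑' z, K x z * kn K n z y

/-- The weight of a multinomial outcome. -/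
noncomputable def wgt {d : ℕ} (x y : Fin d → ℤ) (N : Fin d → ℕ) : ℝ :=
  ∏ j, bin (N j) (y j - x j)

theorem wgt_nonneg {d : ℕ} (x y : Fin d → ℤ) (N : Fin d → ℕ) : 0 ≤ wgt x y N :=
  Finset.prod_nonneg fun _ _ => bin_nonneg _ _

theorem wgt_succ {d : ℕ} (x y : Fin d → ℤ) (N : Fin d → ℕ) (i : Fin d) :
    wgt x y (N + Pi.single i 1) =
      2⁻¹ * wgt (x + stp (i, true)) y N + 2⁻¹ * wgt (x + stp (i, false)) y N := by
  classical
  have hi : i ∈ (Finset.univ : Finset (Fin d)) := Finset.mem_univ i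
  have h1 : ∀ (z : Fin d → ℤ), (∀ j, j ≠ i → z j = x j) → ∀ M : Fin d → ℕ,
      (∀ j, j ≠ i → M j = N j) →
      wgt z y M = bin (M i) (y i - z i) * ∏ j ∈ Finset.univ.erase i, bin (N j) (y j - x j) := by
    intro z hz M hM
    rw [wgt, ← Finset.mul_prod_erase _ _ hi]
    congr 1
    refine Finset.prod_congr rfl fun j hj => ?_
    rw [hz j (Finset.ne_of_mem_erase hj), hM j (Finset.ne_of_mem_erase hj)]
  have hs : ∀ j, j ≠ i → ∀ b : Bool, (x + stp (i, b)) j = x j := by
    intro j hj b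
    cases b <;> simp [stp, hj]
  rw [h1 x (fun _ _ => rfl) (N + Pi.single i 1) (fun j hj => by simp [hj]),
    h1 (x + stp (i, true)) (fun j hj => hs j hj true) N (fun _ _ => rfl),
    h1 (x + stp (i, false)) (fun j hj => hs j hj false) N (fun _ _ => rfl)]
  have h2 : (N + Pi.single i 1 : Fin d → ℕ) i = N i + 1 := by simp
  have h3 : (x + stp (i, true)) i = x i + 1 := by simp [stp]
  have h4 : (x + stp (i, false)) i = x i - 1 := by simp [stp, sub_eq_add_neg]
  rw [h2, h3, h4, bin, show y i - (x i + 1) = y i - x i - 1 by ring,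
    show y i - (x i - 1) = y i - x i + 1 by ring]
  ring

theorem mAvg_nonneg {d n : ℕ} {w : (Fin d → ℕ) → ℝ} (h : ∀ N, 0 ≤ w N) : 0 ≤ mAvg d n w := by
  induction n generalizing w with
  | zero => exact h 0
  | succ n ih =>
    simp only [mAvg]
    exact div_nonneg (Finset.sum_nonneg fun i _ => ih fun N => h _) (by positivity)

theorem kn_lattice {d : ℕ} (hd : d ≠ 0) {K : (Fin d → ℤ) → PMF (Fin d → ℤ)}
    (hK : ∀ x y, (lattice d).Adj x y → K x y = (2 * d : ℝ≥0∞)⁻¹) (n : ℕ) (x y : Fin d → ℤ) :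
    kn K n x y = ENNReal.ofReal (mAvg d n (wgt x y)) := by
  induction n generalizing x with
  | zero =>
    simp only [kn, mAvg, wgt, bin]
    by_cases h : x = y
    · subst h; simp
    · rw [if_neg h]
      obtain ⟨j, hj⟩ := Function.ne_iff.1 h
      rw [Finset.prod_eq_zero (Finset.mem_univ j)]
      · simp
      · rw [if_neg]
        intro h'
        exact hj (by omega)
  | succ n ih =>
    simp only [kn]
    rw [tsum_K hd hK, Finset.sum_congr rfl fun s _ => ih (x + stp s),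
      ← ENNReal.ofReal_sum_of_nonneg fun s _ => mAvg_nonneg (wgt_nonneg _ _)]
    have hd' : (0 : ℝ) < 2 * d := by positivity
    have h1 : (2 * d : ℝ≥0∞)⁻¹ = ENNReal.ofReal ((2 * d : ℝ)⁻¹) := by
      rw [ENNReal.ofReal_inv_of_pos hd', ENNReal.ofReal_mul (by norm_num), ENNReal.ofReal_natCast,
        ENNReal.ofReal_ofNat]
    rw [h1, ← ENNReal.ofReal_mul (by positivity)]
    congr 1
    simp only [mAvg, Fintype.sum_prod_type, Fintype.sum_bool]
    have h2 : ∀ i : Fin d, mAvg d n (fun N => wgt x y (N + Pi.single i 1)) =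
        2⁻¹ * (mAvg d n (wgt (x + stp (i, true)) y) + mAvg d n (wgt (x + stp (i, false)) y)) := by
      intro i
      simp only [wgt_succ]
      rw [mAvg_add, mAvg_mul, mAvg_mul]
      ring
    rw [Finset.sum_congr rfl fun i _ => h2 i, ← Finset.mul_sum]
    field_simp

theorem kn_lattice_le {d : ℕ} (hd : d ≠ 0) {K : (Fin d → ℤ) → PMF (Fin d → ℤ)}
    (hK : ∀ x y, (lattice d).Adj x y → K x y = (2 * d : ℝ≥0∞)⁻¹) (n : ℕ) (x y : Fin d → ℤ) :
    kn K n x y ≤ ENNReal.ofReal (Real.sqrt (((d : ℝ) / (n + 1)) ^ d)) := by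
  rw [kn_lattice hd hK]
  refine ENNReal.ofReal_le_ofReal (Real.le_sqrt_of_sq_le ?_)
  refine (mAvg_sq_le hd _).trans ?_
  have h1 := mAvg_prod_le (Finset.univ : Finset (Fin d)) n
  rw [Finset.card_univ, Fintype.card_fin] at h1
  refine (mAvg_mono fun N => ?_).trans h1
  rw [wgt, ← Finset.prod_pow]
  exact Finset.prod_le_prod (fun j _ => sq_nonneg _) fun j _ => bin_sq_le _ _

end Pool.Agent.Lib.PkQ
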