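import Pool.Agent.Lib.PkQ.ExDecay

/-!
# MP_971c94_pr, Q2: from the logarithmic bound to the refutation of Q2
-/

open MeasureTheory Set Filter Topology
open scoped ENNReal unitInterval

namespace Pool.Agent.Lib.PkQ

open Pool.Agent.Lib.MP_971c94_pr

/-- The density `1/2`. -/
noncomputable def half : I := ⟨1 / 2, by norm_num, by norm_num⟩

/-- `E_p V ≤ C (1 + log (1 / (1/2 - p)))` for a constant `C` and all `p < 1/2`. -/
def LogBound {V : Type*} [MeasurableSpace V] (K : V → PMF V) : Prop :=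
  ∃ C : ℝ, ∀ p : I, (p : ℝ) < 1 / 2 → ∀ v : V,
    ∫⁻ ω, visits v ω ∂(law K p) ≤ ENNReal.ofReal (C * (1 + Real.log (1 / (1 / 2 - (p : ℝ)))))

/-- `E_p V (1/2 - p)^γ → C` as `p` increases to `1/2`. -/
def PowerLaw {V : Type*} [MeasurableSpace V] (K : V → PMF V) (γ C : ℝ) : Prop :=
  ∀ v : V, Tendsto (fun p : I => (∫⁻ ω, visits v ω ∂(law K p)) *
    ENNReal.ofReal ((1 / 2 - (p : ℝ)) ^ γ)) (𝓝[<] half) (𝓝 (ENNReal.ofReal C))

theorem tendsto_aux {γ : ℝ} (hγ : 0 < γ) (C : ℝ) :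
    Tendsto (fun x : ℝ => C * (1 + Real.log (1 / x)) * x ^ γ) (𝓝[>] 0) (𝓝 0) := by
  have h1 := tendsto_log_mul_rpow_nhdsGT_zero hγ
  have h2 : Tendsto (fun x : ℝ => x ^ γ) (𝓝[>] 0) (𝓝 0) := by
    have := (Real.continuousAt_rpow_const 0 γ (Or.inr hγ.le)).tendsto
    rw [Real.zero_rpow hγ.ne'] at this
    exact this.mono_left nhdsWithin_le_nhds
  have h3 := (h2.sub h1).const_mul C
  rw [sub_zero, mul_zero] at h3
  refine h3.congr fun x => ?_
  rw [one_div, Real.log_inv]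
  ring

theorem tendsto_half : Tendsto (fun p : I => 1 / 2 - (p : ℝ)) (𝓝[<] half) (𝓝[>] 0) := by
  refine tendsto_nhdsWithin_iff.2 ⟨?_, ?_⟩
  · have : Tendsto (fun p : I => 1 / 2 - (p : ℝ)) (𝓝 half) (𝓝 (1 / 2 - (half : ℝ))) :=
      (continuous_const.sub continuous_subtype_val).tendsto _
    have h0 : 1 / 2 - (half : ℝ) = 0 := sub_self _
    rw [h0] at this
    exact this.mono_left nhdsWithin_le_nhds
  · filter_upwards [self_mem_nhdsWithin] with p hp
    have : (p : ℝ) < 1 / 2 := hp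
    exact sub_pos.2 this

instance : NeBot (𝓝[<] half) :=
  nhdsLT_neBot_of_exists_lt ⟨0, by
    show ((0 : I) : ℝ) < 1 / 2
    norm_num⟩

theorem LogBound.tendsto_zero {V : Type*} [MeasurableSpace V] {K : V → PMF V} (h : LogBound K)
    {γ : ℝ} (hγ : 0 < γ) : PowerLaw K γ 0 := by
  obtain ⟨C, hC⟩ := h
  intro v
  rw [ENNReal.ofReal_zero]
  have h1 : Tendsto (fun p : I => ENNReal.ofReal (C * (1 + Real.log (1 / (1 / 2 - (p : ℝ)))) *
      (1 / 2 - (p : ℝ)) ^ γ)) (𝓝[<] half) (𝓝 0) := by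
    have := ENNReal.tendsto_ofReal ((tendsto_aux hγ C).comp tendsto_half)
    rwa [ENNReal.ofReal_zero] at this
  refine tendsto_of_tendsto_of_tendsto_of_le_of_le' tendsto_const_nhds h1
    (Eventually.of_forall fun _ => bot_le) ?_
  filter_upwards [self_mem_nhdsWithin] with p hp
  have hp' : (p : ℝ) < 1 / 2 := hp
  rw [ENNReal.ofReal_mul' (Real.rpow_nonneg (by linarith) _)]
  gcongr
  exact hC p hp' v

theorem LogBound.not_powerLaw {V : Type*} [MeasurableSpace V] [Nonempty V] {K : V → PMF V}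
    (h : LogBound K) {γ C : ℝ} (hγ : 0 < γ) (hC : 0 < C) : ¬ PowerLaw K γ C := by
  intro h'
  obtain ⟨v⟩ := ‹Nonempty V›
  have h1 := tendsto_nhds_unique (h' v) (h.tendsto_zero hγ v)
  rw [ENNReal.ofReal_zero, ENNReal.ofReal_eq_zero] at h1
  linarith

/-- **Q2**: for every transitive, unimodular and infinitely accessible triple there are
constants `γ > 0` and `C > 0` with `E_p V (1/2 - p)^γ → C` as `p` increases to `1/2`. -/
def Q2 : Prop :=
  ∀ (V : Type) [MeasurableSpace V] [DiscreteMeasurableSpace V] (G : SimpleGraph V)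
    (K : V → PMF V) (Γ : Subgroup (G ≃g G)), IsTriple G K Γ →
    ∃ γ C : ℝ, 0 < γ ∧ 0 < C ∧ PowerLaw K γ C

/-- The assembly: everything follows from the general logarithmic bound. -/
theorem assemble
    (main : ∀ (V : Type) [MeasurableSpace V] [DiscreteMeasurableSpace V] (G : SimpleGraph V)
      (K : V → PMF V) (Γ : Subgroup (G ≃g G)), IsTriple G K Γ →
      ∀ α C : ℝ, 2 < α → Decay K α C → LogBound K) :
    (∀ (d : ℕ) (K : (Fin d → ℤ) → PMF (Fin d → ℤ)), 5 ≤ d →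
      (∀ x y, (lattice d).Adj x y → K x y = (2 * d : ℝ≥0∞)⁻¹) →
      IsTriple (lattice d) K (translations d) ∧ LogBound K) ∧
    (∀ (V : Type) [MeasurableSpace V] [DiscreteMeasurableSpace V] (G : SimpleGraph V)
      (K : V → PMF V) (Γ : Subgroup (G ≃g G)) (q : ℕ), IsTriple G K Γ → G.IsTree → 3 ≤ q →
      (∀ x, (G.neighborSet x).ncard = q) → (∀ x y, G.Adj x y → K x y = (q : ℝ≥0∞)⁻¹) →
      LogBound K) ∧
    ¬ Q2 := by
  have h1 : ∀ (d : ℕ) (K : (Fin d → ℤ) → PMF (Fin d → ℤ)), 5 ≤ d →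
      (∀ x y, (lattice d).Adj x y → K x y = (2 * d : ℝ≥0∞)⁻¹) →
      IsTriple (lattice d) K (translations d) ∧ LogBound K := by
    intro d K hd hK
    have hd0 : d ≠ 0 := by omega
    have hT := isTriple_lattice hd0 hK
    have hd' : (5 : ℝ) ≤ d := by exact_mod_cast hd
    exact ⟨hT, main _ _ _ _ hT (d / 2) _ (by linarith) (decay_lattice hd0 hK)⟩
  refine ⟨h1, ?_, ?_⟩
  · intro V _ _ G K Γ q hT hG hq hdeg hK
    obtain ⟨C, hC⟩ := decay_tree hG hq hT.locallyFinite hdeg hT.supported hK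
    exact main V G K Γ hT 3 C (by norm_num) hC
  · intro h
    obtain ⟨hT, hL⟩ := h1 5 (unifK 5) le_rfl (unifK_adj 5)
    obtain ⟨γ, C, hγ, hC, hP⟩ := h _ _ _ _ hT
    exact hL.not_powerLaw hγ hC hP

end Pool.Agent.Lib.PkQ
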