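import Pool.Agent.Lib.PkQ.Kern

/-!
# Green: the truncated Green function and the one-step inequality for the factor of a car

PROOF. `gr_succ` is `Finset.sum_range_succ`. `gr_near`: some term `kr K (i+1) x v`, `i < n`, is nonzero; `kr_near`,
`near_mono`. `ofReal_gr_succ`: `ENNReal.ofReal_sum_of_nonneg`, `ofReal_kr`, `kpow_succ`; exchange the finite sum and
the series (`Summable.tsum_finsetSum`, `ENNReal.summable`); the term `i = 0` is `∑' z, K x z * kpow K 0 z v = K x v`
(that is `kpow_one`, `kpow_succ`), the others (`Finset.sum_range_succ'`) give `∑' z, K x z * ofReal (gr n z)`.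
`car_step`: write `F = ∑' y, K x y * fac n y` and `E = ∑' y, K x y * ofReal (a * gr n y)`; `F + E = ∑' y, K x y = 1`
as `fac n y + ofReal (a * gr n y) = ofReal 1` (both nonnegative). The left side `L` satisfies
`L + K x v * fac n v = F` (split off the term `y = v`: `ENNReal.tsum_eq_add_tsum_ite v`). `fac n v ≥ ofReal a` because
`a * (1 + gr n v) ≤ 1`. So `L + (K x v * ofReal a + E) ≤ 1`, and `ofReal (a * gr (n+1) x) = ofReal a * K x v + E` by
`ofReal_gr_succ`. Hence `L ≤ 1 - ofReal (a * gr (n+1) x) = ofReal (1 - a * gr (n+1) x)`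
(`ENNReal.le_sub_of_add_le_right`, `ENNReal.ofReal_sub`).
`spot_step`: with `b = a * gr n z`, `x = a * kr (n+1) z v`, `b + x ≤ 1/2`: `(1-b-x) * exp x ≤ (1-b)(1-x) exp x ≤ 1-b`
as `(1-x) exp x ≤ 1` (`Real.add_one_le_exp (-x)`). So `exp x / (1-b) ≤ 1/(1-b-x)`; `ENNReal.ofReal_inv_of_pos`.
-/

open MeasureTheory Set Function
open scoped ENNReal unitInterval

namespace Pool.Agent.Lib.PkQ

open Pool.Agent.Lib.MP_971c94_pr

variable {V : Type*} {G : SimpleGraph V} {K : V → PMF V}

theorem gr_nonneg (K : V → PMF V) (v : V) (n : ℕ) (x : V) : 0 ≤ gr K v n x :=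
  Finset.sum_nonneg fun _ _ => kr_nonneg K _ _ _

theorem gr_zero (K : V → PMF V) (v x : V) : gr K v 0 x = 0 := by
  simp [gr]

theorem gr_succ (K : V → PMF V) (v : V) (n : ℕ) (x : V) :
    gr K v (n + 1) x = gr K v n x + kr K (n + 1) x v := by
  simp only [gr, Finset.sum_range_succ]

theorem gr_near (hK : ∀ u v, ¬ G.Adj u v → K u v = 0) {v : V} {n : ℕ} {x : V}
    (h : gr K v n x ≠ 0) : Near G n x v := by
  obtain ⟨i, hi, h'⟩ := Finset.exists_ne_zero_of_sum_ne_zero h
  exact near_mono (Nat.succ_le_of_lt (Finset.mem_range.1 hi)) (kr_near hK h')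

theorem ofReal_gr (K : V → PMF V) (v : V) (n : ℕ) (x : V) :
    ENNReal.ofReal (gr K v n x) = ∑ i ∈ Finset.range n, kpow K (i + 1) x v := by
  rw [gr, ENNReal.ofReal_sum_of_nonneg fun i _ => kr_nonneg K _ _ _]
  exact Finset.sum_congr rfl fun i _ => ofReal_kr K _ _ _

theorem ofReal_gr_succ (K : V → PMF V) (v : V) (n : ℕ) (x : V) :
    ENNReal.ofReal (gr K v (n + 1) x) = K x v + ∑' z, K x z * ENNReal.ofReal (gr K v n z) := by
  rw [ofReal_gr, Finset.sum_range_succ']
  rw [show kpow K (0 + 1) x v = K x v from kpow_one K x v, add_comm]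
  congr 1
  simp_rw [ofReal_gr, Finset.mul_sum]
  rw [Summable.tsum_finsetSum fun i _ => ENNReal.summable]
  exact Finset.sum_congr rfl fun i _ => kpow_succ K (i + 1) x v

theorem fac_zero (K : V → PMF V) (v : V) (a : ℝ) (x : V) : fac K v a 0 x = 1 := by
  simp [fac, gr_zero]

theorem fac_ne_top (K : V → PMF V) (v : V) (a : ℝ) (n : ℕ) (x : V) : fac K v a n x ≠ ⊤ :=
  ENNReal.ofReal_ne_top

theorem fac_ne_zero {v : V} {a : ℝ} (ha : 0 ≤ a) (hb : ∀ n x, a * (1 + gr K v n x) ≤ 1 / 2)
    (n : ℕ) (x : V) : fac K v a n x ≠ 0 := by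
  have h := hb n x
  rw [fac, ne_eq, ENNReal.ofReal_eq_zero, not_le]
  nlinarith

theorem fac_near (hK : ∀ u v, ¬ G.Adj u v → K u v = 0) {v : V} {a : ℝ} {n : ℕ} {x : V}
    (h : fac K v a n x ≠ 1) : Near G n x v := by
  refine gr_near hK fun h0 => h ?_
  simp [fac, h0]

open Classical in
theorem car_step {v : V} {a : ℝ} (ha : 0 ≤ a) (hb : ∀ n x, a * (1 + gr K v n x) ≤ 1 / 2)
    (n : ℕ) (x : V) :
    ∑' y, K x y * (if y = v then 0 else fac K v a n y) ≤ fac K v a (n + 1) x := by
  have h1 : ∀ y, fac K v a n y + ENNReal.ofReal (a * gr K v n y) = 1 := by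
    intro y
    have h := hb n y
    rw [fac, ← ENNReal.ofReal_add (by nlinarith) (mul_nonneg ha (gr_nonneg K v n y))]
    rw [sub_add_cancel, ENNReal.ofReal_one]
  have hFE : (∑' y, K x y * fac K v a n y) + ∑' y, K x y * ENNReal.ofReal (a * gr K v n y) = 1 := by
    rw [← ENNReal.tsum_add]
    simp_rw [← mul_add, h1, mul_one]
    exact (K x).tsum_coe
  have hL : K x v * fac K v a n v + ∑' y, K x y * (if y = v then 0 else fac K v a n y) =
      ∑' y, K x y * fac K v a n y := by
    have e1 : ∀ y, K x y * (if y = v then 0 else fac K v a n y) =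
        if y = v then 0 else K x y * fac K v a n y := by
      intro y
      by_cases hy : y = v
      · simp [hy]
      · simp [hy]
    simp_rw [e1]
    rw [ENNReal.tsum_eq_add_tsum_ite (f := fun y => K x y * fac K v a n y) v]
  have ha' : ENNReal.ofReal a ≤ fac K v a n v := by
    have h := hb n v
    exact ENNReal.ofReal_le_ofReal (by nlinarith)
  have hE : ENNReal.ofReal (a * gr K v (n + 1) x) =
      K x v * ENNReal.ofReal a + ∑' y, K x y * ENNReal.ofReal (a * gr K v n y) := by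
    rw [ENNReal.ofReal_mul ha, ofReal_gr_succ, mul_add, mul_comm (K x v), ← ENNReal.tsum_mul_left]
    congr 1
    refine tsum_congr fun y => ?_
    rw [ENNReal.ofReal_mul ha]
    ring
  have hle : (∑' y, K x y * (if y = v then 0 else fac K v a n y)) +
      ENNReal.ofReal (a * gr K v (n + 1) x) ≤ 1 := by
    rw [← hFE, ← hL, hE]
    have h2 : K x v * ENNReal.ofReal a ≤ K x v * fac K v a n v := by gcongr
    calc (∑' y, K x y * (if y = v then 0 else fac K v a n y)) +
          (K x v * ENNReal.ofReal a + ∑' y, K x y * ENNReal.ofReal (a * gr K v n y))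
        ≤ (∑' y, K x y * (if y = v then 0 else fac K v a n y)) +
          (K x v * fac K v a n v + ∑' y, K x y * ENNReal.ofReal (a * gr K v n y)) := by gcongr
      _ = _ := by ring
  have h3 := ENNReal.le_sub_of_add_le_right ENNReal.ofReal_ne_top hle
  refine h3.trans_eq ?_
  rw [fac, ENNReal.ofReal_sub _ (mul_nonneg ha (gr_nonneg K v (n + 1) x)), ENNReal.ofReal_one]

theorem spot_step {v : V} {a : ℝ} (ha : 0 ≤ a) (hb : ∀ n x, a * (1 + gr K v n x) ≤ 1 / 2)
    (n : ℕ) (z : V) :
    (fac K v a n z)⁻¹ * ENNReal.ofReal (Real.exp (a * kr K (n + 1) z v)) ≤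
      (fac K v a (n + 1) z)⁻¹ := by
  set b : ℝ := a * gr K v n z with hbdef
  set x : ℝ := a * kr K (n + 1) z v with hx
  have hb0 : 0 ≤ b := mul_nonneg ha (gr_nonneg K v n z)
  have hx0 : 0 ≤ x := mul_nonneg ha (kr_nonneg K _ _ _)
  have hbx : a * gr K v (n + 1) z = b + x := by rw [gr_succ, mul_add]
  have hbx2 : b + x ≤ 1 / 2 := by
    have h := hb (n + 1) z
    rw [mul_add, hbx] at h
    linarith
  have h1 : fac K v a n z = ENNReal.ofReal (1 - b) := rfl
  have h2 : fac K v a (n + 1) z = ENNReal.ofReal (1 - (b + x)) := by rw [fac, hbx]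
  have p1 : 0 < 1 - b := by linarith
  have p2 : 0 < 1 - (b + x) := by linarith
  rw [h1, h2, ← ENNReal.ofReal_inv_of_pos p1, ← ENNReal.ofReal_inv_of_pos p2,
    ← ENNReal.ofReal_mul (inv_nonneg.2 p1.le)]
  refine ENNReal.ofReal_le_ofReal ?_
  have h3 : (1 - x) * Real.exp x ≤ 1 := by
    have h4 := Real.add_one_le_exp (-x)
    have h5 : Real.exp (-x) * Real.exp x = 1 := by rw [← Real.exp_add]; simp
    calc (1 - x) * Real.exp x ≤ Real.exp (-x) * Real.exp x := by
          refine mul_le_mul_of_nonneg_right (by linarith) (Real.exp_pos x).le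
      _ = 1 := h5
  have h6 : (1 - (b + x)) * Real.exp x ≤ 1 - b := by
    have h7 : (1 - (b + x)) ≤ (1 - b) * (1 - x) := by nlinarith
    calc (1 - (b + x)) * Real.exp x ≤ ((1 - b) * (1 - x)) * Real.exp x :=
          mul_le_mul_of_nonneg_right h7 (Real.exp_pos x).le
      _ = (1 - b) * ((1 - x) * Real.exp x) := by ring
      _ ≤ (1 - b) * 1 := mul_le_mul_of_nonneg_left h3 p1.le
      _ = 1 - b := mul_one _
  rw [inv_mul_le_iff₀ p1, ← div_eq_mul_inv, le_div_iff₀ p2]
  linarith

end Pool.Agent.Lib.PkQ
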