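import Pool.Agent.Lib.PkQ.Defs

/-!
# Kern: the n-step transition probabilities

PROOF. `kpow_succ` is `PMF.bind_apply`. `kpow_one`: `K x z * (PMF.pure z) y` is nonzero only for `z = y`.
`near_mono`: `Near G (n+1)` contains `Near G n` (take `z = y`). `near_head`: induction on `n` (move the last step).
`near_trans`: induction on the second index. `kpow_near`: induction on `n`: if `kpow K (n+1) x y ≠ 0` then some
`z` has `K x z ≠ 0`, so `G.Adj x z` (`hK`), and `kpow K n z y ≠ 0`; `near_head`.
`tsum_kpow_col`: induction: `∑' x, ∑' z, K x z * kpow K n z v = ∑' z, (∑' x, K x z) * kpow K n z v`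
(`ENNReal.tsum_comm`, `T.tsum_col`). The last two: real numbers, `ENNReal.toReal_sum`, `PMF.apply_ne_top`;
outside `S` the terms vanish (`tsum_eq_sum`).
-/

open MeasureTheory Set Function
open scoped ENNReal unitInterval

namespace Pool.Agent.Lib.PkQ

open Pool.Agent.Lib.MP_971c94_pr

variable {V : Type*} {G : SimpleGraph V} {K : V → PMF V} {Γ : Subgroup (G ≃g G)}

theorem kpow_succ (K : V → PMF V) (n : ℕ) (x y : V) :
    kpow K (n + 1) x y = ∑' z, K x z * kpow K n z y := by
  exact PMF.bind_apply _ _ _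

theorem kpow_one (K : V → PMF V) (x y : V) : kpow K 1 x y = K x y := by
  classical
  rw [kpow_succ K 0 x y, tsum_eq_single y]
  · show K x y * (PMF.pure y) y = K x y
    rw [PMF.pure_apply, if_pos rfl, mul_one]
  · intro z hz
    show K x z * (PMF.pure z) y = 0
    rw [PMF.pure_apply, if_neg (Ne.symm hz), mul_zero]

theorem kr_nonneg (K : V → PMF V) (n : ℕ) (x y : V) : 0 ≤ kr K n x y := by
  exact ENNReal.toReal_nonneg

theorem kr_le_one (K : V → PMF V) (n : ℕ) (x y : V) : kr K n x y ≤ 1 := by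
  refine ENNReal.toReal_le_of_le_ofReal zero_le_one ?_
  rw [ENNReal.ofReal_one]
  exact PMF.coe_le_one _ _

theorem ofReal_kr (K : V → PMF V) (n : ℕ) (x y : V) : ENNReal.ofReal (kr K n x y) = kpow K n x y := by
  exact ENNReal.ofReal_toReal (PMF.apply_ne_top _ _)

theorem near_mono {m n : ℕ} (h : m ≤ n) {x y : V} (hx : Near G m x y) : Near G n x y := by
  induction h with
  | refl => exact hx
  | step _ ih => exact ⟨y, ih, Or.inl rfl⟩

theorem near_head {n : ℕ} {x z y : V} (h : x = z ∨ G.Adj x z) (hz : Near G n z y) :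
    Near G (n + 1) x y := by
  induction n generalizing y with
  | zero =>
    have hzy : z = y := hz
    subst hzy
    exact ⟨x, rfl, h⟩
  | succ n ih =>
    obtain ⟨w, hw, h'⟩ := hz
    exact ⟨w, ih hw, h'⟩

theorem near_trans {m n : ℕ} {x y z : V} (h : Near G m x y) (h' : Near G n y z) :
    Near G (m + n) x z := by
  induction n generalizing z with
  | zero =>
    have hyz : y = z := h'
    subst hyz
    exact h
  | succ n ih =>
    obtain ⟨w, hw, hwz⟩ := h'
    exact ⟨w, ih hw, hwz⟩

theorem kpow_near (hK : ∀ u v, ¬ G.Adj u v → K u v = 0) {n : ℕ} {x y : V}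
    (h : kpow K n x y ≠ 0) : Near G n x y := by
  classical
  induction n generalizing x with
  | zero =>
    by_contra hxy
    apply h
    show (PMF.pure x) y = 0
    rw [PMF.pure_apply, if_neg]
    exact fun hyx => hxy hyx.symm
  | succ n ih =>
    by_contra hn
    apply h
    rw [kpow_succ K n x y, ENNReal.tsum_eq_zero]
    intro z
    by_contra hz
    obtain ⟨h1, h2⟩ := mul_ne_zero_iff.1 hz
    apply hn
    refine near_head (Or.inr ?_) (ih h2)
    by_contra hadj
    exact h1 (hK x z hadj)

theorem kr_near (hK : ∀ u v, ¬ G.Adj u v → K u v = 0) {n : ℕ} {x y : V}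
    (h : kr K n x y ≠ 0) : Near G n x y := by
  refine kpow_near hK fun h0 => h ?_
  show (kpow K n x y).toReal = 0
  rw [h0, ENNReal.toReal_zero]

theorem tsum_kpow_col (T : IsTriple G K Γ) (n : ℕ) (v : V) : ∑' x, kpow K n x v = 1 := by
  classical
  induction n with
  | zero =>
    rw [tsum_eq_single v]
    · show (PMF.pure v) v = 1
      rw [PMF.pure_apply, if_pos rfl]
    · intro x hx
      show (PMF.pure x) v = 0
      rw [PMF.pure_apply, if_neg (Ne.symm hx)]
  | succ n ih =>
    have h1 : ∀ x, kpow K (n + 1) x v = ∑' z, K x z * kpow K n z v := fun x =>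
      kpow_succ K n x v
    simp_rw [h1]
    rw [ENNReal.tsum_comm]
    simp_rw [ENNReal.tsum_mul_right, T.tsum_col, one_mul]
    exact ih

theorem sum_kr_col_le (T : IsTriple G K Γ) (n : ℕ) (v : V) (S : Finset V) :
    ∑ x ∈ S, kr K n x v ≤ 1 := by
  have h1 : ∑ x ∈ S, kr K n x v = (∑ x ∈ S, kpow K n x v).toReal :=
    (ENNReal.toReal_sum fun x _ => PMF.apply_ne_top (kpow K n x) v).symm
  rw [h1]
  refine ENNReal.toReal_le_of_le_ofReal zero_le_one ?_
  rw [ENNReal.ofReal_one]
  exact (ENNReal.sum_le_tsum S).trans (tsum_kpow_col T n v).le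

theorem sum_kr_col_eq (T : IsTriple G K Γ) (n : ℕ) (v : V) (S : Finset V)
    (hS : ∀ x, Near G n x v → x ∈ S) : ∑ x ∈ S, kr K n x v = 1 := by
  have h1 : ∑ x ∈ S, kr K n x v = (∑ x ∈ S, kpow K n x v).toReal :=
    (ENNReal.toReal_sum fun x _ => PMF.apply_ne_top (kpow K n x) v).symm
  have h2 : ∑' x, kpow K n x v = ∑ x ∈ S, kpow K n x v := by
    refine tsum_eq_sum fun x hx => ?_
    by_contra h0
    exact hx (hS x (kpow_near T.supported h0))
  rw [h1, ← h2, tsum_kpow_col T n v, ENNReal.toReal_one]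

end Pool.Agent.Lib.PkQ
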