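import Pool.Agent.Lib.PkQ.Defs

/-!
# Mass: mass transport

PROOF. `prob_spots_ge'` is `prob_spots_ge` (Nice.lean) with one change: there `∑' x, law {E ω x v} ≤ ofReal p` is proved
by `∑' x, 1_{E ω v x} ≤ 1_{(ω v).1 = true}`; here use `E ω v x` (that is `ParksAt ω n v x` for some `n < t`) implies
`(ω v).1 = true` and `v ∉ (state ω t).cars` (`ParksAt.notMem`, `evo_cars_anti`), so
`∑' x, law {E ω x v} ≤ law {ω | (ω v).1 = true ∧ v ∉ (state ω t).cars} = ofReal p - law {v ∈ (state ω t).cars}`
(`(state ω t).cars ⊆ (initial ω).cars`, `prob_car`, `measure_diff` or `measure_add_diff`). The rest is copied.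
`ucar_eq`: `prob_inv` with `E ω x _ = (x ∈ (state ω t).cars)` (`measurable_state`, `state_act`) and `T.transitive`.
`hasSum_visits`: `lintegral_visits`: the expected number of visits is `∑' n, ofReal (ucar K p v n)`.
-/

open MeasureTheory Set Function
open scoped ENNReal unitInterval

namespace Pool.Agent.Lib.PkQ

open Pool.Agent.Lib.MP_971c94_pr

variable {V : Type*} [MeasurableSpace V] [DiscreteMeasurableSpace V] {G : SimpleGraph V}
  {K : V → PMF V} {Γ : Subgroup (G ≃g G)}

theorem ucar_nonneg (K : V → PMF V) (p : I) (v : V) (t : ℕ) : 0 ≤ ucar K p v t :=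
  measureReal_nonneg

theorem ucar_le_one (K : V → PMF V) (p : I) (v : V) (t : ℕ) : ucar K p v t ≤ 1 := by
  unfold ucar
  exact measureReal_le_one

theorem prob_spots_ge' (T : IsTriple G K Γ) (p : I) (v : V) (t : ℕ) :
    1 - 2 * (p : ℝ) + ucar K p v t ≤ (law K p).real {ω | v ∈ (state ω t).spots} := by
  classical
  have : Countable V := T.countable
  set E : (V → Site V) → V → V → Prop := fun ω x v => ∃ n < t, ParksAt ω n x v with hE
  have hEm : ∀ x v, Measurable fun ω => E ω x v := fun x v =>
    Measurable.exists fun n => (measurable_const.and (measurable_parksAt n x v))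
  have hEinv : ∀ φ : G ≃g G, ∀ ω x v, E (act φ ω) (φ x) (φ v) ↔ E ω x v := by
    intro φ ω x v
    simp only [hE, parksAt_act]
  have hm : ∀ x y, Measurable fun ω : V → Site V => if E ω x y then (1 : ℝ≥0∞) else 0 :=
    fun x y => Measurable.ite (measurableSet_setOfPred.mpr (hEm x y))
      measurable_const measurable_const
  have hp : ∀ x y, ∫⁻ ω, (if E ω x y then (1 : ℝ≥0∞) else 0) ∂(law K p) =
      law K p {ω | E ω x y} := by
    intro x y
    rw [← lintegral_indicator_one (measurableSet_setOfPred.mpr (hEm x y))]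
    refine lintegral_congr fun ω => ?_
    by_cases h : E ω x y
    · rw [if_pos h, indicator_of_mem (by exact h), Pi.one_apply]
    · rw [if_neg h, indicator_of_notMem (by exact h)]
  have hmc : MeasurableSet {ω : V → Site V | v ∈ (state ω t).cars} :=
    measurableSet_setOfPred.mpr ((measurable_state t).1 v)
  have hmp : MeasurableSet {ω : V → Site V | (ω v).1 = true ∧ v ∉ (state ω t).cars} :=
    (measurableSet_setOfPred.mpr (measurable_car v true)).inter hmc.compl
  have hsum : ∑' x, law K p {ω | E ω x v} ≤
      law K p {ω | (ω v).1 = true ∧ v ∉ (state ω t).cars} := by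
    rw [← T.mass_transport (fun x y => law K p {ω | E ω x y}) (fun φ hφ x y =>
      prob_inv T p E hEm hEinv hφ x y) v]
    simp_rw [← hp]
    rw [← lintegral_tsum fun x => (hm v x).aemeasurable]
    rw [← lintegral_indicator_one hmp]
    refine lintegral_mono fun ω => ?_
    by_cases hex : ∃ x, E ω v x
    · obtain ⟨x, hx⟩ := hex
      rw [tsum_eq_single x]
      · rw [if_pos hx]
        obtain ⟨n, hn, h⟩ := hx
        have hcar : v ∈ (initial ω).cars :=
          evo_cars_anti _ _ _ (Nat.zero_le n) h.1
        have hnot : v ∉ (state ω t).cars := fun h1 =>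
          h.notMem (evo_cars_anti _ _ _ (Nat.succ_le_of_lt hn) h1)
        simp only [initial, mem_ofPred_eq] at hcar
        rw [indicator_of_mem (by exact ⟨hcar, hnot⟩), Pi.one_apply]
      · intro y hy
        rw [if_neg]
        rintro ⟨m, hm, h'⟩
        obtain ⟨n, hn, h⟩ := hx
        rcases lt_trichotomy m n with hmn | hmn | hmn
        · exact h'.notMem (evo_cars_anti _ _ _ (Nat.succ_le_of_lt hmn) h.1)
        · subst hmn
          exact hy (h'.2.1.symm.trans h.2.1)
        · exact h.notMem (evo_cars_anti _ _ _ (Nat.succ_le_of_lt hmn) h'.1)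
    · have h0 : ∀ x, (if E ω v x then (1 : ℝ≥0∞) else 0) = 0 := fun x =>
        if_neg fun h => hex ⟨x, h⟩
      simp_rw [h0, tsum_zero]
      exact zero_le
  have hfill : law K p {ω | (ω v).1 = false ∧ v ∉ (state ω t).spots} ≤
      law K p {ω | (ω v).1 = true ∧ v ∉ (state ω t).cars} := by
    refine le_trans ?_ hsum
    refine le_trans ?_ (measure_iUnion_le _)
    refine measure_mono_ae ?_
    filter_upwards [nice_ae T.supported p] with ω hω h
    obtain ⟨x, n, hn, hx⟩ := exists_parksAt T.locallyFinite hω h.1 t h.2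
    exact mem_iUnion.mpr ⟨x, n, hn, hx⟩
  have hle : law K p {ω | (ω v).1 = false} ≤ law K p {ω | v ∈ (state ω t).spots} +
      law K p {ω | (ω v).1 = false ∧ v ∉ (state ω t).spots} := by
    refine le_trans (measure_mono ?_) (measure_union_le _ _)
    intro ω hω
    by_cases h : v ∈ (state ω t).spots
    · exact Or.inl h
    · exact Or.inr ⟨hω, h⟩
  have hcars : law K p {ω | (ω v).1 = true ∧ v ∉ (state ω t).cars} +
      law K p {ω | v ∈ (state ω t).cars} ≤ ENNReal.ofReal p := by
    rw [← measure_union ?_ hmc, ← prob_car K p v]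
    · refine measure_mono ?_
      rintro ω (h | h)
      · exact h.1
      · have hcar : v ∈ (initial ω).cars := evo_cars_anti _ _ _ (Nat.zero_le t) h
        exact hcar
    · rw [Set.disjoint_left]
      intro ω h1 h2
      exact h1.2 h2
  rw [prob_spot] at hle
  have h1 : ENNReal.ofReal (1 - p) + law K p {ω | v ∈ (state ω t).cars} ≤
      law K p {ω | v ∈ (state ω t).spots} + ENNReal.ofReal p := by
    calc ENNReal.ofReal (1 - p) + law K p {ω | v ∈ (state ω t).cars}
        ≤ law K p {ω | v ∈ (state ω t).spots} +
            law K p {ω | (ω v).1 = false ∧ v ∉ (state ω t).spots} +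
            law K p {ω | v ∈ (state ω t).cars} := by gcongr
      _ ≤ law K p {ω | v ∈ (state ω t).spots} +
            law K p {ω | (ω v).1 = true ∧ v ∉ (state ω t).cars} +
            law K p {ω | v ∈ (state ω t).cars} := by gcongr
      _ ≤ law K p {ω | v ∈ (state ω t).spots} + ENNReal.ofReal p := by
          rw [add_assoc]
          gcongr
  have h2 := ENNReal.toReal_mono (by finiteness) h1
  rw [ENNReal.toReal_add (by finiteness) (by finiteness),
    ENNReal.toReal_ofReal (by linarith [p.2.2]), ENNReal.toReal_add (by finiteness)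
    (by finiteness), ENNReal.toReal_ofReal p.2.1] at h2
  unfold ucar
  rw [Measure.real, Measure.real]
  linarith

theorem ucar_eq (T : IsTriple G K Γ) (p : I) (v w : V) (t : ℕ) :
    ucar K p v t = ucar K p w t := by
  have : Countable V := T.countable
  obtain ⟨φ, hφ, rfl⟩ := T.transitive v w
  have h := prob_inv T p (fun ω x _ => x ∈ (state ω t).cars)
    (fun x _ => (measurable_state t).1 x) (fun φ ω x _ => (state_act φ ω t).1 x) hφ v v
  unfold ucar
  rw [Measure.real, Measure.real]
  exact congrArg ENNReal.toReal h.symm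

theorem lintegral_visits_eq (T : IsTriple G K Γ) (p : I) (v : V) :
    ∫⁻ ω, visits v ω ∂(law K p) = ∑' n : ℕ, ENNReal.ofReal (ucar K p v n) := by
  rw [lintegral_visits T p v]
  refine tsum_congr fun n => ?_
  unfold ucar
  rw [Measure.real, ENNReal.ofReal_toReal (by finiteness)]

end Pool.Agent.Lib.PkQ
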