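import Pool.Agent.Lib.PkQ.Defs

/-!
# Rep: resampling one instruction

PROOF. `pos_rep_of_le` (`n ≤ s`), `pos_rep_of_ne`, `pos_rep_succ`: induction on `n`, `update_of_ne`, `update_self`
(compare `path_update` in Walk.lean). `state_rep`: `evo_congr` does not apply directly (only times `< n` matter):
induction on `n ≤ s`, using that `pos` is unchanged up to time `s` and the priorities `(ω x).2.2` and the car
indicators `(ω x).1` are unchanged (for `x = c` too). `quiet_rep`, `seen_rep`: from `state_rep`, `pos_rep_of_le`.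
`lintegral_rep`: `lintegral_update (fun _ => siteLaw K p) hF c` gives `∫⁻ ω, ∫⁻ c', F (update ω c c')`. For fixed
`ω` put `φ c' = F (update ω c c')`. Show `∫⁻ φ ∂(siteLaw K p) = ∫⁻ c', ∑' y, K u y * φ (c'.1, (update c'.2.1 (s,u) y, c'.2.2))`:
`siteLaw = carLaw.prod (walkLaw.prod prio)`, `lintegral_prod` twice, for fixed `b` the function
`χ ζ = ∫⁻ r, φ (b, (ζ, r))` is measurable, `lintegral_update` for `walkLaw` (an `infinitePi`) at the coordinate `(s,u)`,
and `∫⁻ y, χ (update ζ (s,u) y) ∂(K u).toMeasure = ∑' y, K u y * χ (update ζ (s,u) y)` (`lintegral_countable'`,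
`PMF.toMeasure_apply_singleton`, `mul_comm`), then `lintegral_tsum`, `lintegral_const_mul` backwards.
Finally `lintegral_update` backwards for `ω ↦ ∑' y, K u y * F (rep ω c s u y)` (`update_idem`).
-/

open MeasureTheory Set Function
open scoped ENNReal unitInterval

namespace Pool.Agent.Lib.PkQ

open Pool.Agent.Lib.MP_971c94_pr

section Det

variable {V : Type*} [DecidableEq V]

private theorem rep_aux_fst (ω : V → Site V) (c : V) (s : ℕ) (u y x : V) :
    (rep ω c s u y x).1 = (ω x).1 := by
  unfold rep
  by_cases h : x = c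
  · subst h
    rw [update_self]
  · rw [update_of_ne h]

private theorem rep_aux_prio (ω : V → Site V) (c : V) (s : ℕ) (u y x : V) :
    (rep ω c s u y x).2.2 = (ω x).2.2 := by
  unfold rep
  by_cases h : x = c
  · subst h
    rw [update_self]
  · rw [update_of_ne h]

private theorem rep_aux_walk (ω : V → Site V) (c : V) (s : ℕ) (u y x : V) {i : ℕ × V}
    (hi : i ≠ (s, u)) : (rep ω c s u y x).2.1 i = (ω x).2.1 i := by
  unfold rep
  by_cases h : x = c
  · subst h
    rw [update_self]
    show update (ω x).2.1 (s, u) y i = _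
    rw [update_of_ne hi]
  · rw [update_of_ne h]

theorem pos_rep_of_le (ω : V → Site V) (c : V) (s : ℕ) (u y x : V) {n : ℕ} (hn : n ≤ s) :
    pos (rep ω c s u y) x n = pos ω x n := by
  induction n with
  | zero => rfl
  | succ n ih =>
    simp only [pos]
    rw [ih (by omega)]
    apply rep_aux_walk
    intro h
    rw [Prod.mk.injEq] at h
    omega

theorem pos_rep_of_ne (ω : V → Site V) (c : V) (s : ℕ) (u y : V) {x : V} (hx : x ≠ c) (n : ℕ) :
    pos (rep ω c s u y) x n = pos ω x n := by
  induction n with
  | zero => rfl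
  | succ n ih =>
    simp only [pos]
    rw [ih]
    unfold rep
    rw [update_of_ne hx]

theorem state_rep (ω : V → Site V) (c : V) (s : ℕ) (u y : V) {n : ℕ} (hn : n ≤ s) :
    state (rep ω c s u y) n = state ω n := by
  induction n with
  | zero =>
    show initial (rep ω c s u y) = initial ω
    unfold initial
    simp only [rep_aux_fst]
  | succ n ih =>
    have h := ih (by omega)
    show (state (rep ω c s u y) n).step (fun x => pos (rep ω c s u y) x (n + 1))
        (fun a b => (rep ω c s u y a).2.2 n < (rep ω c s u y b).2.2 n) =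
      (state ω n).step (fun x => pos ω x (n + 1)) (fun a b => (ω a).2.2 n < (ω b).2.2 n)
    rw [h]
    simp only [rep_aux_prio, pos_rep_of_le ω c s u y _ hn]

theorem quiet_rep (v : V) (ω : V → Site V) (c : V) (s : ℕ) (u y : V) :
    Quiet v s (rep ω c s u y) ↔ Quiet v s ω := by
  unfold Quiet Arrives
  refine forall_congr' fun r => forall_congr' fun hr => forall_congr' fun x => ?_
  rw [state_rep ω c s u y (by omega : r ≤ s), pos_rep_of_le ω c s u y x (by omega : r + 1 ≤ s)]

theorem seen_rep (K : V → PMF V) (v : V) (N : Finset V) (T : ℕ) (ω : V → Site V) (c : V) (s : ℕ)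
    (u y : V) {r : ℕ} (hr : r ≤ s) : seen K v N T r (rep ω c s u y) = seen K v N T r ω := by
  unfold seen
  rw [state_rep ω c s u y hr]

end Det

section Measure

variable {V : Type*} [MeasurableSpace V] [DiscreteMeasurableSpace V] [Countable V] [DecidableEq V]

omit [DiscreteMeasurableSpace V] [Countable V] in
private theorem rep_aux_meas (s : ℕ) (u y : V) :
    Measurable fun c' : Site V => ((c'.1, (update c'.2.1 (s, u) y, c'.2.2)) : Site V) := by
  refine Measurable.prodMk measurable_fst (Measurable.prodMk ?_ (measurable_snd.comp measurable_snd))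
  refine measurable_pi_lambda _ fun j => ?_
  by_cases hj : j = (s, u)
  · subst hj
    simp only [update_self]
    exact measurable_const
  · simp only [update_of_ne hj]
    exact (measurable_pi_apply j).comp (measurable_fst.comp measurable_snd)

theorem measurable_rep (c : V) (s : ℕ) (u y : V) :
    Measurable fun ω : V → Site V => rep ω c s u y := by
  refine measurable_pi_lambda _ fun x => ?_
  unfold rep
  by_cases h : x = c
  · subst h
    simp only [update_self]
    exact (rep_aux_meas s u y).comp (measurable_pi_apply x)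
  · simp only [update_of_ne h]
    exact measurable_pi_apply x

private theorem rep_aux_walkLaw (K : V → PMF V) {χ : (ℕ × V → V) → ℝ≥0∞} (hχ : Measurable χ)
    (s : ℕ) (u : V) :
    ∫⁻ ζ, χ ζ ∂(walkLaw K) = ∫⁻ ζ, ∑' y, K u y * χ (update ζ (s, u) y) ∂(walkLaw K) := by
  unfold walkLaw
  rw [lintegral_update (fun i : ℕ × V => (K i.2).toMeasure) hχ (s, u)]
  refine lintegral_congr fun ζ => ?_
  rw [lintegral_countable']
  refine tsum_congr fun z => ?_
  rw [PMF.toMeasure_apply_singleton _ _ (measurableSet_singleton _), mul_comm]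

private theorem rep_aux_siteLaw (K : V → PMF V) (p : I) {φ : Site V → ℝ≥0∞} (hφ : Measurable φ)
    (s : ℕ) (u : V) :
    ∫⁻ c', φ c' ∂(siteLaw K p) =
      ∫⁻ c', ∑' y, K u y * φ (c'.1, (update c'.2.1 (s, u) y, c'.2.2)) ∂(siteLaw K p) := by
  have hψ : Measurable fun c' : Site V =>
      ∑' y, K u y * φ (c'.1, (update c'.2.1 (s, u) y, c'.2.2)) :=
    Measurable.tsum fun y => (hφ.comp (rep_aux_meas s u y)).const_mul _
  unfold siteLaw
  rw [lintegral_prod _ hφ.aemeasurable, lintegral_prod _ hψ.aemeasurable]
  refine lintegral_congr fun b => ?_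
  have h1 : Measurable fun z : (ℕ × V → V) × (ℕ → I) => φ (b, z) :=
    hφ.comp measurable_prodMk_left
  have h2 : Measurable fun z : (ℕ × V → V) × (ℕ → I) =>
      ∑' y, K u y * φ (b, (update z.1 (s, u) y, z.2)) :=
    hψ.comp measurable_prodMk_left
  rw [lintegral_prod _ h1.aemeasurable]
  show _ = ∫⁻ z : (ℕ × V → V) × (ℕ → I), ∑' y, K u y * φ (b, (update z.1 (s, u) y, z.2)) ∂_
  rw [lintegral_prod _ h2.aemeasurable]
  have hχ : Measurable fun ζ : ℕ × V → V =>
      ∫⁻ r, φ (b, (ζ, r)) ∂(Measure.infinitePi fun _ : ℕ => (volume : Measure I)) :=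
    h1.lintegral_prod_right'
  rw [rep_aux_walkLaw K hχ s u]
  refine lintegral_congr fun ζ => ?_
  have h3 : ∀ y : V, Measurable fun r : ℕ → I => φ (b, (update ζ (s, u) y, r)) := fun y =>
    h1.comp measurable_prodMk_left
  rw [lintegral_tsum fun y => ((h3 y).const_mul _).aemeasurable]
  refine tsum_congr fun y => ?_
  rw [lintegral_const_mul _ (h3 y)]

theorem lintegral_rep (K : V → PMF V) (p : I) {F : (V → Site V) → ℝ≥0∞} (hF : Measurable F)
    (c : V) (s : ℕ) (u : V) :
    ∫⁻ ω, F ω ∂(law K p) = ∫⁻ ω, ∑' y, K u y * F (rep ω c s u y) ∂(law K p) := by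
  have hG : Measurable fun ω : V → Site V => ∑' y, K u y * F (rep ω c s u y) :=
    Measurable.tsum fun y => (hF.comp (measurable_rep c s u y)).const_mul _
  unfold law
  rw [lintegral_update (fun _ : V => siteLaw K p) hF c,
    lintegral_update (fun _ : V => siteLaw K p) hG c]
  refine lintegral_congr fun ω => ?_
  have hφ : Measurable fun c' : Site V => F (update ω c c') :=
    hF.comp (measurable_update ω)
  rw [rep_aux_siteLaw K p hφ s u]
  refine lintegral_congr fun c' => ?_
  refine tsum_congr fun y => ?_
  unfold rep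
  rw [update_self, update_idem]

end Measure

end Pool.Agent.Lib.PkQ
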