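import Pool.Agent.Lib.PkQ.Kern

/-!
# Sums: bounds for the Green function

PROOF. `gr_bounded`: `gr K v n x ≤ ∑_{i<n} C (i+2)^(-α) ≤ C ∑_i (i+1)^(-α)` (`C ≥ 1`: `one_le_of_decay`, as
`kr K 0 x x = 1`), summable for `α > 1` (`Real.summable_one_div_nat_add_rpow` or
`Real.summable_nat_rpow` shifted by one).
`sum_gr_sq_le`: `(gr n x)² = ∑_{i,j<n} k_i k_j ≤ 2 ∑_{j<n} ∑_{i≤j} k_i k_j` (`k_i = kr K (i+1) x v`), and
`k_j ≤ C (j+2)^(-α) ≤ C (j+1)^(-α)`; summing over `x ∈ N` with `sum_kr_col_le` for `k_i` gives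
`≤ 2 ∑_j (j+1) C (j+1)^(-α) = 2 C ∑_j (j+1)^(1-α)`, summable as `α > 2`.
-/

open MeasureTheory Set Function
open scoped ENNReal unitInterval

namespace Pool.Agent.Lib.PkQ

open Pool.Agent.Lib.MP_971c94_pr

variable {V : Type*} {G : SimpleGraph V} {K : V → PMF V} {Γ : Subgroup (G ≃g G)}

theorem one_le_of_decay [Nonempty V] {α C : ℝ} (h : Decay K α C) : 1 ≤ C := by
  obtain ⟨x⟩ := ‹Nonempty V›
  have h0 := h 0 x x
  have h1 : kr K 0 x x = 1 := by
    simp [kr, kpow]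
  rw [h1] at h0
  simpa using h0

private theorem Sums_summable {β : ℝ} (hβ : β < -1) :
    Summable fun i : ℕ => ((i : ℝ) + 1) ^ β := by
  have h := (summable_nat_add_iff 1).mpr (Real.summable_nat_rpow.mpr hβ)
  refine h.congr fun i => ?_
  push_cast
  rfl

private theorem Sums_kr_le [Nonempty V] {α C : ℝ} (hα : 2 < α) (h : Decay K α C) (i : ℕ) (x v : V) :
    kr K (i + 1) x v ≤ C * ((i : ℝ) + 1) ^ (-α) := by
  have hC : 0 ≤ C := zero_le_one.trans (one_le_of_decay h)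
  refine (h (i + 1) x v).trans (mul_le_mul_of_nonneg_left ?_ hC)
  refine Real.rpow_le_rpow_of_nonpos (by positivity) ?_ (by linarith)
  push_cast
  linarith

theorem gr_bounded [Nonempty V] {α C : ℝ} (hα : 2 < α) (h : Decay K α C) :
    ∃ G0 : ℝ, 0 ≤ G0 ∧ ∀ v n x, gr K v n x ≤ G0 := by
  have hC : 0 ≤ C := zero_le_one.trans (one_le_of_decay h)
  have hs : Summable fun i : ℕ => ((i : ℝ) + 1) ^ (-α) := Sums_summable (by linarith)
  refine ⟨C * ∑' i : ℕ, ((i : ℝ) + 1) ^ (-α),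
    mul_nonneg hC (tsum_nonneg fun i => by positivity), fun v n x => ?_⟩
  calc gr K v n x ≤ ∑ i ∈ Finset.range n, C * ((i : ℝ) + 1) ^ (-α) :=
        Finset.sum_le_sum fun i _ => Sums_kr_le hα h i x v
    _ = C * ∑ i ∈ Finset.range n, ((i : ℝ) + 1) ^ (-α) := by rw [Finset.mul_sum]
    _ ≤ C * ∑' i : ℕ, ((i : ℝ) + 1) ^ (-α) :=
        mul_le_mul_of_nonneg_left (hs.sum_le_tsum _ fun i _ => by positivity) hC

private theorem Sums_sq (k : ℕ → ℝ) (n : ℕ) :
    (∑ i ∈ Finset.range n, k i) ^ 2 ≤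
      2 * ∑ j ∈ Finset.range n, ∑ i ∈ Finset.range (j + 1), k i * k j := by
  induction n with
  | zero => simp
  | succ n ih =>
    rw [Finset.sum_range_succ, Finset.sum_range_succ (fun j => ∑ i ∈ Finset.range (j + 1), k i * k j),
      ← Finset.sum_mul, Finset.sum_range_succ]
    nlinarith [sq_nonneg (k n)]

theorem sum_gr_sq_le (T : IsTriple G K Γ) {α C : ℝ} (hα : 2 < α) (h : Decay K α C) :
    ∃ S2 : ℝ, 0 ≤ S2 ∧ ∀ v n (N : Finset V), ∑ x ∈ N, (gr K v n x) ^ 2 ≤ S2 := by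
  haveI : Infinite V := T.infinite
  haveI : Nonempty V := inferInstance
  have hC : 0 ≤ C := zero_le_one.trans (one_le_of_decay h)
  have hs : Summable fun i : ℕ => ((i : ℝ) + 1) ^ (1 - α) := Sums_summable (by linarith)
  refine ⟨2 * (C * ∑' i : ℕ, ((i : ℝ) + 1) ^ (1 - α)),
    mul_nonneg zero_le_two (mul_nonneg hC (tsum_nonneg fun i => by positivity)), fun v n N => ?_⟩
  calc ∑ x ∈ N, (gr K v n x) ^ 2
      ≤ ∑ x ∈ N, 2 * ∑ j ∈ Finset.range n, ∑ i ∈ Finset.range (j + 1),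
          kr K (i + 1) x v * kr K (j + 1) x v :=
        Finset.sum_le_sum fun x _ => Sums_sq (fun i => kr K (i + 1) x v) n
    _ ≤ ∑ x ∈ N, 2 * ∑ j ∈ Finset.range n, ∑ i ∈ Finset.range (j + 1),
          kr K (i + 1) x v * (C * ((j : ℝ) + 1) ^ (-α)) := by
        refine Finset.sum_le_sum fun x _ => mul_le_mul_of_nonneg_left ?_ zero_le_two
        refine Finset.sum_le_sum fun j _ => Finset.sum_le_sum fun i _ => ?_
        exact mul_le_mul_of_nonneg_left (Sums_kr_le hα h j x v) (kr_nonneg K (i + 1) x v)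
    _ = 2 * ∑ j ∈ Finset.range n, ∑ i ∈ Finset.range (j + 1),
          (∑ x ∈ N, kr K (i + 1) x v) * (C * ((j : ℝ) + 1) ^ (-α)) := by
        rw [← Finset.mul_sum, Finset.sum_comm]
        congr 1
        refine Finset.sum_congr rfl fun j _ => ?_
        rw [Finset.sum_comm]
        refine Finset.sum_congr rfl fun i _ => ?_
        rw [Finset.sum_mul]
    _ ≤ 2 * ∑ j ∈ Finset.range n, ∑ _i ∈ Finset.range (j + 1), 1 * (C * ((j : ℝ) + 1) ^ (-α)) := by
        refine mul_le_mul_of_nonneg_left ?_ zero_le_two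
        refine Finset.sum_le_sum fun j _ => Finset.sum_le_sum fun i _ => ?_
        exact mul_le_mul_of_nonneg_right (sum_kr_col_le T (i + 1) v N)
          (mul_nonneg hC (by positivity))
    _ = 2 * (C * ∑ j ∈ Finset.range n, ((j : ℝ) + 1) ^ (1 - α)) := by
        congr 1
        rw [Finset.mul_sum]
        refine Finset.sum_congr rfl fun j _ => ?_
        have hj : (0 : ℝ) < (j : ℝ) + 1 := by positivity
        rw [Finset.sum_const, Finset.card_range, nsmul_eq_mul, sub_eq_add_neg,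
          Real.rpow_add hj, Real.rpow_one]
        push_cast
        ring
    _ ≤ 2 * (C * ∑' i : ℕ, ((i : ℝ) + 1) ^ (1 - α)) := by
        refine mul_le_mul_of_nonneg_left (mul_le_mul_of_nonneg_left ?_ hC) zero_le_two
        exact hs.sum_le_tsum _ fun i _ => by positivity

theorem sum_gr_le (T : IsTriple G K Γ) (v : V) (n : ℕ) (N : Finset V) :
    ∑ x ∈ N, gr K v n x ≤ n := by
  calc ∑ x ∈ N, gr K v n x = ∑ i ∈ Finset.range n, ∑ x ∈ N, kr K (i + 1) x v := by
        unfold gr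
        rw [Finset.sum_comm]
    _ ≤ ∑ _i ∈ Finset.range n, (1 : ℝ) :=
        Finset.sum_le_sum fun i _ => sum_kr_col_le T (i + 1) v N
    _ = n := by simp

end Pool.Agent.Lib.PkQ
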